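import Pool.Agent.N175.ST.Alg

/-!
# The transition function is computable in polynomial time
-/

set_option autoImplicit false

namespace Pool.Agent.NPC.N175ST

open Pool.Agent.N175.ST Pool.Agent.H670R2 Pool.Agent.NPC.H670R2

variable {α : Type} [TEnc α]

theorem tb_poly {B i : α → ℕ} (hB : Poly B) (hi : Poly i) : Poly (fun a => tb (B a) (i a)) :=
  Poly.getD (Poly.natBits hB) hi (Poly.const false)

theorem idx_poly {m B : α → ℕ} (hm : UPoly m) (hB : Poly B) : Poly (fun a => idx (m a) (B a)) :=
  Poly.filter (p := fun a i => tb (B a) i) hm.range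
    (tb_poly (hB.comp (Poly.fst Poly.id)) (Poly.snd Poly.id))

theorem pw_poly {m i : α → ℕ} (hm : UPoly m) (hi : Poly i) : Poly (fun a => pw (m a) (i a)) :=
  Poly.npow (Poly.const 2) (UPoly.of_le (Poly.min hi hm.toPoly) hm fun _ => min_le_right _ _)

theorem indT_poly {V : α → List (List ℤ)} {l : α → List ℕ} (hV : Poly V) (hl : Poly l) :
    Poly (fun a => indT (V a) (l a)) := by
  unfold indT
  refine Poly.decide_not (p := fun a => gdet ((l a).map (fun i => (V a).getD i [])) = 0)
    (Poly.decide_eq (poly_gdet ?_) (Poly.const 0))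
  exact Poly.map (F := fun a i => (V a).getD i []) hl
    (Poly.getD (hV.comp (Poly.fst Poly.id)) (Poly.snd Poly.id) (Poly.const []))

theorem isB_poly {V : α → List (List ℤ)} {r B : α → ℕ} (hV : Poly V) (hr : Poly r)
    (hB : Poly B) : Poly (fun a => isB (V a) (r a) (B a)) := by
  unfold isB
  have h := idx_poly (UPoly.length hV) hB
  exact Poly.and (Poly.decide_eq (Poly.length h) hr) (indT_poly hV h)

theorem swp_poly {m i j B : α → ℕ} (hm : UPoly m) (hi : Poly i) (hj : Poly j) (hB : Poly B) :
    Poly (fun a => swp (m a) (i a) (j a) (B a)) :=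
  Poly.add (Poly.sub hB (pw_poly hm hi)) (pw_poly hm hj)

theorem mvN_poly {V : α → List (List ℤ)} {r i j B : α → ℕ} {b : α → Bool} (hV : Poly V)
    (hr : Poly r) (hb : Poly b) (hi : Poly i) (hj : Poly j) (hB : Poly B) :
    Poly (fun a => mvN (V a) (r a) (b a) (i a) (j a) (B a)) := by
  have hs := swp_poly (UPoly.length hV) hi hj hB
  have hl := Poly.length hV
  refine Poly.cond ?_ hs hB
  exact Poly.and hb (Poly.and (Poly.decide_lt hi hl) (Poly.and (Poly.decide_lt hj hl)
    (Poly.and (tb_poly hB hi) (Poly.and (Poly.not (tb_poly hB hj)) (isB_poly hV hr hs)))))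

theorem kk_upoly {V : α → List (List ℤ)} (hV : Poly V) : UPoly (fun a => kk (V a)) :=
  UPoly.length (Poly.natBits (Poly.length hV))

theorem two_pow_kk_le (V : List (List ℤ)) : 2 ^ kk V ≤ 2 * V.length + 1 := by
  unfold kk
  rw [Nat.size_eq_bits_len]
  rcases Nat.eq_zero_or_pos V.length with h | h
  · rw [h]; simp
  · have h1 : 2 ^ (V.length.size - 1) ≤ V.length := by
      have h2 : V.length.size - 1 < V.length.size := by
        have := Nat.size_pos.2 h
        omega
      exact Nat.lt_size.1 h2
    have h3 : 2 ^ V.length.size = 2 * 2 ^ (V.length.size - 1) := by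
      rw [← pow_succ']
      congr 1
      have := Nat.size_pos.2 h
      omega
    omega

theorem MM_le (V : List (List ℤ)) : MM V ≤ 2 * (2 * V.length + 1) * (2 * V.length + 1) := by
  unfold MM
  have h := two_pow_kk_le V
  have e : 2 ^ (2 * kk V + 1) = 2 * 2 ^ kk V * 2 ^ kk V := by
    rw [pow_succ, two_mul, pow_add]; ring
  rw [e]
  exact Nat.mul_le_mul (Nat.mul_le_mul le_rfl h) h

theorem MM_upoly {V : α → List (List ℤ)} (hV : Poly V) : UPoly (fun a => MM (V a)) := by
  have h1 : UPoly (fun a => 2 * (V a).length + 1) :=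
    UPoly.add (UPoly.mul (UPoly.const 2) (UPoly.length hV)) (UPoly.const 1)
  refine UPoly.of_le (Poly.npow (Poly.const 2) ?_)
    (UPoly.mul (UPoly.mul (UPoly.const 2) h1) h1) fun a => MM_le (V a)
  exact UPoly.add (UPoly.mul (UPoly.const 2) (kk_upoly hV)) (UPoly.const 1)

theorem mvq_poly {V : α → List (List ℤ)} {r q B : α → ℕ} (hV : Poly V)
    (hr : Poly r) (hq : Poly q) (hB : Poly B) :
    Poly (fun a => mvq (V a) (r a) (q a) (B a)) := by
  have h2 : Poly (fun a => 2 ^ kk (V a)) := Poly.npow (Poly.const 2) (kk_upoly hV)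
  have h3 : Poly (fun a => q a / 2) := Poly.div hq (Poly.const 2)
  exact mvN_poly hV hr (Poly.decide_eq (Poly.mod hq (Poly.const 2)) (Poly.const 1))
    (Poly.mod h3 h2) (Poly.div h3 h2) hB

/-- masks stay small -/
theorem mvN_le (V : List (List ℤ)) (r : ℕ) (b : Bool) (i j B : ℕ) :
    mvN V r b i j B ≤ B + 2 ^ V.length := by
  unfold mvN
  cases okmv V r b i j B
  · simp
  · simp only [cond_true]
    unfold swp pw
    have : 2 ^ (min j V.length) ≤ 2 ^ V.length := Nat.pow_le_pow_right (by norm_num)
      (min_le_right _ _)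
    exact Nat.add_le_add (Nat.sub_le _ _) this

theorem cstep_iter_le (V : List (List ℤ)) (r : ℕ) : ∀ (T R B : ℕ),
    ((cstep V r)^[T] (R, B)).1 ≤ R ∧ ((cstep V r)^[T] (R, B)).2 ≤ B + T * 2 ^ V.length := by
  intro T
  induction T with
  | zero => intro R B; simp
  | succ T ih =>
    intro R B
    rw [Function.iterate_succ_apply]
    have h1 := ih (R / MM V) (mvq V r (R % MM V) B)
    have h2 : mvq V r (R % MM V) B ≤ B + 2 ^ V.length := mvN_le _ _ _ _ _ _
    have h3 : R / MM V ≤ R := Nat.div_le_self _ _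
    refine ⟨h1.1.trans h3, h1.2.trans ?_⟩
    rw [Nat.succ_mul]
    omega

theorem sz_le_of_lt_pow {n e : ℕ} (h : n < 2 ^ e) : sz n ≤ 4 * e + 1 := by
  have h1 := sz_nat_le n
  have h2 := Nat.size_le.2 h
  omega

theorem lt_two_pow_sz (n : ℕ) : n < 2 ^ sz n := by
  have h1 := Nat.lt_size_self n
  have h2 := size_le_sz n
  exact h1.trans_le (Nat.pow_le_pow_right (by norm_num) (by omega))

theorem chainN_poly {V : α → List (List ℤ)} {r T R B : α → ℕ} (hV : Poly V)
    (hr : Poly r) (hT : UPoly T) (hR : Poly R) (hB : Poly B) :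
    Poly (fun a => chainN (V a) (r a) (T a) (R a) (B a)) := by
  unfold chainN
  have hM := (MM_upoly hV).toPoly
  have hstep : Poly (fun p : α × (ℕ × ℕ) => cstep (V p.1) (r p.1) p.2) := by
    have h1 : Poly (fun p : α × (ℕ × ℕ) => p.2.1) := Poly.fst (Poly.snd Poly.id)
    have h2 : Poly (fun p : α × (ℕ × ℕ) => p.2.2) := Poly.snd (Poly.snd Poly.id)
    have h0 : Poly (fun p : α × (ℕ × ℕ) => p.1) := Poly.fst Poly.id
    exact Poly.pair (Poly.div h1 (hM.comp h0))
      (mvq_poly (hV.comp h0) (hr.comp h0) (Poly.mod h1 (hM.comp h0)) h2)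
  obtain ⟨pR, hpR⟩ := hR.sz_le
  obtain ⟨pB, hpB⟩ := hB.sz_le
  obtain ⟨pV, hpV⟩ := hV.sz_le
  obtain ⟨pT, hpT⟩ := Poly.sz_le hT
  have h := Poly.iterLen (l := fun a => List.replicate (T a) ()) (s := fun a => (R a, B a))
    (F := fun a s => cstep (V a) (r a) s) hT (Poly.pair hR hB) hstep
    (Polynomial.C 4 * pR + (Polynomial.C 4 * (pB + pT + pV + 1)) + Polynomial.C 3) (by
      intro a k hk
      have h1 := cstep_iter_le (V a) (r a) k (R a) (B a)
      change sz ((cstep (V a) (r a))^[k] (R a, B a)) ≤ _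
      rw [sz_pair]
      have h2 : sz ((cstep (V a) (r a))^[k] (R a, B a)).1 ≤ 4 * pR.eval (sz a) + 1 := by
        refine sz_le_of_lt_pow (h1.1.trans_lt ((lt_two_pow_sz _).trans_le ?_))
        exact Nat.pow_le_pow_right (by norm_num) (hpR a)
      have h3 : sz ((cstep (V a) (r a))^[k] (R a, B a)).2 ≤
          4 * (pB.eval (sz a) + pT.eval (sz a) + pV.eval (sz a) + 1) + 1 := by
        refine sz_le_of_lt_pow (h1.2.trans_lt ?_)
        have e1 : B a < 2 ^ pB.eval (sz a) :=
          (lt_two_pow_sz _).trans_le (Nat.pow_le_pow_right (by norm_num) (hpB a))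
        have e2 : k < 2 ^ pT.eval (sz a) := by
          have h4 := length_lt_sz (List.replicate (T a) ())
          have h5 := hpT a
          have h6 : pT.eval (sz a) < 2 ^ pT.eval (sz a) := Nat.lt_two_pow_self
          omega
        have e3 : 2 ^ (V a).length ≤ 2 ^ pV.eval (sz a) := by
          refine Nat.pow_le_pow_right (by norm_num) ?_
          have := length_lt_sz (V a)
          have := hpV a
          omega
        set x := pB.eval (sz a)
        set y := pT.eval (sz a)
        set z := pV.eval (sz a)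
        have e4 : k * 2 ^ (V a).length ≤ 2 ^ y * 2 ^ z := Nat.mul_le_mul e2.le e3
        have e5 : 2 ^ x ≤ 2 ^ (x + y + z) := Nat.pow_le_pow_right (by norm_num) (by omega)
        have e6 : 2 ^ y * 2 ^ z ≤ 2 ^ (x + y + z) := by
          rw [← pow_add]; exact Nat.pow_le_pow_right (by norm_num) (by omega)
        rw [pow_succ]
        omega
      simp only [Polynomial.eval_add, Polynomial.eval_mul, Polynomial.eval_C,
        Polynomial.eval_one]
      omega)
  refine (Poly.snd h).congr fun a => ?_
  simp only [List.length_replicate]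


/-! ### tables -/

theorem tstep_poly {V : α → List (List ℤ)} {r : α → ℕ} {AM tab : α → List ℕ} (hV : Poly V)
    (hr : Poly r) (hAM : Poly AM) (htab : Poly tab) :
    Poly (fun a => tstep (V a) (r a) (AM a) (tab a)) := by
  unfold tstep
  refine Poly.map (F := fun a A => ((List.range (MM (V a))).map
    (fun q => (tab a).getD (mvq (V a) (r a) q A) 0)).sum) hAM ?_
  have h0 : Poly (fun p : α × ℕ => p.1) := Poly.fst Poly.id
  refine Poly.sum (Poly.map (F := fun (p : α × ℕ) q =>
    (tab p.1).getD (mvq (V p.1) (r p.1) q p.2) 0) ((MM_upoly hV).range.comp h0) ?_)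
  have h1 : Poly (fun p : (α × ℕ) × ℕ => p.1.1) := Poly.fst (Poly.fst Poly.id)
  exact Poly.getD (htab.comp h1) (mvq_poly (hV.comp h1) (hr.comp h1) (Poly.snd Poly.id)
    (Poly.snd (Poly.fst Poly.id))) (Poly.const 0)

theorem tstep_iter_le (V : List (List ℤ)) (r : ℕ) (AM : List ℕ) (t₀ : List ℕ)
    (h0 : ∀ x ∈ t₀, x ≤ 1) (hl : t₀.length = AM.length) : ∀ T : ℕ,
    ((tstep V r AM)^[T] t₀).length = AM.length ∧
      ∀ x ∈ (tstep V r AM)^[T] t₀, x ≤ MM V ^ T := by
  intro T
  induction T with
  | zero => exact ⟨hl, fun x hx => by simpa using h0 x hx⟩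
  | succ T ih =>
    rw [Function.iterate_succ_apply']
    refine ⟨by simp [tstep], ?_⟩
    intro x hx
    unfold tstep at hx
    rw [List.mem_map] at hx
    obtain ⟨A, _, rfl⟩ := hx
    set tab := (tstep V r AM)^[T] t₀ with htab
    have h1 : ∀ q, tab.getD (mvq V r q A) 0 ≤ MM V ^ T := by
      intro q
      rw [List.getD_eq_getElem?_getD]
      cases h2 : tab[mvq V r q A]? with
      | none => simp
      | some y => exact ih.2 y (List.mem_of_getElem? h2)
    have h2 : ∀ (l : List ℕ), (l.map (fun q => tab.getD (mvq V r q A) 0)).sum ≤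
        l.length * MM V ^ T := by
      intro l
      induction l with
      | nil => simp
      | cons q l ih2 =>
        rw [List.map_cons, List.sum_cons, List.length_cons, Nat.succ_mul]
        have := h1 q
        omega
    have h3 := h2 (List.range (MM V))
    rw [List.length_range] at h3
    rw [pow_succ, mul_comm]
    exact h3

theorem tabN_poly {V : α → List (List ℤ)} {r B T : α → ℕ} {AM : α → List ℕ} (hV : Poly V)
    (hr : Poly r) (hAM : Poly AM) (hB : Poly B) (hT : UPoly T) :
    Poly (fun a => tabN (V a) (r a) (AM a) (B a) (T a)) := by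
  unfold tabN
  have hini : Poly (fun a => (AM a).map (fun A => bif decide (A = B a) then (1 : ℕ) else 0)) :=
    Poly.map (F := fun a A => bif decide (A = B a) then (1 : ℕ) else 0) hAM
      (Poly.cond (Poly.decide_eq (Poly.snd Poly.id) (hB.comp (Poly.fst Poly.id)))
        (Poly.const 1) (Poly.const 0))
  have h0 : Poly (fun p : α × List ℕ => p.1) := Poly.fst Poly.id
  have hstep : Poly (fun p : α × List ℕ => tstep (V p.1) (r p.1) (AM p.1) p.2) :=
    tstep_poly (hV.comp h0) (hr.comp h0) (hAM.comp h0) (Poly.snd Poly.id)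
  obtain ⟨pM, hpM⟩ := Poly.sz_le (MM_upoly hV)
  obtain ⟨pT, hpT⟩ := Poly.sz_le hT
  obtain ⟨pA, hpA⟩ := hAM.sz_le
  have h := Poly.iterLen (l := fun a => List.replicate (T a) ())
    (s := fun a => (AM a).map (fun A => bif decide (A = B a) then (1 : ℕ) else 0))
    (F := fun a t => tstep (V a) (r a) (AM a) t) hT hini hstep
    (pA * (Polynomial.C 4 * (pM * pT + 1) + 2) + 1) (by
      intro a k hk
      have h1 := tstep_iter_le (V a) (r a) (AM a)
        ((AM a).map (fun A => bif decide (A = B a) then (1 : ℕ) else 0))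
        (by
          intro x hx
          rw [List.mem_map] at hx
          obtain ⟨A, _, rfl⟩ := hx
          cases decide (A = B a) <;> simp) (by simp) k
      change sz ((tstep (V a) (r a) (AM a))^[k] _) ≤ _
      have hk' : k ≤ pT.eval (sz a) := by
        have := length_lt_sz (List.replicate (T a) ())
        have := hpT a
        omega
      have hM' : MM (V a) ≤ pM.eval (sz a) := by
        have := length_lt_sz (List.replicate (MM (V a)) ())
        have := hpM a
        simp only [List.length_replicate] at *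
        omega
      have hMM : MM (V a) < 2 ^ pM.eval (sz a) :=
        hM'.trans_lt Nat.lt_two_pow_self
      have h2 := sz_le_length_mul ((tstep (V a) (r a) (AM a))^[k]
        ((AM a).map (fun A => bif decide (A = B a) then (1 : ℕ) else 0)))
        (4 * (pM.eval (sz a) * pT.eval (sz a) + 1) + 1) (by
          intro x hx
          apply sz_le_of_lt_pow
          calc x ≤ MM (V a) ^ k := h1.2 x hx
            _ ≤ (2 ^ pM.eval (sz a)) ^ k := Nat.pow_le_pow_left hMM.le k
            _ = 2 ^ (pM.eval (sz a) * k) := by rw [pow_mul]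
            _ ≤ 2 ^ (pM.eval (sz a) * pT.eval (sz a)) :=
              Nat.pow_le_pow_right (by norm_num) (Nat.mul_le_mul_left _ hk')
            _ < 2 ^ (pM.eval (sz a) * pT.eval (sz a) + 1) :=
              Nat.pow_lt_pow_right (by norm_num) (by omega))
      rw [h1.1] at h2
      have h3 : (AM a).length ≤ pA.eval (sz a) := by
        have := length_lt_sz (AM a)
        have := hpA a
        omega
      simp only [Polynomial.eval_add, Polynomial.eval_mul, Polynomial.eval_C,
        Polynomial.eval_one, Polynomial.eval_ofNat]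
      refine h2.trans (Nat.add_le_add_right (Nat.mul_le_mul h3 ?_) 1)
      omega)
  refine h.congr fun a => ?_
  simp only [List.length_replicate]

theorem wtN_poly {V : α → List (List ℤ)} {r s T N B₀ B : α → ℕ} {AM : α → List ℕ} (hV : Poly V)
    (hr : Poly r) (hAM : Poly AM) (hs : UPoly s) (hT : UPoly T) (hN : Poly N) (hB₀ : Poly B₀)
    (hB : Poly B) :
    Poly (fun a => wtN (V a) (r a) (AM a) (s a) (T a) (N a) (B₀ a) (B a)) := by
  unfold wtN
  have h1 : UPoly (fun a => s a + T a * (2 * kk (V a) + 1)) :=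
    UPoly.add hs (UPoly.mul hT (UPoly.add (UPoly.mul (UPoly.const 2) (kk_upoly hV))
      (UPoly.const 1)))
  exact Poly.sub (Poly.npow (Poly.const 2) h1) (Poly.mul (Poly.sub (Poly.npow (Poly.const 2) hs)
    (Poly.const 1)) (Poly.mul hN (Poly.getD (tabN_poly hV hr hAM hB hT) hB₀ (Poly.const 0))))

theorem BL_poly {V : α → List (List ℤ)} {r : α → ℕ} {AM : α → List ℕ} (hV : Poly V)
    (hr : Poly r) (hAM : Poly AM) : Poly (fun a => BL (V a) (r a) (AM a)) :=
  Poly.filter (p := fun a B => isB (V a) (r a) B) hAM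
    (isB_poly (hV.comp (Poly.fst Poly.id)) (hr.comp (Poly.fst Poly.id)) (Poly.snd Poly.id))

theorem WL_poly {V : α → List (List ℤ)} {r s T B₀ : α → ℕ} {AM : α → List ℕ} (hV : Poly V)
    (hr : Poly r) (hAM : Poly AM) (hs : UPoly s) (hT : UPoly T) (hB₀ : Poly B₀) :
    Poly (fun a => WL (V a) (r a) (AM a) (s a) (T a) (B₀ a)) := by
  unfold WL
  have h0 : Poly (fun p : α × ℕ => p.1) := Poly.fst Poly.id
  have hBL := BL_poly hV hr hAM
  refine Poly.map (F := fun a B => (B, wtN (V a) (r a) (AM a) (s a) (T a)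
    (BL (V a) (r a) (AM a)).length (B₀ a) B)) hBL (Poly.pair (Poly.snd Poly.id) ?_)
  exact wtN_poly (hV.comp h0) (hr.comp h0) (hAM.comp h0) (hs.comp h0) (hT.comp h0)
    ((Poly.length hBL).comp h0) (hB₀.comp h0) (Poly.snd Poly.id)

theorem pickStep_inv (R S : ℕ) : ∀ (l : List (ℕ × ℕ)) (s : ℕ × Option ℕ), s.1 ≤ R →
    (∀ x ∈ l, x.1 ≤ S) → (∀ x ∈ s.2, x ≤ S) →
    (l.foldl pickStep s).1 ≤ R ∧ ∀ x ∈ (l.foldl pickStep s).2, x ≤ S := by
  intro l
  induction l with
  | nil => intro s h1 _ h3; exact ⟨h1, h3⟩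
  | cons p l ih =>
    intro s h1 h2 h3
    rw [List.foldl_cons]
    have hl : ∀ x ∈ l, x.1 ≤ S := fun x hx => h2 x (List.mem_cons_of_mem _ hx)
    unfold pickStep
    cases h4 : s.2.isSome
    · simp only [cond_false]
      by_cases h5 : s.1 < p.2
      · simp only [h5, decide_true, cond_true]
        exact ih (s.1, some p.1) h1 hl (by
          intro x hx
          simp only [Option.mem_def, Option.some.injEq] at hx
          rw [← hx]
          exact h2 p List.mem_cons_self)
      · simp only [h5, decide_false, cond_false]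
        exact ih (s.1 - p.2, none) ((Nat.sub_le _ _).trans h1) hl (by simp)
    · simp only [cond_true]
      exact ih s h1 hl h3

theorem pick_poly {l : α → List (ℕ × ℕ)} {R : α → ℕ} (hl : Poly l) (hR : Poly R) :
    Poly (fun a => pick (l a) (R a)) := by
  unfold pick
  obtain ⟨pl, hpl⟩ := hl.sz_le
  obtain ⟨pR, hpR⟩ := hR.sz_le
  have hstep : Poly (fun p : α × (ℕ × Option ℕ) × (ℕ × ℕ) => pickStep p.2.1 p.2.2) := by
    have h1 : Poly (fun p : α × (ℕ × Option ℕ) × (ℕ × ℕ) => p.2.1) := Poly.fst (Poly.snd Poly.id)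
    have h2 : Poly (fun p : α × (ℕ × Option ℕ) × (ℕ × ℕ) => p.2.2) := Poly.snd (Poly.snd Poly.id)
    exact Poly.cond (Poly.isSome (Poly.snd h1)) h1 (Poly.cond (Poly.decide_lt (Poly.fst h1)
      (Poly.snd h2)) (Poly.pair (Poly.fst h1) (Poly.some (Poly.fst h2)))
      (Poly.pair (Poly.sub (Poly.fst h1) (Poly.snd h2)) (Poly.const none)))
  refine Poly.snd (Poly.foldl (s := fun a => (R a, (none : Option ℕ)))
    (F := fun _ s p => pickStep s p) hl (Poly.pair hR (Poly.const none)) hstep
    (Polynomial.C 8 * pl + Polynomial.C 4 * pR + Polynomial.C 10) ?_)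
  intro a k hk
  have hS : ∀ x ∈ (l a).take k, x.1 ≤ 2 ^ pl.eval (sz a) := by
    intro x hx
    have h1 := sz_le_of_mem (List.mem_of_mem_take hx)
    have h2 := hpl a
    have h3 := lt_two_pow_sz x.1
    have h4 : sz x = sz x.1 + sz x.2 + 1 := sz_pair x.1 x.2
    exact h3.le.trans (Nat.pow_le_pow_right (by norm_num) (by omega))
  have h := pickStep_inv (R a) (2 ^ pl.eval (sz a)) ((l a).take k) (R a, none) le_rfl hS (by simp)
  set s := ((l a).take k).foldl pickStep (R a, none) with hs
  change sz (((l a).take k).foldl pickStep (R a, none)) ≤ _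
  rw [← hs]
  have e1 : sz s.1 ≤ 4 * pR.eval (sz a) + 1 := by
    refine sz_le_of_lt_pow (h.1.trans_lt ((lt_two_pow_sz _).trans_le ?_))
    exact Nat.pow_le_pow_right (by norm_num) (hpR a)
  have e2 : sz s.2 ≤ 4 * (pl.eval (sz a) + 1) + 4 := by
    cases h5 : s.2 with
    | none => simp
    | some x =>
      have h6 := h.2 x h5
      have h7 : sz x ≤ 4 * (pl.eval (sz a) + 1) + 1 :=
        sz_le_of_lt_pow (h6.trans_lt (Nat.pow_lt_pow_right (by norm_num) (by omega)))
      simp
      omega
  have e3 : sz s = sz s.1 + sz s.2 + 1 := sz_pair s.1 s.2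
  simp only [Polynomial.eval_add, Polynomial.eval_mul, Polynomial.eval_C]
  omega


/-! ### the complex -/

theorem tl_poly {L : α → List (List ℕ)} (hL : Poly L) : Poly (fun a => tl (L a)) := by
  unfold tl
  obtain ⟨pL, hpL⟩ := hL.sz_le
  refine Poly.foldr (s := fun _ => 0) (F := fun _ (F : List ℕ) n => max F.length n) hL
    (Poly.const 0) (Poly.max (Poly.length (Poly.fst (Poly.snd Poly.id)))
      (Poly.snd (Poly.snd Poly.id))) (Polynomial.C 4 * pL + Polynomial.C 1) ?_
  intro a k _
  have key : ∀ l : List (List ℕ), l.foldr (fun (F : List ℕ) n => max F.length n) 0 ≤ sz l := by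
    intro l
    induction l with
    | nil => simp
    | cons F l ih =>
      rw [List.foldr_cons]
      have h1 := length_lt_sz F
      have h2 : sz (F :: l) = sz F + sz l + 1 := by simp
      omega
  have h1 := key ((L a).drop k)
  have h2 := Poly.sz_drop_le (L a) k
  have h3 := hpL a
  have h4 := sz_nat_le (((L a).drop k).foldr (fun (F : List ℕ) n => max F.length n) 0)
  have h5 := Poly.size_le_self (((L a).drop k).foldr (fun (F : List ℕ) n => max F.length n) 0)
  simp only [Polynomial.eval_add, Polynomial.eval_mul, Polynomial.eval_C]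
  omega

theorem DD_poly {L : α → List (List ℕ)} (hL : Poly L) : Poly (fun a => DD (L a)) :=
  Poly.filter (p := fun a (F : List ℕ) => decide (F.length = tl (L a))) hL
    (Poly.decide_eq (Poly.length (Poly.snd Poly.id)) ((tl_poly hL).comp (Poly.fst Poly.id)))

theorem EE_poly {L : α → List (List ℕ)} (hL : Poly L) : Poly (fun a => EE (L a)) :=
  Poly.filter (p := fun a (F : List ℕ) => decide (F.length + 1 = tl (L a))) hL
    (Poly.decide_eq (Poly.succ (Poly.length (Poly.snd Poly.id)))
      ((tl_poly hL).comp (Poly.fst Poly.id)))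

theorem del_poly {F : α → List ℕ} {i : α → ℕ} (hF : Poly F) (hi : Poly i) :
    Poly (fun a => del (F a) (i a)) := by
  unfold del
  refine Poly.map (F := fun _ (p : ℕ × ℕ) => p.1) (Poly.filter (p := fun a (p : ℕ × ℕ) =>
    decide (p.2 ≠ i a)) (Poly.zipIdx hF) ?_) (Poly.fst (Poly.snd Poly.id))
  exact Poly.decide_not (p := fun q : α × (ℕ × ℕ) => q.2.2 = i q.1)
    (Poly.decide_eq (Poly.snd (Poly.snd Poly.id)) (hi.comp (Poly.fst Poly.id)))

theorem incA_poly {F G : α → List ℕ} (hF : Poly F) (hG : Poly G) :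
    Poly (fun a => incA (F a) (G a)) := by
  unfold incA
  refine Poly.isum (Poly.map (F := fun a i => bif decide (del (F a) i = G a) then
    (bif decide (i % 2 = 0) then (1 : ℤ) else -1) else 0) (Poly.range_length hF) ?_)
  have h0 : Poly (fun p : α × ℕ => p.1) := Poly.fst Poly.id
  have h1 : Poly (fun p : α × ℕ => p.2) := Poly.snd Poly.id
  exact Poly.cond (Poly.decide_eq (del_poly (hF.comp h0) h1) (hG.comp h0))
    (Poly.cond (Poly.decide_eq (Poly.mod h1 (Poly.const 2)) (Poly.const 0)) (Poly.const 1)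
      (Poly.const (-1))) (Poly.const 0)

theorem VV_poly {L : α → List (List ℕ)} (hL : Poly L) : Poly (fun a => VV (L a)) := by
  unfold VV
  have h0 : Poly (fun p : α × List ℕ => p.1) := Poly.fst Poly.id
  refine Poly.map (F := fun a F => (EE (L a)).map (fun G => incA F G)) (DD_poly hL) ?_
  refine Poly.map (F := fun (p : α × List ℕ) G => incA p.2 G) ((EE_poly hL).comp h0) ?_
  exact incA_poly (Poly.snd (Poly.fst Poly.id)) (Poly.snd Poly.id)

theorem greedy_sublist (test : List ℕ → Bool) : ∀ (l : List ℕ) (acc pre : List ℕ),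
    acc.Sublist pre → (l.foldl (fun acc i => if test (acc ++ [i]) then acc ++ [i] else acc)
      acc).Sublist (pre ++ l) := by
  intro l
  induction l with
  | nil => intro acc pre h; simpa using h
  | cons i l ih =>
    intro acc pre h
    rw [List.foldl_cons]
    have h2 : (pre ++ i :: l) = (pre ++ [i]) ++ l := by simp
    rw [h2]
    split_ifs with h1
    · exact ih _ _ (h.append (List.Sublist.refl _))
    · exact ih _ _ (h.trans (List.sublist_append_left _ _))

theorem sz_sublist {β : Type} [TEnc β] {l l' : List β} (h : l.Sublist l') : sz l ≤ sz l' := by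
  induction h with
  | slnil => exact le_rfl
  | cons a _ ih => simp; omega
  | cons_cons a _ ih => simp; omega

theorem gb_poly {V : α → List (List ℤ)} (hV : Poly V) : Poly (fun a => gb (V a)) := by
  unfold gb greedy
  have hr := Poly.range_length hV
  obtain ⟨pr, hpr⟩ := hr.sz_le
  have h0 : Poly (fun p : α × List ℕ × ℕ => p.1) := Poly.fst Poly.id
  have h1 : Poly (fun p : α × List ℕ × ℕ => p.2.1) := Poly.fst (Poly.snd Poly.id)
  have h2 : Poly (fun p : α × List ℕ × ℕ => p.2.1 ++ [p.2.2]) :=
    Poly.append h1 (Poly.cons (Poly.snd (Poly.snd Poly.id)) (Poly.const []))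
  refine Poly.foldl (s := fun _ => ([] : List ℕ)) (F := fun a acc i =>
    if indT (V a) (acc ++ [i]) then acc ++ [i] else acc) hr (Poly.const []) ?_ pr ?_
  · exact Poly.ite (p := fun p : α × List ℕ × ℕ => indT (V p.1) (p.2.1 ++ [p.2.2]) = true)
      (Poly.decide_bool (indT_poly (hV.comp h0) h2)) h2 h1
  · intro a k _
    have h3 := greedy_sublist (indT (V a)) ((List.range (V a).length).take k) [] []
      (List.Sublist.refl _)
    rw [List.nil_append] at h3
    exact (sz_sublist h3).trans ((Poly.sz_take_le _ _).trans (hpr a))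

theorem rk_upoly {V : α → List (List ℤ)} (hV : Poly V) : UPoly (fun a => rk (V a)) :=
  UPoly.length (gb_poly hV)

theorem B0_poly {V : α → List (List ℤ)} (hV : Poly V) : Poly (fun a => B0 (V a)) := by
  unfold B0 maskL
  refine Poly.sum (Poly.map (F := fun a i => pw (V a).length i) (gb_poly hV) ?_)
  exact pw_poly ((UPoly.length hV).comp (Poly.fst Poly.id)) (Poly.snd Poly.id)

theorem outF_poly {L : α → List (List ℕ)} {B : α → ℕ} (hL : Poly L) (hB : Poly B) :
    Poly (fun a => outF (L a) (B a)) := by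
  unfold outF
  have h0 : Poly (fun p : α × List ℕ => p.1) := Poly.fst Poly.id
  have hD := DD_poly hL
  have h1 : Poly (fun a => (idx (DD (L a)).length (B a)).map (fun i => (DD (L a)).getD i [])) :=
    Poly.map (F := fun a i => (DD (L a)).getD i []) (idx_poly (UPoly.length hD) hB)
      (Poly.getD (hD.comp (Poly.fst Poly.id)) (Poly.snd Poly.id) (Poly.const []))
  exact Poly.filter (p := fun a (F : List ℕ) => decide (F.length < tl (L a)) ||
    decide (F ∈ (idx (DD (L a)).length (B a)).map (fun i => (DD (L a)).getD i []))) hL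
    (Poly.or (Poly.decide_lt (Poly.length (Poly.snd Poly.id)) ((tl_poly hL).comp h0))
      ((Poly.decide_mem (Poly.snd Poly.id) (h1.comp h0)).congr fun a => by congr))

/-! ### the loop -/

theorem TT_upoly {V : α → List (List ℤ)} {s : α → ℕ} (hV : Poly V) (hs : UPoly s) :
    UPoly (fun a => TT (V a) (s a)) :=
  UPoly.mul (MM_upoly hV) (UPoly.add hs (UPoly.length hV))

theorem unit_upoly {s : α → List Unit} (hs : Poly s) : UPoly (fun a => (s a).length) :=
  UPoly.length hs

theorem uite {p : α → Prop} [DecidablePred p] {m n : α → ℕ} (hp : Poly (fun a => decide (p a)))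
    (hm : UPoly m) (hn : UPoly n) : UPoly (fun a => if p a then m a else n a) := by
  unfold UPoly
  refine (Poly.ite hp hm hn).congr fun a => ?_
  by_cases h : p a <;> simp [h]

theorem nc_upoly : UPoly nc := by
  have hV : Poly (fun σ : Sta => VV σ.2.1) := VV_poly (Poly.fst (Poly.snd Poly.id))
  have hs : UPoly (fun σ : Sta => σ.2.2.1.length) :=
    UPoly.length (Poly.fst (Poly.snd (Poly.snd Poly.id)))
  have h1 : UPoly (fun σ : Sta => TT (VV σ.2.1) σ.2.2.1.length * (2 * kk (VV σ.2.1) + 1)) :=
    UPoly.mul (TT_upoly hV hs) (UPoly.add (UPoly.mul (UPoly.const 2) (kk_upoly hV))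
      (UPoly.const 1))
  have h0 : Poly (fun σ : Sta => σ.1) := Poly.fst Poly.id
  exact uite (Poly.decide_eq h0 (Poly.const 0)) (UPoly.add hs h1)
    (uite (Poly.decide_eq h0 (Poly.const 1)) (UPoly.const 0) (UPoly.add (UPoly.length hV) h1))

theorem AMl_poly {V : α → List (List ℤ)} {pad : α → List Unit} (hV : Poly V) (hp : Poly pad) :
    Poly (fun a => AMl (V a).length (pad a)) :=
  Poly.filter (p := fun a i => decide (i < 2 ^ (V a).length)) (Poly.range_length hp)
    (Poly.decide_lt (Poly.snd Poly.id) (Poly.npow (Poly.const 2)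
      ((UPoly.length hV).comp (Poly.fst Poly.id))))

theorem bits_poly {β : Type} [TEnc β] {f : α → β} (hf : Poly f) : Poly (fun a => bits (f a)) := by
  have h1 : PC (bits : α → List Bool) (fun x : List Bool => x) (fun a => bits (f a)) := hf
  exact PC.comp (g := fun x : List Bool => x) (f := fun a => bits (f a)) PC.rawIn h1

theorem stp0_poly {L : α → List (List ℕ)} {s : α → List Unit} {R : α → ℕ} (hL : Poly L)
    (hs : Poly s) (hR : Poly R) : Poly (fun a => stp0 (L a) (s a) (R a)) := by
  have hV := VV_poly hL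
  have hsu := UPoly.length hs
  have h2 : Poly (fun a => 2 ^ (s a).length) := Poly.npow (Poly.const 2) hsu
  refine Poly.ite (Poly.decide_eq (Poly.mod hR h2) (Poly.const 0)) (Poly.inr (Poly.pair
    (Poly.const 1) (Poly.pair hL (Poly.pair hs (Poly.const [()]))))) (Poly.inl (bits_poly ?_))
  exact outF_poly hL (chainN_poly hV (rk_upoly hV).toPoly (TT_upoly hV hsu) (Poly.div hR h2)
    (B0_poly hV))

theorem stp1_poly {L : α → List (List ℕ)} {s pad : α → List Unit} (hL : Poly L)
    (hs : Poly s) (hp : Poly pad) : Poly (fun a => stp1 (L a) (s a) (pad a)) := by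
  have hV := VV_poly hL
  exact Poly.ite (Poly.decide_lt (Poly.length hp) (Poly.npow (Poly.const 2) (UPoly.length hV)))
    (Poly.inr (Poly.pair (Poly.const 1) (Poly.pair hL (Poly.pair hs (Poly.append hp hp)))))
    (Poly.inr (Poly.pair (Poly.const 2) (Poly.pair hL (Poly.pair hs hp))))

theorem stp2_poly {L : α → List (List ℕ)} {s pad : α → List Unit} {R : α → ℕ} (hL : Poly L)
    (hs : Poly s) (hp : Poly pad) (hR : Poly R) :
    Poly (fun a => stp2 (L a) (s a) (pad a) (R a)) := by
  have hV := VV_poly hL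
  have hsu := UPoly.length hs
  have h0 : Poly (fun p : α × ℕ => p.1) := Poly.fst Poly.id
  have h1 := pick_poly (WL_poly hV (rk_upoly hV).toPoly (AMl_poly hV hp) hsu (TT_upoly hV hsu)
    (B0_poly hV)) hR
  refine (Poly.optCases (g := fun a => (Sum.inr (2, L a, s a, pad a) : List Bool ⊕ Sta))
    (h := fun a B => Sum.inl (bits (outF (L a) B))) h1 ?_ ?_).congr fun a => ?_
  · exact Poly.inr (Poly.pair (Poly.const 2) (Poly.pair hL (Poly.pair hs hp)))
  · exact Poly.inl (bits_poly (outF_poly (hL.comp h0) (Poly.snd Poly.id)))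
  · unfold stp2
    cases pick (WL (VV (L a)) (rk (VV (L a))) (AMl (VV (L a)).length (pad a)) (s a).length
      (TT (VV (L a)) (s a).length) (B0 (VV (L a)))) (R a) <;> rfl

theorem stp_poly : Poly (fun p : List Bool × Sta => stp p.1 p.2) := by
  have h1 : Poly (fun p : List Bool × Sta => valB p.1) := Poly.valBits (Poly.fst Poly.id)
  have h2 : Poly (fun p : List Bool × Sta => p.2) := Poly.snd Poly.id
  have hL : Poly (fun p : List Bool × Sta => p.2.2.1) := Poly.fst (Poly.snd h2)
  have hs : Poly (fun p : List Bool × Sta => p.2.2.2.1) := Poly.fst (Poly.snd (Poly.snd h2))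
  have hp : Poly (fun p : List Bool × Sta => p.2.2.2.2) := Poly.snd (Poly.snd (Poly.snd h2))
  exact Poly.ite (Poly.decide_eq (Poly.fst h2) (Poly.const 0)) (stp0_poly hL hs h1)
    (Poly.ite (Poly.decide_eq (Poly.fst h2) (Poly.const 1)) (stp1_poly hL hs hp)
      (stp2_poly hL hs hp h1))

end Pool.Agent.NPC.N175ST
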