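import Mathlib

/-!
# Basic definitions: matroids on the natural numbers and the basis exchange chain
-/

set_option autoImplicit false

namespace Pool.Agent.N175.ST

open Finset

/-- `Ind` is the family of (finite) independent sets of a matroid on the natural numbers. -/
structure IndSys (Ind : Finset ℕ → Prop) : Prop where
  empty : Ind ∅
  mono : ∀ {A B : Finset ℕ}, A ⊆ B → Ind B → Ind A
  aug : ∀ {A B : Finset ℕ}, Ind A → Ind B → A.card < B.card → ∃ e ∈ B, e ∉ A ∧ Ind (insert e A)

open Classical in
/-- the `l`-element independent subsets of `range N` -/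
noncomputable def Fm (Ind : Finset ℕ → Prop) (N l : ℕ) : Finset (Finset ℕ) :=
  (range N).powerset.filter (fun A => Ind A ∧ A.card = l)

theorem mem_Fm {Ind : Finset ℕ → Prop} {N l : ℕ} {A : Finset ℕ} :
    A ∈ Fm Ind N l ↔ A ⊆ range N ∧ Ind A ∧ A.card = l := by
  classical
  simp only [Fm, Finset.mem_filter, Finset.mem_powerset]

/-- one (lazy) move of the basis exchange chain on the family `F` -/
def mvF (F : Finset (Finset ℕ)) (b : Bool) (i j : ℕ) (A : Finset ℕ) : Finset ℕ :=
  if b = true ∧ i ∈ A ∧ j ∉ A ∧ insert j (A.erase i) ∈ F then insert j (A.erase i) else A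

/-- the number of sequences of `T` moves `(b, i, j)` with `i, j < K` which lead from `A` to `B` -/
def cntF (F : Finset (Finset ℕ)) (K : ℕ) (B : Finset ℕ) : ℕ → Finset ℕ → ℕ
  | 0, A => if A = B then 1 else 0
  | T + 1, A => ∑ b : Bool, ∑ i ∈ range K, ∑ j ∈ range K, cntF F K B T (mvF F b i j A)

end Pool.Agent.N175.ST
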