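import Pool.Agent.N175.ST.Vec
import Pool.Agent.NPC.Dec

/-!
# The sampling algorithm
-/

set_option autoImplicit false

namespace Pool.Agent.N175.ST

open Pool.Agent.NPC Pool.Agent.H670R2

/-! ### masks -/

/-- bit `i` of `B` -/
def tb (B i : ℕ) : Bool := B.bits.getD i false

/-- the indices of the mask `B` which are smaller than `m` -/
def idx (m B : ℕ) : List ℕ := (List.range m).filter (fun i => tb B i)

/-- `2 ^ i` for `i ≤ m` -/
def pw (m i : ℕ) : ℕ := 2 ^ (min i m)

/-- the vectors with indices in `l` are linearly independent (Gram determinant) -/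
def indT (V : List (List ℤ)) (l : List ℕ) : Bool :=
  decide (gdet (l.map (fun i => V.getD i [])) ≠ 0)

/-- is the mask `B` a basis? -/
def isB (V : List (List ℤ)) (r B : ℕ) : Bool :=
  decide ((idx V.length B).length = r) && indT V (idx V.length B)

/-- exchange of `i` for `j` -/
def swp (m i j B : ℕ) : ℕ := B - pw m i + pw m j

/-- the condition for a move -/
def okmv (V : List (List ℤ)) (r : ℕ) (b : Bool) (i j B : ℕ) : Bool :=
  b && (decide (i < V.length) && (decide (j < V.length) && (tb B i && (!(tb B j) &&
    isB V r (swp V.length i j B)))))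

/-- one move -/
def mvN (V : List (List ℤ)) (r : ℕ) (b : Bool) (i j B : ℕ) : ℕ :=
  bif okmv V r b i j B then swp V.length i j B else B

/-- the number `k` with `m < 2 ^ k ≤ 2 m` -/
def kk (V : List (List ℤ)) : ℕ := V.length.bits.length

/-- the number of moves -/
def MM (V : List (List ℤ)) : ℕ := 2 ^ (2 * kk V + 1)

/-- the move with number `q` -/
def mvq (V : List (List ℤ)) (r q B : ℕ) : ℕ :=
  mvN V r (decide (q % 2 = 1)) (q / 2 % 2 ^ kk V) (q / 2 / 2 ^ kk V) B

/-- one step of the chain, reading the number `R` -/
def cstep (V : List (List ℤ)) (r : ℕ) (s : ℕ × ℕ) : ℕ × ℕ := (s.1 / MM V, mvq V r (s.1 % MM V) s.2)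

/-- `T` steps of the chain from `B`, with the random number `R` -/
def chainN (V : List (List ℤ)) (r T R B : ℕ) : ℕ := ((cstep V r)^[T] (R, B)).2

/-! ### tables -/

/-- one step of the table: number of sequences of moves leading to the target -/
def tstep (V : List (List ℤ)) (r : ℕ) (AM : List ℕ) (tab : List ℕ) : List ℕ :=
  AM.map (fun A => ((List.range (MM V)).map (fun q => tab.getD (mvq V r q A) 0)).sum)

/-- the table after `T` steps, for the target `B` -/
def tabN (V : List (List ℤ)) (r : ℕ) (AM : List ℕ) (B T : ℕ) : List ℕ :=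
  (tstep V r AM)^[T] (AM.map (fun A => bif decide (A = B) then 1 else 0))

/-- weight of the basis `B` in the correcting distribution -/
def wtN (V : List (List ℤ)) (r : ℕ) (AM : List ℕ) (s T N B₀ B : ℕ) : ℕ :=
  2 ^ (s + T * (2 * kk V + 1)) - (2 ^ s - 1) * (N * (tabN V r AM B T).getD B₀ 0)

/-- the list of the bases -/
def BL (V : List (List ℤ)) (r : ℕ) (AM : List ℕ) : List ℕ := AM.filter (fun B => isB V r B)

/-- the list of the bases with their weights -/
def WL (V : List (List ℤ)) (r : ℕ) (AM : List ℕ) (s T B₀ : ℕ) : List (ℕ × ℕ) :=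
  (BL V r AM).map (fun B => (B, wtN V r AM s T (BL V r AM).length B₀ B))

/-- one step of the choice by weights -/
def pickStep (s : ℕ × Option ℕ) (p : ℕ × ℕ) : ℕ × Option ℕ :=
  bif s.2.isSome then s else bif decide (s.1 < p.2) then (s.1, some p.1) else (s.1 - p.2, none)

/-- choice by weights -/
def pick (l : List (ℕ × ℕ)) (R : ℕ) : Option ℕ := (l.foldl pickStep (R, none)).2

/-! ### the complex -/

/-- the maximal number of vertices of a face -/
def tl (L : List (List ℕ)) : ℕ := L.foldr (fun F n => max F.length n) 0

/-- the faces of maximal dimension -/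
def DD (L : List (List ℕ)) : List (List ℕ) := L.filter (fun F => decide (F.length = tl L))

/-- the faces of the next dimension -/
def EE (L : List (List ℕ)) : List (List ℕ) := L.filter (fun F => decide (F.length + 1 = tl L))

/-- delete the entry with index `i` -/
def del (F : List ℕ) (i : ℕ) : List ℕ := (F.zipIdx.filter (fun p => decide (p.2 ≠ i))).map Prod.fst

/-- the incidence number -/
def incA (F G : List ℕ) : ℤ :=
  ((List.range F.length).map (fun i => bif decide (del F i = G) then
    (bif decide (i % 2 = 0) then (1 : ℤ) else -1) else 0)).sum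

/-- the columns of the boundary matrix -/
def VV (L : List (List ℕ)) : List (List ℤ) :=
  (DD L).map (fun F => (EE L).map (fun G => incA F G))

/-- the greedy basis -/
def gb (V : List (List ℤ)) : List ℕ := greedy (indT V) V.length

/-- the rank -/
def rk (V : List (List ℤ)) : ℕ := (gb V).length

/-- the mask of a list of indices -/
def maskL (m : ℕ) (l : List ℕ) : ℕ := (l.map (fun i => pw m i)).sum

/-- the mask of the greedy basis -/
def B0 (V : List (List ℤ)) : ℕ := maskL V.length (gb V)

/-- the output: the faces of the spanning tree with mask `B` -/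
def outF (L : List (List ℕ)) (B : ℕ) : List (List ℕ) :=
  L.filter (fun F => decide (F.length < tl L) ||
    decide (F ∈ (idx (DD L).length B).map (fun i => (DD L).getD i [])))

/-! ### the loop -/

/-- the states of the loop: stage, complex, accuracy, padding -/
abbrev Sta : Type := ℕ × List (List ℕ) × List Unit × List Unit

/-- the number of steps of the chain -/
def TT (V : List (List ℤ)) (s : ℕ) : ℕ := MM V * (s + V.length)

/-- the number of coins in a state -/
def nc (σ : Sta) : ℕ :=
  if σ.1 = 0 then σ.2.2.1.length + TT (VV σ.2.1) σ.2.2.1.length * (2 * kk (VV σ.2.1) + 1)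
  else if σ.1 = 1 then 0
  else (VV σ.2.1).length + TT (VV σ.2.1) σ.2.2.1.length * (2 * kk (VV σ.2.1) + 1)

/-- all masks, if the padding is long enough -/
def AMl (m : ℕ) (pad : List Unit) : List ℕ :=
  (List.range pad.length).filter (fun i => decide (i < 2 ^ m))

/-- the main stage -/
def stp0 (L : List (List ℕ)) (s : List Unit) (R : ℕ) : List Bool ⊕ Sta :=
  if R % 2 ^ s.length = 0 then Sum.inr (1, L, s, [()])
  else Sum.inl (bits (outF L (chainN (VV L) (rk (VV L)) (TT (VV L) s.length) (R / 2 ^ s.length)
    (B0 (VV L)))))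

/-- the padding stage -/
def stp1 (L : List (List ℕ)) (s pad : List Unit) : List Bool ⊕ Sta :=
  if pad.length < 2 ^ (VV L).length then Sum.inr (1, L, s, pad ++ pad) else Sum.inr (2, L, s, pad)

/-- the last stage -/
def stp2 (L : List (List ℕ)) (s pad : List Unit) (R : ℕ) : List Bool ⊕ Sta :=
  (pick (WL (VV L) (rk (VV L)) (AMl (VV L).length pad) s.length (TT (VV L) s.length) (B0 (VV L)))
    R).elim (Sum.inr (2, L, s, pad)) (fun B => Sum.inl (bits (outF L B)))

/-- the transition function of the loop -/
def stp (r : List Bool) (σ : Sta) : List Bool ⊕ Sta :=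
  if σ.1 = 0 then stp0 σ.2.1 σ.2.2.1 (valB r)
  else if σ.1 = 1 then stp1 σ.2.1 σ.2.2.1 σ.2.2.2
  else stp2 σ.2.1 σ.2.2.1 σ.2.2.2 (valB r)

end Pool.Agent.N175.ST
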