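import Pool.Agent.N175.ST.Abs
import Pool.Agent.Helper870.DTLevel

set_option autoImplicit false

/-!
Mixing of the basis exchange chain of a matroid (Anari, Liu, Oveis Gharan, Vinzant), via the
local-to-global machinery of `Pool/Agent/Helper870/DT*.lean`.
-/

namespace Pool.Agent.N175.ST

namespace Mix

open Finset Matrix Pool.Agent.Helper870.DT

theorem trickle_conn {ι : Type} [Fintype ι] [DecidableEq ι] (W : ι → ι → ℝ)
    (hW : ∀ x y, 0 ≤ W x y) (hs : ∀ x y, W x y = W y x)
    (hconn : ∀ x y, 0 < ∑ t, W x t → 0 < ∑ t, W y t →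
      0 < W x y ∨ x = y ∨ ∃ z, 0 < W x z ∧ 0 < W z y)
    (hT : ∀ u : ι → ℝ, ∑ x, ∑ y, W x y * (u x * u y) ≤
      ∑ z, (∑ y, W z y * u y) ^ 2 / (∑ y, W z y))
    (u : ι → ℝ) : (∑ x, ∑ y, W x y) * ∑ x, ∑ y, W x y * (u x * u y) ≤
      (∑ x, (∑ y, W x y) * u x) ^ 2 := by
  classical
  set w : ι → ℝ := fun x => ∑ y, W x y with hw
  have hw0 : ∀ x, 0 ≤ w x := fun x => Finset.sum_nonneg fun y _ => hW x y
  have hWz : ∀ x, w x = 0 → ∀ y, W x y = 0 := by
    intro x hx y
    exact (Finset.sum_eq_zero_iff_of_nonneg (fun y _ => hW x y)).mp hx y (Finset.mem_univ y)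
  set d : ι → ℝ := fun x => Real.sqrt (w x) with hd
  have hd2 : ∀ x, d x * d x = w x := fun x => Real.mul_self_sqrt (hw0 x)
  have hdz : ∀ x, d x = 0 → w x = 0 := by
    intro x hx
    rw [← hd2 x, hx, mul_zero]
  set A : Matrix ι ι ℝ := Matrix.of fun x y => W x y / (d x * d y) with hAdef
  have hAH : A.IsHermitian := by
    ext x y
    simp only [Matrix.conjTranspose_apply, hAdef, Matrix.of_apply, star_trivial]
    rw [hs y x, mul_comm]
  obtain ⟨l, e, he, hnorm, hdec⟩ := spec_decomp A hAH
  -- quadratic form of A in terms of W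
  have hform : ∀ v : ι → ℝ, v ⬝ᵥ (A *ᵥ v) =
      ∑ x, ∑ y, W x y * ((v x / d x) * (v y / d y)) := by
    intro v
    simp only [dotProduct, Matrix.mulVec, hAdef, Matrix.of_apply, Finset.mul_sum]
    apply Finset.sum_congr rfl
    intro x _
    apply Finset.sum_congr rfl
    intro y _
    rw [div_eq_mul_inv, div_eq_mul_inv, div_eq_mul_inv, mul_inv]
    ring
  have hsq : ∀ v : ι → ℝ, (A *ᵥ v) ⬝ᵥ (A *ᵥ v) =
      ∑ z, (∑ y, W z y * (v y / d y)) ^ 2 / (∑ y, W z y) := by
    intro v
    simp only [dotProduct, Matrix.mulVec, hAdef, Matrix.of_apply]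
    apply Finset.sum_congr rfl
    intro z _
    have h1 : ∑ y, W z y / (d z * d y) * v y = (∑ y, W z y * (v y / d y)) / d z := by
      rw [Finset.sum_div]
      apply Finset.sum_congr rfl
      intro y _
      rw [div_eq_mul_inv, div_eq_mul_inv, div_eq_mul_inv, mul_inv]
      ring
    rw [h1, div_mul_div_comm, hd2, ← pow_two]
  -- eigenvalues satisfy l ≤ l^2
  have hee : ∀ i, e i ⬝ᵥ e i = 1 := by
    intro i
    rw [← hnorm i]
    simp [dotProduct, pow_two]
  have hl1 : ∀ i, l i ≤ l i ^ 2 := by
    intro i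
    have h1 := hT (fun x => e i x / d x)
    rw [← hform, ← hsq, he i] at h1
    simp only [dotProduct_smul, smul_dotProduct, smul_eq_mul, hee] at h1
    nlinarith
  -- Rayleigh bound
  have hray : ∀ v : ι → ℝ, v ⬝ᵥ (A *ᵥ v) = ∑ x, w x * (v x / d x) ^ 2 -
      (∑ x, ∑ y, W x y * (v x / d x - v y / d y) ^ 2) / 2 := by
    intro v
    rw [hform]
    have h1 : ∑ x, ∑ y, W x y * (v x / d x - v y / d y) ^ 2 =
        ∑ x, ∑ y, W x y * (v x / d x) ^ 2 + ∑ x, ∑ y, W x y * (v y / d y) ^ 2 -
        2 * ∑ x, ∑ y, W x y * ((v x / d x) * (v y / d y)) := by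
      simp only [Finset.mul_sum, ← Finset.sum_add_distrib, ← Finset.sum_sub_distrib]
      apply Finset.sum_congr rfl
      intro x _
      apply Finset.sum_congr rfl
      intro y _
      ring
    have h2 : ∑ x, ∑ y, W x y * (v x / d x) ^ 2 = ∑ x, w x * (v x / d x) ^ 2 := by
      apply Finset.sum_congr rfl
      intro x _
      rw [← Finset.sum_mul]
    have h3 : ∑ x, ∑ y, W x y * (v y / d y) ^ 2 = ∑ x, w x * (v x / d x) ^ 2 := by
      rw [Finset.sum_comm]
      apply Finset.sum_congr rfl
      intro x _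
      rw [← Finset.sum_mul]
      congr 1
      exact Finset.sum_congr rfl fun y _ => hs y x
    rw [h1, h2, h3]
    ring
  have hwle : ∀ (v : ι → ℝ) (x : ι), w x * (v x / d x) ^ 2 ≤ v x ^ 2 := by
    intro v x
    rcases eq_or_ne (d x) 0 with h | h
    · rw [h, div_zero]
      have := sq_nonneg (v x)
      simpa using this
    · rw [div_pow, ← hd2 x]
      have : d x * d x * (v x ^ 2 / d x ^ 2) = v x ^ 2 := by field_simp
      rw [this]
  have key : ∀ i, 0 < l i → ∃ c : ℝ, ∀ x, e i x = c * d x := by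
    intro i hi
    have hge : 1 ≤ l i := by
      have := hl1 i
      nlinarith
    have h1 := hray (e i)
    rw [he i, dotProduct_smul, smul_eq_mul, hee, mul_one] at h1
    have hsum1 : ∑ x, w x * (e i x / d x) ^ 2 ≤ ∑ x, e i x ^ 2 :=
      Finset.sum_le_sum fun x _ => hwle (e i) x
    rw [hnorm i] at hsum1
    have hnn : 0 ≤ ∑ x, ∑ y, W x y * (e i x / d x - e i y / d y) ^ 2 :=
      Finset.sum_nonneg fun x _ => Finset.sum_nonneg fun y _ => mul_nonneg (hW x y) (sq_nonneg _)
    have hzero : ∑ x, ∑ y, W x y * (e i x / d x - e i y / d y) ^ 2 = 0 := by linarith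
    have heq : ∑ x, w x * (e i x / d x) ^ 2 = ∑ x, e i x ^ 2 := by
      rw [hnorm i]
      linarith
    have hW0 : ∀ x y, W x y * (e i x / d x - e i y / d y) ^ 2 = 0 := by
      intro x y
      have h2 := (Finset.sum_eq_zero_iff_of_nonneg (fun x _ =>
        Finset.sum_nonneg fun y _ => mul_nonneg (hW x y) (sq_nonneg _))).mp hzero x
        (Finset.mem_univ x)
      exact (Finset.sum_eq_zero_iff_of_nonneg (fun y _ =>
        mul_nonneg (hW x y) (sq_nonneg _))).mp h2 y (Finset.mem_univ y)
    have hterm : ∀ x, w x * (e i x / d x) ^ 2 = e i x ^ 2 := by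
      have h3 : ∑ x, (e i x ^ 2 - w x * (e i x / d x) ^ 2) = 0 := by
        rw [Finset.sum_sub_distrib, heq, sub_self]
      intro x
      have h4 := (Finset.sum_eq_zero_iff_of_nonneg (fun x _ =>
        sub_nonneg.mpr (hwle (e i) x))).mp h3 x (Finset.mem_univ x)
      linarith
    have hrel : ∀ a b, 0 < W a b → e i a / d a = e i b / d b := by
      intro a b hab
      rcases mul_eq_zero.mp (hW0 a b) with h10 | h10
      · exact absurd h10 hab.ne'
      · have := pow_eq_zero_iff (two_ne_zero) |>.mp h10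
        linarith
    by_cases hz : ∃ x0, 0 < w x0
    · obtain ⟨x0, hx0⟩ := hz
      refine ⟨e i x0 / d x0, ?_⟩
      intro x
      rcases eq_or_ne (d x) 0 with h | h
      · have h5 := hterm x
        rw [h, div_zero] at h5
        have h6 : e i x ^ 2 = 0 := by
          rw [← h5]; ring
        rw [h, mul_zero, pow_eq_zero_iff (two_ne_zero) |>.mp h6]
      · have hwx : 0 < w x := by
          rcases (hw0 x).eq_or_lt with h6 | h6
          · exfalso
            apply h
            have h7 : d x * d x = 0 := by rw [hd2 x, ← h6]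
            exact mul_self_eq_zero.mp h7
          · exact h6
        have h11 : e i x0 / d x0 = e i x / d x := by
          rcases hconn x0 x hx0 hwx with h1 | h1 | ⟨z, h1, h2⟩
          · exact hrel _ _ h1
          · rw [h1]
          · exact (hrel _ _ h1).trans (hrel _ _ h2)
        rw [h11]
        field_simp
    · push Not at hz
      refine ⟨0, fun x => ?_⟩
      have hwx : w x = 0 := le_antisymm (hz x) (hw0 x)
      have h5 := hterm x
      rw [hwx, zero_mul] at h5
      rw [zero_mul, pow_eq_zero_iff (two_ne_zero) |>.mp h5.symm]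
  -- orthogonal vectors
  have horth : ∀ v : ι → ℝ, ∑ x, d x * v x = 0 → v ⬝ᵥ (A *ᵥ v) ≤ 0 := by
    intro v hv
    rw [hdec]
    apply Finset.sum_nonpos
    intro i _
    rcases le_or_gt (l i) 0 with h | h
    · exact mul_nonpos_of_nonpos_of_nonneg h (sq_nonneg _)
    · obtain ⟨c, hc⟩ := key i h
      have : e i ⬝ᵥ v = 0 := by
        simp only [dotProduct, hc]
        have : ∑ x, c * d x * v x = c * ∑ x, d x * v x := by
          rw [Finset.mul_sum]
          exact Finset.sum_congr rfl fun x _ => by ring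
        rw [this, hv, mul_zero]
      rw [this]
      simp
  -- conclusion
  set T := ∑ x, w x with hTdef
  have hT0 : 0 ≤ T := Finset.sum_nonneg fun x _ => hw0 x
  rcases hT0.eq_or_lt with h | hTpos
  · rw [← h, zero_mul]
    positivity
  · set α := (∑ x, w x * u x) / T with hα
    have hv : ∑ x, d x * (d x * (u x - α)) = 0 := by
      have h1 : ∑ x, d x * (d x * (u x - α)) = ∑ x, w x * u x - (∑ x, w x) * α := by
        rw [Finset.sum_mul, ← Finset.sum_sub_distrib]
        apply Finset.sum_congr rfl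
        intro x _
        rw [← mul_assoc, hd2]
        ring
      rw [h1, hα, ← hTdef]
      field_simp
      ring
    have h2 := horth (fun x => d x * (u x - α)) hv
    rw [hform] at h2
    have h3 : ∑ x, ∑ y, W x y * (d x * (u x - α) / d x * (d y * (u y - α) / d y)) =
        ∑ x, ∑ y, W x y * ((u x - α) * (u y - α)) := by
      apply Finset.sum_congr rfl
      intro x _
      apply Finset.sum_congr rfl
      intro y _
      rcases eq_or_ne (d x) 0 with h4 | h4
      · rw [hWz x (hdz x h4) y]; ring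
      rcases eq_or_ne (d y) 0 with h5 | h5
      · rw [hs x y, hWz y (hdz y h5) x]; ring
      · field_simp
    rw [h3] at h2
    have h6 : ∑ x, ∑ y, W x y * ((u x - α) * (u y - α)) =
        ∑ x, ∑ y, W x y * (u x * u y) - α * ∑ x, ∑ y, W x y * u x - α * ∑ x, ∑ y, W x y * u y +
        α ^ 2 * ∑ x, ∑ y, W x y := by
      simp only [Finset.mul_sum, ← Finset.sum_add_distrib, ← Finset.sum_sub_distrib]
      apply Finset.sum_congr rfl
      intro x _
      apply Finset.sum_congr rfl
      intro y _
      ring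
    have h7 : ∑ x, ∑ y, W x y * u x = α * T := by
      have : ∑ x, ∑ y, W x y * u x = ∑ x, w x * u x := by
        apply Finset.sum_congr rfl
        intro x _
        rw [← Finset.sum_mul]
      rw [this, hα]
      field_simp
    have h8 : ∑ x, ∑ y, W x y * u y = α * T := by
      have : ∑ x, ∑ y, W x y * u y = ∑ x, w x * u x := by
        rw [Finset.sum_comm]
        apply Finset.sum_congr rfl
        intro x _
        rw [← Finset.sum_mul]
        congr 1
        exact Finset.sum_congr rfl fun y _ => hs y x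
      rw [this, hα]
      field_simp
    have h9 : ∑ x, ∑ y, W x y = T := by rw [hTdef]
    have h10 : ∑ x, w x * u x = α * T := by
      rw [hα]; field_simp
    rw [h6, h7, h8, h9] at h2
    show T * ∑ x, ∑ y, W x y * (u x * u y) ≤ (∑ x, w x * u x) ^ 2
    rw [h10]
    nlinarith


theorem QQ_step_conn (F : Finset (Finset ℕ)) (V : Finset ℕ) (l r : ℕ)
    (hF : ∀ A ∈ F, A ⊆ V ∧ A.card = l) (S : Finset ℕ) (hS : S.card + (r + 3) = l)
    (hconn : ∀ x ∈ V \ S, ∀ y ∈ V \ S, x ≠ y → (upS F (insert x S)).Nonempty →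
      (upS F (insert y S)).Nonempty → (upS F (insert x (insert y S))).Nonempty ∨
      ∃ z ∈ V \ S, z ≠ x ∧ z ≠ y ∧ (upS F (insert x (insert z S))).Nonempty ∧
        (upS F (insert z (insert y S))).Nonempty)
    (ih : ∀ z ∈ V \ S, QQ F V (insert z S)) : QQ F V S := by
  classical
  intro u
  -- pass to the subtype
  have e : ∀ k : ℕ → ℝ, ∑ x : {x // x ∈ V \ S}, k x = ∑ x ∈ V \ S, k x :=
    fun k => Finset.sum_coe_sort (V \ S) k
  have e2 : ∀ k : ℕ → ℕ → ℝ, ∑ x : {x // x ∈ V \ S}, ∑ y : {x // x ∈ V \ S}, k x y =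
      ∑ x ∈ V \ S, ∑ y ∈ V \ S, k x y := by
    intro k
    rw [← e]
    exact Finset.sum_congr rfl fun x _ => e (k x)
  have key : (∑ x : {x // x ∈ V \ S}, ∑ y : {x // x ∈ V \ S}, Wt F S x y) *
      (∑ x : {x // x ∈ V \ S}, ∑ y : {x // x ∈ V \ S}, Wt F S x y * (u x * u y)) ≤
      (∑ x : {x // x ∈ V \ S}, (∑ y : {x // x ∈ V \ S}, Wt F S x y) * u x) ^ 2 := by
    refine trickle_conn (ι := {x // x ∈ V \ S}) (fun x y => Wt F S x y)
      (fun x y => Wt_nonneg _ _ _ _) (fun x y => Wt_symm _ _ _ _) ?_ ?_ (fun x => u x)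
    · -- connectivity
      have hne : ∀ x ∈ V \ S, 0 < ∑ y : {x // x ∈ V \ S}, Wt F S x y →
          (upS F (insert x S)).Nonempty := by
        intro x hx hpos
        rw [e (fun y => Wt F S x y), Wt_sum F V l (r + 2) hF S (by omega) x hx] at hpos
        rw [Finset.nonempty_iff_ne_empty]
        intro h0
        rw [h0] at hpos
        simp at hpos
      rintro ⟨x, hx⟩ ⟨y, hy⟩ hpx hpy
      have h1 := hne x hx hpx
      have h2 := hne y hy hpy
      rcases eq_or_ne x y with hxy | hxy
      · right; left; exact Subtype.ext hxy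
      · rcases hconn x hx y hy hxy h1 h2 with h3 | ⟨z, hz, hzx, hzy, h3, h4⟩
        · left
          change 0 < Wt F S x y
          unfold Wt
          rw [if_neg hxy]
          exact_mod_cast h3.card_pos
        · right; right
          refine ⟨⟨z, hz⟩, ?_, ?_⟩
          · change 0 < Wt F S x z
            unfold Wt
            rw [if_neg (Ne.symm hzx)]
            exact_mod_cast h3.card_pos
          · change 0 < Wt F S z y
            unfold Wt
            rw [if_neg hzy]
            exact_mod_cast h4.card_pos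
    · -- the quadratic inequality
      intro v
      set w : ℕ → ℝ := fun x => if h : x ∈ V \ S then v ⟨x, h⟩ else 0 with hw
      have hwv : ∀ x : {x // x ∈ V \ S}, v x = w x := by
        rintro ⟨x, hx⟩
        rw [hw]
        simp only [hx, dif_pos]
      simp only [hwv]
      rw [e2 (fun x y => Wt F S x y * (w x * w y))]
      have e4 : ∑ z : {x // x ∈ V \ S}, (∑ y : {x // x ∈ V \ S}, Wt F S z y * w y) ^ 2 /
          (∑ y : {x // x ∈ V \ S}, Wt F S z y) =
          ∑ z ∈ V \ S, (∑ y ∈ V \ S, Wt F S z y * w y) ^ 2 / ∑ y ∈ V \ S, Wt F S z y := by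
        rw [← e]
        apply Finset.sum_congr rfl
        intro z _
        rw [e (fun y => Wt F S z y * w y), e (fun y => Wt F S z y)]
      rw [e4]
      -- inequality at each z
      have hz : ∀ z ∈ V \ S, ∑ x ∈ V \ insert z S, ∑ y ∈ V \ insert z S,
          Wt F (insert z S) x y * (w x * w y) ≤
          ((r : ℝ) + 1) * ((∑ y ∈ V \ S, Wt F S z y * w y) ^ 2 / ∑ y ∈ V \ S, Wt F S z y) := by
        intro z hz
        have hzS := (Finset.mem_sdiff.mp hz).2
        have hq := ih z hz w
        have hScard : (insert z S).card + (r + 2) = l := by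
          rw [Finset.card_insert_of_notMem hzS]; omega
        have hrow : ∀ x ∈ V \ insert z S, ∑ y ∈ V \ insert z S, Wt F (insert z S) x y =
            ((r + 1 : ℕ) : ℝ) * ((upS F (insert x (insert z S))).card : ℝ) := fun x hx =>
          Wt_sum F V l (r + 1) hF (insert z S) (by omega) x hx
        have htot : ∑ x ∈ V \ insert z S, ∑ y ∈ V \ insert z S, Wt F (insert z S) x y =
            ((r + 1 : ℕ) : ℝ) * (((r + 2 : ℕ) : ℝ) * ((upS F (insert z S)).card : ℝ)) := by
          rw [Finset.sum_congr rfl hrow, ← Finset.mul_sum]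
          have := double_count F V l (r + 2) hF (insert z S) (by omega) (fun _ => 1)
          simp only [Finset.sum_const, nsmul_eq_mul, mul_one] at this
          rw [this]
        have hlin : ∑ x ∈ V \ insert z S, (∑ y ∈ V \ insert z S, Wt F (insert z S) x y) * w x =
            ((r + 1 : ℕ) : ℝ) * ∑ y ∈ V \ S, Wt F S z y * w y := by
          have h1 : ∑ y ∈ V \ S, Wt F S z y * w y =
              ∑ y ∈ V \ insert z S, ((upS F (insert z (insert y S))).card : ℝ) * w y := by
            rw [← sum_offdiag V S z hz]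
            apply Finset.sum_congr rfl
            intro y _
            unfold Wt
            split_ifs <;> simp
          rw [h1, Finset.mul_sum]
          apply Finset.sum_congr rfl
          intro x hx
          rw [hrow x hx, Finset.insert_comm]
          ring
        rw [htot, hlin] at hq
        have hden : ∑ y ∈ V \ S, Wt F S z y =
            ((r + 2 : ℕ) : ℝ) * ((upS F (insert z S)).card : ℝ) :=
          Wt_sum F V l (r + 2) hF S (by omega) z hz
        rw [hden]
        rcases Nat.eq_zero_or_pos (upS F (insert z S)).card with h0 | hpos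
        · -- no facets above
          have hempty : upS F (insert z S) = ∅ := Finset.card_eq_zero.mp h0
          have hzero : ∀ x y, Wt F (insert z S) x y = 0 := by
            intro x y
            unfold Wt
            split_ifs
            · rfl
            · have : upS F (insert x (insert y (insert z S))) = ∅ := by
                rw [Finset.eq_empty_iff_forall_notMem]
                intro A hA
                rw [mem_upS] at hA
                have : A ∈ upS F (insert z S) := mem_upS.mpr ⟨hA.1,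
                  (Finset.subset_insert _ _).trans ((Finset.subset_insert _ _).trans hA.2)⟩
                rw [hempty] at this
                simp at this
              rw [this]; simp
          have hz0 : ∑ x ∈ V \ insert z S, ∑ y ∈ V \ insert z S,
              Wt F (insert z S) x y * (w x * w y) = 0 :=
            Finset.sum_eq_zero fun x _ => Finset.sum_eq_zero fun y _ => by
              rw [hzero, zero_mul]
          rw [hz0, h0, Nat.cast_zero, mul_zero, div_zero, mul_zero]
        · have hc : (0:ℝ) < ((upS F (insert z S)).card : ℝ) := Nat.cast_pos.mpr hpos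
          rw [← mul_div_assoc, le_div_iff₀ (mul_pos (Nat.cast_pos.mpr (by omega)) hc)]
          set Qz := ∑ x ∈ V \ insert z S, ∑ y ∈ V \ insert z S,
            Wt F (insert z S) x y * (w x * w y)
          set Lz := ∑ y ∈ V \ S, Wt F S z y * w y
          have hr1 : (0:ℝ) < ((r + 1 : ℕ) : ℝ) := by positivity
          have h2 : ((r + 1 : ℕ) : ℝ) * (Qz * (((r + 2 : ℕ) : ℝ) *
              ((upS F (insert z S)).card : ℝ))) ≤
              ((r + 1 : ℕ) : ℝ) * (((r : ℝ) + 1) * Lz ^ 2) := by
            calc _ = ((r + 1 : ℕ) : ℝ) * (((r + 2 : ℕ) : ℝ) * ((upS F (insert z S)).card : ℝ)) * Qz :=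
                  by ring
              _ ≤ (((r + 1 : ℕ) : ℝ) * Lz) ^ 2 := hq
              _ = _ := by push_cast; ring
          exact le_of_mul_le_mul_left h2 hr1
      have hsum := Finset.sum_le_sum hz
      rw [← Finset.mul_sum] at hsum
      -- left side
      have hleft : ∑ z ∈ V \ S, ∑ x ∈ V \ insert z S, ∑ y ∈ V \ insert z S,
          Wt F (insert z S) x y * (w x * w y) =
          ((r : ℝ) + 1) * ∑ x ∈ V \ S, ∑ y ∈ V \ S, Wt F S x y * (w x * w y) := by
        have h1 : ∀ z ∈ V \ S, ∑ x ∈ V \ insert z S, ∑ y ∈ V \ insert z S,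
            Wt F (insert z S) x y * (w x * w y) =
            ∑ x ∈ V \ S, ∑ y ∈ V \ S, (if z = x then 0 else if z = y then 0 else
              Wt F (insert z S) x y * (w x * w y)) := by
          intro z hz
          rw [← sum_offdiag V S z hz]
          apply Finset.sum_congr rfl
          intro x _
          by_cases h : z = x
          · simp [h]
          · simp only [h, if_false]
            rw [← sum_offdiag V S z hz]
        rw [Finset.sum_congr rfl h1, Finset.sum_comm, Finset.mul_sum]
        apply Finset.sum_congr rfl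
        intro x hx
        rw [Finset.sum_comm, Finset.mul_sum]
        apply Finset.sum_congr rfl
        intro y hy
        by_cases hxy : x = y
        · subst hxy
          have : ∀ z ∈ V \ S, (if z = x then 0 else if z = x then 0 else
              Wt F (insert z S) x x * (w x * w x)) = (0:ℝ) := by
            intro z _
            unfold Wt
            simp
          rw [Finset.sum_congr rfl this]
          unfold Wt
          simp
        · have hxS := (Finset.mem_sdiff.mp hx)
          have hyS := (Finset.mem_sdiff.mp hy)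
          have hx' : x ∉ insert y S := by simp [hxy, hxS.2]
          have h2 : ∑ z ∈ V \ S, (if z = x then 0 else if z = y then 0 else
              Wt F (insert z S) x y * (w x * w y)) =
              (∑ z ∈ V \ insert x (insert y S),
                ((upS F (insert z (insert x (insert y S)))).card : ℝ)) * (w x * w y) := by
            have hset : V \ insert x (insert y S) =
                (V \ S).filter (fun z => ¬ z = x ∧ ¬ z = y) := by
              ext z
              simp only [Finset.mem_sdiff, Finset.mem_insert, Finset.mem_filter, not_or]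
              tauto
            rw [hset, Finset.sum_filter, Finset.sum_mul]
            apply Finset.sum_congr rfl
            intro z _
            by_cases h3 : z = x
            · simp [h3]
            · by_cases h4 : z = y
              · simp [h4]
              · rw [if_neg h3, if_neg h4, if_pos ⟨h3, h4⟩]
                have hset2 : insert x (insert y (insert z S)) =
                    insert z (insert x (insert y S)) := by
                  ext t
                  simp only [Finset.mem_insert]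
                  tauto
                unfold Wt
                rw [if_neg hxy, hset2]
          rw [h2]
          have h5 := double_count F V l (r + 1) hF (insert x (insert y S))
            (by rw [Finset.card_insert_of_notMem hx', Finset.card_insert_of_notMem hyS.2]; omega)
            (fun _ => 1)
          simp only [Finset.sum_const, nsmul_eq_mul, mul_one] at h5
          rw [h5]
          unfold Wt
          rw [if_neg hxy]
          push_cast
          ring
      rw [hleft] at hsum
      exact le_of_mul_le_mul_left hsum (by positivity)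
  have hC : ∑ x : {x // x ∈ V \ S}, (∑ y : {x // x ∈ V \ S}, Wt F S x y) * u x =
      ∑ x ∈ V \ S, (∑ y ∈ V \ S, Wt F S x y) * u x := by
    rw [← e]
    apply Finset.sum_congr rfl
    intro x _
    rw [e (fun y => Wt F S x y)]
  rw [e2 (fun x y => Wt F S x y), e2 (fun x y => Wt F S x y * (u x * u y)), hC] at key
  exact key


/-! ### matroid facts -/

theorem extendI {Ind : Finset ℕ → Prop} (h : IndSys Ind) {N l : ℕ} {A : Finset ℕ}
    (hA : A ∈ Fm Ind N l) :
    ∀ (k : ℕ) (I : Finset ℕ), I ⊆ range N → Ind I → I.card + k = l →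
      ∃ A' ∈ Fm Ind N l, I ⊆ A' := by
  intro k
  induction k with
  | zero =>
    intro I h1 h2 h3
    exact ⟨I, mem_Fm.mpr ⟨h1, h2, by omega⟩, Finset.Subset.refl _⟩
  | succ k ih =>
    intro I h1 h2 h3
    have hA' := mem_Fm.mp hA
    obtain ⟨e, he, he', hg⟩ := h.aug h2 hA'.2.1 (by omega)
    obtain ⟨A', hA', hs⟩ := ih (insert e I)
      (Finset.insert_subset (hA'.1 he) h1) hg
      (by rw [Finset.card_insert_of_notMem he']; omega)
    exact ⟨A', hA', (Finset.subset_insert _ _).trans hs⟩

theorem Fm_spec {Ind : Finset ℕ → Prop} (N l : ℕ) :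
    ∀ A ∈ Fm Ind N l, A ⊆ range N ∧ A.card = l := fun A hA =>
  ⟨(mem_Fm.mp hA).1, (mem_Fm.mp hA).2.2⟩

/-- parallelism in the contraction by `S` -/
def par (Ind : Finset ℕ → Prop) (S : Finset ℕ) (x y : ℕ) : Prop :=
  x = y ∨ ¬ Ind (insert x (insert y S))

theorem par_symm {Ind : Finset ℕ → Prop} {S : Finset ℕ} {x y : ℕ} (h : par Ind S x y) :
    par Ind S y x := by
  rcases h with h | h
  · exact Or.inl h.symm
  · right
    rw [Finset.insert_comm]
    exact h

theorem par_trans {Ind : Finset ℕ → Prop} (h : IndSys Ind) {S : Finset ℕ} {x y z : ℕ}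
    (hx : x ∉ S) (hy : y ∉ S) (hz : z ∉ S) (iy : Ind (insert y S))
    (hxy : par Ind S x y) (hyz : par Ind S y z) : par Ind S x z := by
  rcases eq_or_ne x z with hxz | hxz
  · exact Or.inl hxz
  rcases hxy with hxy | hxy
  · subst hxy; exact hyz
  rcases hyz with hyz | hyz
  · subst hyz; exact Or.inr hxy
  right
  intro hI
  have hx' : x ∉ insert z S := by simp [hxz, hx]
  obtain ⟨e, he, he', hg⟩ := h.aug iy hI (by
    rw [Finset.card_insert_of_notMem hy, Finset.card_insert_of_notMem hx',
      Finset.card_insert_of_notMem hz]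
    omega)
  rw [Finset.mem_insert, Finset.mem_insert] at he
  rcases he with rfl | rfl | he
  · exact hxy hg
  · rw [Finset.insert_comm] at hg
    exact hyz hg
  · exact he' (Finset.mem_insert_of_mem he)

theorem quad_nonneg (U : Finset ℕ) (k : ℕ → Finset ℕ) (u : ℕ → ℝ) :
    0 ≤ ∑ x ∈ U, ∑ y ∈ U, if k x = k y then u x * u y else 0 := by
  have h : ∑ x ∈ U, ∑ y ∈ U, (if k x = k y then u x * u y else 0) =
      ∑ c ∈ U.image k, (∑ x ∈ U, if k x = c then u x else 0) ^ 2 := by
    have h1 : ∀ c ∈ U.image k, (∑ x ∈ U, if k x = c then u x else 0) ^ 2 =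
        ∑ x ∈ U, ∑ y ∈ U, if k x = c then (if k y = c then u x * u y else 0) else 0 := by
      intro c _
      rw [pow_two, Finset.sum_mul_sum]
      apply Finset.sum_congr rfl
      intro x _
      apply Finset.sum_congr rfl
      intro y _
      by_cases h1 : k x = c <;> by_cases h2 : k y = c <;> simp [h1, h2]
    rw [Finset.sum_congr rfl h1]
    symm
    rw [Finset.sum_comm]
    apply Finset.sum_congr rfl
    intro x hx
    rw [Finset.sum_comm]
    apply Finset.sum_congr rfl
    intro y hy
    rw [Finset.sum_ite_eq, if_pos (Finset.mem_image_of_mem k hx)]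
    by_cases h2 : k x = k y
    · rw [if_pos h2, if_pos h2.symm]
    · rw [if_neg h2, if_neg (Ne.symm h2)]
  rw [h]
  exact Finset.sum_nonneg fun c _ => sq_nonneg _

theorem QQ_baseI {Ind : Finset ℕ → Prop} (h : IndSys Ind) (N l : ℕ) (S : Finset ℕ)
    (hS : S.card + 2 = l) : QQ (Fm Ind N l) (range N) S := by
  classical
  set a : ℕ → ℝ := fun x => if Ind (insert x S) ∧ x ∉ S ∧ x < N then 1 else 0 with ha
  set k : ℕ → Finset ℕ := fun x => (range N \ S).filter
    (fun y => Ind (insert y S) ∧ par Ind S x y) with hk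
  by_cases hSN : S ⊆ range N
  swap
  · apply QQ_of_empty
    rw [Finset.eq_empty_iff_forall_notMem]
    intro A hA
    rw [mem_upS, mem_Fm] at hA
    exact hSN (hA.2.trans hA.1.1)
  have hkk : ∀ x y, x ∈ range N \ S → y ∈ range N \ S → Ind (insert x S) → Ind (insert y S) →
      (k x = k y ↔ par Ind S x y) := by
    intro x y hx hy ix iy
    have hx' := (Finset.mem_sdiff.mp hx).2
    have hy' := (Finset.mem_sdiff.mp hy).2
    constructor
    · intro he
      have h1 : y ∈ k y := by
        rw [hk, Finset.mem_filter]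
        exact ⟨hy, iy, Or.inl rfl⟩
      rw [← he, hk, Finset.mem_filter] at h1
      exact h1.2.2
    · intro hp
      rw [hk]
      ext t
      simp only [Finset.mem_filter]
      constructor
      · rintro ⟨h1, h2, h3⟩
        exact ⟨h1, h2, par_trans h hy' hx' (Finset.mem_sdiff.mp h1).2 ix (par_symm hp) h3⟩
      · rintro ⟨h1, h2, h3⟩
        exact ⟨h1, h2, par_trans h hx' hy' (Finset.mem_sdiff.mp h1).2 iy hp h3⟩
  have hWt : ∀ x ∈ range N \ S, ∀ y ∈ range N \ S, Wt (Fm Ind N l) S x y =
      a x * a y - (if k x = k y then a x * a y else 0) := by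
    intro x hx y hy
    have hxs := hx
    have hys := hy
    rw [Finset.mem_sdiff, Finset.mem_range] at hx hy
    unfold Wt
    by_cases hxy : x = y
    · subst hxy
      simp
    · rw [if_neg hxy]
      have hx' : x ∉ insert y S := by simp [hxy, hx.2]
      have hcard : (insert x (insert y S)).card = l := by
        rw [Finset.card_insert_of_notMem hx', Finset.card_insert_of_notMem hy.2]; omega
      have hup : upS (Fm Ind N l) (insert x (insert y S)) =
          if Ind (insert x (insert y S)) then {insert x (insert y S)} else ∅ := by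
        split_ifs with hg
        · ext A
          rw [mem_upS, mem_Fm, Finset.mem_singleton]
          constructor
          · rintro ⟨⟨_, _, h3⟩, h4⟩
            exact (Finset.eq_of_subset_of_card_le h4 (by omega)).symm
          · rintro rfl
            refine ⟨⟨?_, hg, hcard⟩, Finset.Subset.refl _⟩
            apply Finset.insert_subset (Finset.mem_range.mpr hx.1)
            exact Finset.insert_subset (Finset.mem_range.mpr hy.1) hSN
        · rw [Finset.eq_empty_iff_forall_notMem]
          intro A hA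
          rw [mem_upS, mem_Fm] at hA
          exact hg (h.mono hA.2 hA.1.2.1)
      rw [hup]
      by_cases gx : Ind (insert x S)
      · by_cases gy : Ind (insert y S)
        · have hiff := hkk x y hxs hys gx gy
          have ax : a x = 1 := by simp [ha, gx, hx.1, hx.2]
          have ay : a y = 1 := by simp [ha, gy, hy.1, hy.2]
          rw [ax, ay]
          by_cases hI : Ind (insert x (insert y S))
          · have : ¬ k x = k y := by
              rw [hiff]
              rintro (h1 | h1)
              · exact hxy h1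
              · exact h1 hI
            rw [if_pos hI, if_neg this]
            simp
          · have : k x = k y := hiff.mpr (Or.inr hI)
            rw [if_neg hI, if_pos this]
            simp
        · have : ¬ Ind (insert x (insert y S)) := fun h' =>
            gy (h.mono (Finset.subset_insert _ _) h')
          simp [this, ha, gy]
      · have : ¬ Ind (insert x (insert y S)) := fun h' =>
          gx (h.mono (Finset.insert_subset_insert _ (Finset.subset_insert _ _)) h')
        simp [this, ha, gx]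
  intro u
  apply revCS _ _ (Wt_nonneg _ _) (Wt_symm _ _) a
  intro u
  have h1 : ∑ x ∈ range N \ S, ∑ y ∈ range N \ S, Wt (Fm Ind N l) S x y * (u x * u y) =
      (∑ x ∈ range N \ S, a x * u x) ^ 2 -
        ∑ x ∈ range N \ S, ∑ y ∈ range N \ S,
          (if k x = k y then (a x * u x) * (a y * u y) else 0) := by
    rw [pow_two, Finset.sum_mul_sum, ← Finset.sum_sub_distrib]
    apply Finset.sum_congr rfl
    intro x hx
    rw [← Finset.sum_sub_distrib]
    apply Finset.sum_congr rfl
    intro y hy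
    rw [hWt x hx y hy]
    split_ifs <;> ring
  rw [h1]
  have h2 := quad_nonneg (range N \ S) k (fun x => a x * u x)
  linarith

theorem QQ_allI {Ind : Finset ℕ → Prop} (h : IndSys Ind) (N l : ℕ) :
    ∀ (r : ℕ) (S : Finset ℕ), S.card + (r + 2) = l → QQ (Fm Ind N l) (range N) S := by
  classical
  intro r
  induction r with
  | zero => intro S hS; exact QQ_baseI h N l S hS
  | succ r ih =>
    intro S hS
    rcases (upS (Fm Ind N l) S).eq_empty_or_nonempty with h0 | ⟨A₀, hA₀⟩
    · exact QQ_of_empty _ _ _ h0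
    rw [mem_upS] at hA₀
    have hSN : S ⊆ range N := hA₀.2.trans (mem_Fm.mp hA₀.1).1
    apply QQ_step_conn (Fm Ind N l) (range N) l r (Fm_spec N l) S (by omega)
    · intro x hx y hy hxy hxne hyne
      rw [Finset.mem_sdiff] at hx hy
      have hx' : x ∉ insert y S := by simp [hxy, hx.2]
      by_cases hI : Ind (insert x (insert y S))
      · left
        obtain ⟨A', hA', hs⟩ := extendI h hA₀.1 (r + 1) (insert x (insert y S))
          (Finset.insert_subset hx.1 (Finset.insert_subset hy.1 hSN)) hI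
          (by rw [Finset.card_insert_of_notMem hx', Finset.card_insert_of_notMem hy.2]; omega)
        exact ⟨A', mem_upS.mpr ⟨hA', hs⟩⟩
      · right
        obtain ⟨A, hA⟩ := hxne
        obtain ⟨B, hB⟩ := hyne
        rw [mem_upS] at hA hB
        have hA1 := mem_Fm.mp hA.1
        have hB1 := mem_Fm.mp hB.1
        have iy : Ind (insert y S) := h.mono hB.2 hB1.2.1
        have hdc := Finset.card_sdiff_add_card_eq_card hA.2
        rw [Finset.card_insert_of_notMem hx.2] at hdc
        have hne2 : (A \ insert x S).Nonempty := by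
          rw [← Finset.card_pos]; omega
        obtain ⟨z, hz⟩ := hne2
        rw [Finset.mem_sdiff, Finset.mem_insert, not_or] at hz
        have hxA : x ∈ A := hA.2 (Finset.mem_insert_self _ _)
        have hSA : S ⊆ A := (Finset.subset_insert _ _).trans hA.2
        have hxz : Ind (insert x (insert z S)) :=
          h.mono (Finset.insert_subset hxA (Finset.insert_subset hz.1 hSA)) hA1.2.1
        have hzy : z ≠ y := by
          rintro rfl
          exact hI hxz
        have hx'' : x ∉ insert z S := by simp [Ne.symm hz.2.1, hx.2]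
        have hzy2 : Ind (insert z (insert y S)) := by
          obtain ⟨e, he, he', hg⟩ := h.aug iy hxz (by
            rw [Finset.card_insert_of_notMem hy.2, Finset.card_insert_of_notMem hx'',
              Finset.card_insert_of_notMem hz.2.2]
            omega)
          rw [Finset.mem_insert, Finset.mem_insert] at he
          rcases he with rfl | rfl | he
          · exact absurd hg hI
          · exact hg
          · exact absurd (Finset.mem_insert_of_mem he) he'
        refine ⟨z, Finset.mem_sdiff.mpr ⟨hA1.1 hz.1, hz.2.2⟩, hz.2.1, hzy, ?_, ?_⟩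
        · exact ⟨A, mem_upS.mpr ⟨hA.1,
            Finset.insert_subset hxA (Finset.insert_subset hz.1 hSA)⟩⟩
        · have hz' : z ∉ insert y S := by simp [hzy, hz.2.2]
          obtain ⟨A', hA', hs⟩ := extendI h hA₀.1 (r + 1) (insert z (insert y S))
            (Finset.insert_subset (hA1.1 hz.1) (Finset.insert_subset hy.1 hSN)) hzy2
            (by rw [Finset.card_insert_of_notMem hz', Finset.card_insert_of_notMem hy.2]; omega)
          exact ⟨A', mem_upS.mpr ⟨hA', hs⟩⟩
    · intro z hz
      rw [Finset.mem_sdiff] at hz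
      exact ih (insert z S) (by rw [Finset.card_insert_of_notMem hz.2]; omega)

/-! ### the Poincaré inequality -/

theorem H_pair {α : Type} (X : Finset α) (f : α → ℝ) :
    H phiS X f ≤ (1 / 4) * ∑ A ∈ X, ∑ B ∈ X, (f A - f B) ^ 2 := by
  rcases Nat.lt_or_ge X.card 2 with h | h
  · rcases Nat.lt_or_ge X.card 1 with h0 | h1
    · have : X = ∅ := by
        rw [← Finset.card_eq_zero]; omega
      subst this
      simp [H]
    · have h1 : X.card = 1 := by omega
      obtain ⟨a, rfl⟩ := Finset.card_eq_one.mp h1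
      simp [H]
  · have hc : (2:ℝ) ≤ X.card := by exact_mod_cast h
    have e1 : ∑ A ∈ X, ∑ B ∈ X, (f A - f B) ^ 2 =
        2 * X.card * ∑ A ∈ X, f A ^ 2 - 2 * (∑ A ∈ X, f A) ^ 2 := by
      have h1 : ∑ A ∈ X, ∑ B ∈ X, (f A - f B) ^ 2 =
          ∑ A ∈ X, ∑ B ∈ X, (f A ^ 2 + f B ^ 2 - 2 * (f A * f B)) := by
        apply Finset.sum_congr rfl
        intro x _
        apply Finset.sum_congr rfl
        intro y _
        ring
      rw [h1]
      simp only [Finset.sum_sub_distrib, Finset.sum_add_distrib, Finset.sum_const, nsmul_eq_mul,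
        ← Finset.mul_sum]
      rw [pow_two (∑ A ∈ X, f A), Finset.sum_mul_sum]
      simp only [← Finset.mul_sum]
      ring
    have e2 : H phiS X f = ∑ A ∈ X, f A ^ 2 - (∑ A ∈ X, f A) ^ 2 / X.card := by
      unfold H phiS
      field_simp
    have e3 : H phiS X f * (2 * X.card) = ∑ A ∈ X, ∑ B ∈ X, (f A - f B) ^ 2 := by
      rw [e1, e2]
      field_simp
    have h0 : 0 ≤ H phiS X f := H_nonneg_S X f
    nlinarith
  where
  H_nonneg_S (X : Finset α) (f : α → ℝ) : 0 ≤ H phiS X f := by
    rw [H_phiS]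
    exact Finset.sum_nonneg fun _ _ => sq_nonneg _

/-- adjacency in the exchange graph -/
def adj (l : ℕ) (A B : Finset ℕ) : Prop := (A ∩ B).card + 1 = l

instance (l : ℕ) (A B : Finset ℕ) : Decidable (adj l A B) := by
  unfold adj; infer_instance

theorem adj_symm {l : ℕ} {A B : Finset ℕ} : adj l A B ↔ adj l B A := by
  unfold adj
  rw [Finset.inter_comm]

theorem poincare {Ind : Finset ℕ → Prop} (h : IndSys Ind) (N l : ℕ) (f : Finset ℕ → ℝ)
    (hf : ∀ A, 0 ≤ f A) :
    H phiS (Fm Ind N l) f ≤ (1 / 4) * ∑ A ∈ Fm Ind N l, ∑ B ∈ Fm Ind N l,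
      if adj l A B then (f A - f B) ^ 2 else 0 := by
  classical
  rcases Nat.eq_zero_or_pos l with rfl | hl
  · -- `l = 0`: the family has at most one element
    have hsub : Fm Ind N 0 ⊆ {∅} := by
      intro A hA
      rw [Finset.mem_singleton]
      exact Finset.card_eq_zero.mp (mem_Fm.mp hA).2.2
    have h1 : H phiS (Fm Ind N 0) f = 0 := by
      rcases Finset.subset_singleton_iff.mp hsub with h' | h' <;> rw [h'] <;> simp [H]
    rw [h1]
    apply mul_nonneg (by norm_num)
    apply Finset.sum_nonneg; intro A _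
    apply Finset.sum_nonneg; intro B _
    split_ifs <;> positivity
  · have h1 := LI phiS_adm (Fm Ind N l) (range N) l (Fm_spec N l) (QQ_allI h N l) f hf (l - 1) ∅
      (Finset.empty_subset _) (by rw [Finset.card_empty]; omega)
    have e1 : upS (Fm Ind N l) ∅ = Fm Ind N l := by
      unfold upS
      simp
    have e2 : upS ((range N).powersetCard (l - 1)) ∅ = (range N).powersetCard (l - 1) := by
      unfold upS
      simp
    rw [e1, e2] at h1
    refine h1.trans ?_
    set F := Fm Ind N l with hF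
    have h2 : ∑ S ∈ (range N).powersetCard (l - 1), H phiS (upS F S) f ≤
        ∑ S ∈ (range N).powersetCard (l - 1), (1 / 4) * ∑ A ∈ upS F S, ∑ B ∈ upS F S,
          (f A - f B) ^ 2 := Finset.sum_le_sum fun S _ => H_pair _ _
    refine h2.trans ?_
    rw [← Finset.mul_sum]
    apply mul_le_mul_of_nonneg_left _ (by norm_num)
    have h3 : ∀ S ∈ (range N).powersetCard (l - 1), ∑ A ∈ upS F S, ∑ B ∈ upS F S,
        (f A - f B) ^ 2 = ∑ A ∈ F, ∑ B ∈ F, if S ⊆ A ∩ B then (f A - f B) ^ 2 else 0 := by
      intro S _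
      unfold upS
      rw [Finset.sum_filter]
      apply Finset.sum_congr rfl
      intro A _
      by_cases hA : S ⊆ A
      · rw [if_pos hA, Finset.sum_filter]
        apply Finset.sum_congr rfl
        intro B _
        by_cases hB : S ⊆ B
        · rw [if_pos hB, if_pos (Finset.subset_inter hA hB)]
        · rw [if_neg hB, if_neg (fun h' => hB (h'.trans Finset.inter_subset_right))]
      · rw [if_neg hA]
        symm
        apply Finset.sum_eq_zero
        intro B _
        rw [if_neg (fun h' => hA (h'.trans Finset.inter_subset_left))]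
    rw [Finset.sum_congr rfl h3, Finset.sum_comm]
    apply Finset.sum_le_sum
    intro A hA
    rw [Finset.sum_comm]
    apply Finset.sum_le_sum
    intro B hB
    have hA' := mem_Fm.mp hA
    have hB' := mem_Fm.mp hB
    rcases eq_or_ne A B with hAB | hAB
    · subst hAB
      simp only [sub_self, ne_eq, OfNat.ofNat_ne_zero, not_false_eq_true, zero_pow, ite_self,
        Finset.sum_const_zero, le_refl]
    · have hlt : (A ∩ B).card + 1 ≤ l := by
        have h5 : A ∩ B ⊂ A := by
          rw [Finset.ssubset_iff_subset_ne]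
          refine ⟨Finset.inter_subset_left, fun h' => hAB ?_⟩
          have h6 : A ⊆ B := by
            rw [← h']; exact Finset.inter_subset_right
          exact Finset.eq_of_subset_of_card_le h6 (by omega)
        have := Finset.card_lt_card h5
        omega
      by_cases hadj : adj l A B
      · rw [if_pos hadj]
        have h6 : ∑ S ∈ (range N).powersetCard (l - 1),
            (if S ⊆ A ∩ B then (f A - f B) ^ 2 else 0) ≤
            ∑ S ∈ {A ∩ B}, (f A - f B) ^ 2 := by
          rw [← Finset.sum_filter]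
          apply Finset.sum_le_sum_of_subset_of_nonneg
          · intro S hS
            rw [Finset.mem_filter, Finset.mem_powersetCard] at hS
            rw [Finset.mem_singleton]
            exact Finset.eq_of_subset_of_card_le hS.2 (by omega)
          · intro _ _ _; positivity
        simpa using h6
      · rw [if_neg hadj]
        apply le_of_eq
        apply Finset.sum_eq_zero
        intro S hS
        rw [Finset.mem_powersetCard] at hS
        rw [if_neg]
        intro h'
        have := Finset.card_le_card h'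
        apply hadj
        unfold adj
        omega

/-! ### decay of the variance in one step -/

theorem decay {Ind : Finset ℕ → Prop} (h : IndSys Ind) (N l K : ℕ) (hK0 : 1 ≤ K)
    (hdeg : ∀ A ∈ Fm Ind N l, ((Fm Ind N l).filter (fun B => adj l A B)).card ≤ K ^ 2)
    (f g : Finset ℕ → ℝ) (hf : ∀ A, 0 ≤ f A) (m : ℝ)
    (hm : ∑ A ∈ Fm Ind N l, f A = (Fm Ind N l).card * m)
    (hg : ∀ A ∈ Fm Ind N l, g A = f A + 1 / (2 * (K:ℝ) ^ 2) *
      ∑ B ∈ Fm Ind N l, if adj l A B then (f B - f A) else 0) :
    ∑ A ∈ Fm Ind N l, g A = (Fm Ind N l).card * m ∧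
    ∑ A ∈ Fm Ind N l, (g A - m) ^ 2 ≤
      (1 - 1 / (K:ℝ) ^ 2) * ∑ A ∈ Fm Ind N l, (f A - m) ^ 2 := by
  classical
  set F := Fm Ind N l with hF
  set ε : ℝ := 1 / (2 * (K:ℝ) ^ 2) with hε
  have hK : (1:ℝ) ≤ K := by exact_mod_cast hK0
  have hKp : (0:ℝ) < (K:ℝ) ^ 2 := by positivity
  have hεK : ε * (K:ℝ) ^ 2 = 1 / 2 := by rw [hε]; field_simp
  set D : Finset ℕ → ℝ := fun A => ∑ B ∈ F, if adj l A B then (f B - f A) else 0 with hD
  set E : ℝ := ∑ A ∈ F, ∑ B ∈ F, if adj l A B then (f A - f B) ^ 2 else 0 with hE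
  have hE0 : 0 ≤ E := by
    apply Finset.sum_nonneg; intro A _
    apply Finset.sum_nonneg; intro B _
    split_ifs <;> positivity
  have hDsum : ∑ A ∈ F, D A = 0 := by
    have h0 : ∑ A ∈ F, D A = ∑ A ∈ F, ∑ B ∈ F, if adj l A B then (f B - f A) else 0 := rfl
    have h1 : ∑ A ∈ F, D A = ∑ A ∈ F, ∑ B ∈ F, if adj l A B then (f A - f B) else 0 := by
      rw [h0, Finset.sum_comm]
      apply Finset.sum_congr rfl
      intro A _
      apply Finset.sum_congr rfl
      intro B _
      by_cases h1 : adj l A B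
      · rw [if_pos h1, if_pos (adj_symm.mp h1)]
      · rw [if_neg h1, if_neg (fun h' => h1 (adj_symm.mp h'))]
    have h2 : (∑ A ∈ F, ∑ B ∈ F, if adj l A B then (f B - f A) else 0) +
        (∑ A ∈ F, ∑ B ∈ F, if adj l A B then (f A - f B) else 0) = 0 := by
      rw [← Finset.sum_add_distrib]
      apply Finset.sum_eq_zero
      intro A _
      rw [← Finset.sum_add_distrib]
      apply Finset.sum_eq_zero
      intro B _
      split_ifs <;> ring
    linarith
  have hfD : ∑ A ∈ F, f A * D A = - (1 / 2) * E := by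
    have h1 : ∑ A ∈ F, f A * D A = ∑ A ∈ F, ∑ B ∈ F, if adj l A B then f A * (f B - f A) else 0 := by
      apply Finset.sum_congr rfl
      intro A _
      simp only [hD]
      rw [Finset.mul_sum]
      apply Finset.sum_congr rfl
      intro B _
      split_ifs <;> simp
    have h2 : ∑ A ∈ F, f A * D A = ∑ A ∈ F, ∑ B ∈ F, if adj l A B then f B * (f A - f B) else 0 := by
      rw [h1, Finset.sum_comm]
      apply Finset.sum_congr rfl
      intro A _
      apply Finset.sum_congr rfl
      intro B _
      by_cases h1 : adj l A B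
      · rw [if_pos h1, if_pos (adj_symm.mp h1)]
      · rw [if_neg h1, if_neg (fun h' => h1 (adj_symm.mp h'))]
    have h3 : ∑ A ∈ F, f A * D A + ∑ A ∈ F, f A * D A = - E := by
      nth_rewrite 1 [h1]
      rw [h2, ← Finset.sum_add_distrib, hE, ← Finset.sum_neg_distrib]
      apply Finset.sum_congr rfl
      intro A _
      rw [← Finset.sum_add_distrib, ← Finset.sum_neg_distrib]
      apply Finset.sum_congr rfl
      intro B _
      split_ifs <;> ring
    linarith
  have hD2 : ∑ A ∈ F, D A ^ 2 ≤ (K:ℝ) ^ 2 * E := by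
    rw [hE, Finset.mul_sum]
    apply Finset.sum_le_sum
    intro A hA
    have h1 : D A = ∑ B ∈ F.filter (fun B => adj l A B), (f B - f A) := by
      simp only [hD]
      rw [Finset.sum_filter]
    have h2 : ∑ B ∈ F, (if adj l A B then (f A - f B) ^ 2 else 0) =
        ∑ B ∈ F.filter (fun B => adj l A B), (f B - f A) ^ 2 := by
      rw [Finset.sum_filter]
      apply Finset.sum_congr rfl
      intro B _
      split_ifs
      · ring
      · rfl
    rw [h1, h2]
    have h3 := sq_sum_le_card_mul_sum_sq (s := F.filter (fun B => adj l A B))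
      (f := fun B => f B - f A)
    refine h3.trans ?_
    apply mul_le_mul_of_nonneg_right
    · exact_mod_cast hdeg A hA
    · positivity
  have hgm : ∀ A ∈ F, g A - m = (f A - m) + ε * D A := by
    intro A hA
    rw [hg A hA]
    ring
  constructor
  · rw [Finset.sum_congr rfl hg, Finset.sum_add_distrib, hm]
    have : ∑ A ∈ F, 1 / (2 * (K:ℝ) ^ 2) * ∑ B ∈ F, (if adj l A B then (f B - f A) else 0) =
        ε * ∑ A ∈ F, D A := by
      rw [Finset.mul_sum]
    rw [this, hDsum]
    ring
  · have h1 : ∑ A ∈ F, (g A - m) ^ 2 = ∑ A ∈ F, (f A - m) ^ 2 + 2 * ε * (∑ A ∈ F, f A * D A) -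
        2 * ε * m * (∑ A ∈ F, D A) + ε ^ 2 * ∑ A ∈ F, D A ^ 2 := by
      rw [Finset.mul_sum, Finset.mul_sum, Finset.mul_sum, ← Finset.sum_add_distrib,
        ← Finset.sum_sub_distrib, ← Finset.sum_add_distrib]
      apply Finset.sum_congr rfl
      intro A hA
      rw [hgm A hA]
      ring
    rw [h1, hDsum, hfD]
    have hP : ∑ A ∈ F, (f A - m) ^ 2 ≤ (1 / 4) * E := by
      have hp := poincare h N l f hf
      rw [← hF, H_phiS] at hp
      rcases Finset.eq_empty_or_nonempty F with h0 | h0
      · rw [h0]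
        simp only [Finset.sum_empty]
        positivity
      have hc : (0:ℝ) < F.card := by exact_mod_cast h0.card_pos
      have : (∑ x ∈ F, f x) / F.card = m := by
        rw [hm]; field_simp
      rw [this] at hp
      exact hp
    have hε0 : 0 < ε := by rw [hε]; positivity
    have h2 : ε ^ 2 * ∑ A ∈ F, D A ^ 2 ≤ ε ^ 2 * ((K:ℝ) ^ 2 * E) :=
      mul_le_mul_of_nonneg_left hD2 (by positivity)
    have h3 : ε ^ 2 * ((K:ℝ) ^ 2 * E) = ε * (1 / 2) * E := by
      rw [← hεK]; ring
    have h4 : (1:ℝ) / (K:ℝ) ^ 2 = 2 * ε := by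
      rw [hε]; field_simp
    rw [h4]
    have h5 : ε * (∑ A ∈ F, (f A - m) ^ 2) ≤ ε * ((1 / 4) * E) :=
      mul_le_mul_of_nonneg_left hP hε0.le
    nlinarith

/-! ### the moves -/

theorem mvF_mem {F : Finset (Finset ℕ)} {A : Finset ℕ} (hA : A ∈ F) (b : Bool) (i j : ℕ) :
    mvF F b i j A ∈ F := by
  unfold mvF
  split_ifs with h
  · exact h.2.2.2
  · exact hA

theorem mv_inj {A : Finset ℕ} {i j i' j' : ℕ} (hi : i ∈ A) (hj : j ∉ A) (_hi' : i' ∈ A)
    (hj' : j' ∉ A) (h : insert j (A.erase i) = insert j' (A.erase i')) : i = i' ∧ j = j' := by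
  have hjj : j = j' := by
    have h1 : j ∈ insert j' (A.erase i') := h ▸ Finset.mem_insert_self _ _
    rw [Finset.mem_insert] at h1
    rcases h1 with h1 | h1
    · exact h1
    · exact absurd (Finset.mem_of_mem_erase h1) hj
  subst hjj
  refine ⟨?_, rfl⟩
  by_contra hne
  have h1 : i ∈ insert j (A.erase i') := Finset.mem_insert_of_mem (Finset.mem_erase.mpr ⟨hne, hi⟩)
  rw [← h, Finset.mem_insert] at h1
  rcases h1 with h1 | h1
  · exact hj (h1 ▸ hi)
  · exact (Finset.mem_erase.mp h1).1 rfl

theorem mv_adj {A : Finset ℕ} {i j l : ℕ} (hA : A.card = l) (hi : i ∈ A) (hj : j ∉ A) :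
    adj l A (insert j (A.erase i)) := by
  unfold adj
  have : A ∩ insert j (A.erase i) = A.erase i := by
    ext t
    simp only [Finset.mem_inter, Finset.mem_insert, Finset.mem_erase]
    constructor
    · rintro ⟨h1, h2 | h2⟩
      · exact absurd (h2 ▸ h1) hj
      · exact h2
    · rintro h1
      exact ⟨h1.2, Or.inr h1⟩
  rw [this, Finset.card_erase_of_mem hi]
  have := Finset.card_pos.mpr ⟨i, hi⟩
  omega

theorem adj_mv {A B : Finset ℕ} {l : ℕ} (hA : A.card = l) (hB : B.card = l) (h : adj l A B) :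
    ∃ i ∈ A, ∃ j ∈ B, j ∉ A ∧ B = insert j (A.erase i) := by
  unfold adj at h
  have h1 : (A \ B).card = 1 := by
    have := Finset.card_sdiff_add_card_inter A B
    omega
  have h2 : (B \ A).card = 1 := by
    have := Finset.card_sdiff_add_card_inter B A
    rw [Finset.inter_comm] at this
    omega
  obtain ⟨i, hi⟩ := Finset.card_eq_one.mp h1
  obtain ⟨j, hj⟩ := Finset.card_eq_one.mp h2
  have hi' : i ∈ A \ B := hi ▸ Finset.mem_singleton_self i
  have hj' : j ∈ B \ A := hj ▸ Finset.mem_singleton_self j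
  rw [Finset.mem_sdiff] at hi' hj'
  refine ⟨i, hi'.1, j, hj'.1, hj'.2, ?_⟩
  ext t
  simp only [Finset.mem_insert, Finset.mem_erase]
  constructor
  · intro ht
    by_cases htA : t ∈ A
    · right
      refine ⟨?_, htA⟩
      rintro rfl
      exact hi'.2 ht
    · left
      have : t ∈ B \ A := Finset.mem_sdiff.mpr ⟨ht, htA⟩
      rw [hj, Finset.mem_singleton] at this
      exact this
  · rintro (rfl | ⟨h3, h4⟩)
    · exact hj'.1
    · by_contra htB
      have : t ∈ A \ B := Finset.mem_sdiff.mpr ⟨h4, htB⟩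
      rw [hi, Finset.mem_singleton] at this
      exact h3 this

/-- the set of proper moves from `A` -/
def mvs (F : Finset (Finset ℕ)) (K : ℕ) (A : Finset ℕ) : Finset (ℕ × ℕ) :=
  (range K ×ˢ range K).filter (fun p => p.1 ∈ A ∧ p.2 ∉ A ∧ insert p.2 (A.erase p.1) ∈ F)

theorem mvs_image {F : Finset (Finset ℕ)} {N l K : ℕ} (hF : ∀ A ∈ F, A ⊆ range N ∧ A.card = l)
    (hK : N ≤ K) {A : Finset ℕ} (hA : A ∈ F) :
    (mvs F K A).image (fun p => insert p.2 (A.erase p.1)) = F.filter (fun B => adj l A B) := by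
  ext B
  simp only [Finset.mem_image, Finset.mem_filter, mvs, Finset.mem_product, Finset.mem_range]
  constructor
  · rintro ⟨p, ⟨_, h2, h3, h4⟩, rfl⟩
    exact ⟨h4, mv_adj (hF A hA).2 h2 h3⟩
  · rintro ⟨hB, hadj⟩
    obtain ⟨i, hi, j, hj, hjA, rfl⟩ := adj_mv (hF A hA).2 (hF B hB).2 hadj
    have h1 := Finset.mem_range.mp ((hF A hA).1 hi)
    have h2 := Finset.mem_range.mp ((hF _ hB).1 hj)
    exact ⟨(i, j), ⟨⟨by simp only; omega, by simp only; omega⟩, hi, hjA, hB⟩, rfl⟩

theorem mvs_inj (F : Finset (Finset ℕ)) (K : ℕ) (A : Finset ℕ) :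
    Set.InjOn (fun p : ℕ × ℕ => insert p.2 (A.erase p.1)) (mvs F K A : Set (ℕ × ℕ)) := by
  rintro ⟨i, j⟩ hp ⟨i', j'⟩ hq h
  simp only [mvs, Finset.coe_filter, Set.mem_ofPred_eq] at hp hq
  obtain ⟨h1, h2⟩ := mv_inj hp.2.1 hp.2.2.1 hq.2.1 hq.2.2.1 h
  rw [h1, h2]

theorem mvs_sum {F : Finset (Finset ℕ)} {N l K : ℕ} (hF : ∀ A ∈ F, A ⊆ range N ∧ A.card = l)
    (hK : N ≤ K) {A : Finset ℕ} (hA : A ∈ F) (g : Finset ℕ → ℝ) :
    ∑ p ∈ mvs F K A, g (insert p.2 (A.erase p.1)) = ∑ B ∈ F, if adj l A B then g B else 0 := by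
  rw [← Finset.sum_filter, ← mvs_image hF hK hA, Finset.sum_image (mvs_inj F K A)]

theorem deg_le {F : Finset (Finset ℕ)} {N l K : ℕ} (hF : ∀ A ∈ F, A ⊆ range N ∧ A.card = l)
    (hK : N ≤ K) {A : Finset ℕ} (hA : A ∈ F) :
    (F.filter (fun B => adj l A B)).card ≤ K ^ 2 := by
  rw [← mvs_image hF hK hA]
  refine Finset.card_image_le.trans ?_
  refine (Finset.card_filter_le _ _).trans ?_
  rw [Finset.card_product, Finset.card_range, pow_two]

theorem step_sum {F : Finset (Finset ℕ)} {N l K : ℕ} (hF : ∀ A ∈ F, A ⊆ range N ∧ A.card = l)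
    (hK : N ≤ K) {A : Finset ℕ} (hA : A ∈ F) (g : Finset ℕ → ℝ) :
    ∑ b : Bool, ∑ i ∈ range K, ∑ j ∈ range K, g (mvF F b i j A) =
      2 * (K:ℝ) ^ 2 * g A + ∑ B ∈ F, if adj l A B then (g B - g A) else 0 := by
  rw [Fintype.sum_bool]
  have h1 : ∑ i ∈ range K, ∑ j ∈ range K, g (mvF F false i j A) = (K:ℝ) ^ 2 * g A := by
    simp [mvF]
    ring
  have h2 : ∑ i ∈ range K, ∑ j ∈ range K, g (mvF F true i j A) =
      (K:ℝ) ^ 2 * g A + ∑ p ∈ mvs F K A, (g (insert p.2 (A.erase p.1)) - g A) := by
    rw [← Finset.sum_product']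
    have h3 : ∀ p ∈ range K ×ˢ range K, g (mvF F true p.1 p.2 A) =
        g A + if (p.1 ∈ A ∧ p.2 ∉ A ∧ insert p.2 (A.erase p.1) ∈ F) then
          (g (insert p.2 (A.erase p.1)) - g A) else 0 := by
      intro p _
      unfold mvF
      split_ifs with h4 h5 h5
      · ring
      · exact absurd h4.2 h5
      · exact absurd ⟨rfl, h5⟩ h4
      · ring
    rw [Finset.sum_congr rfl h3, Finset.sum_add_distrib, ← Finset.sum_filter]
    congr 1
    rw [Finset.sum_const, Finset.card_product, Finset.card_range, nsmul_eq_mul]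
    push_cast
    ring
  rw [h1, h2, mvs_sum hF hK hA (fun B => g B - g A)]
  ring

theorem cnt_stepR {F : Finset (Finset ℕ)} {N l K : ℕ} (hF : ∀ A ∈ F, A ⊆ range N ∧ A.card = l)
    (hK : N ≤ K) {A : Finset ℕ} (hA : A ∈ F) (B : Finset ℕ) (T : ℕ) :
    (cntF F K B (T + 1) A : ℝ) = 2 * (K:ℝ) ^ 2 * (cntF F K B T A : ℝ) +
      ∑ C ∈ F, if adj l A C then ((cntF F K B T C : ℝ) - (cntF F K B T A : ℝ)) else 0 := by
  rw [← step_sum hF hK hA (fun C => (cntF F K B T C : ℝ))]
  simp only [cntF]
  push_cast
  rfl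

theorem variance {Ind : Finset ℕ → Prop} (h : IndSys Ind) (N l K : ℕ) (hK : N ≤ K)
    (hK0 : 1 ≤ K) (B : Finset ℕ) (hB : B ∈ Fm Ind N l) (T : ℕ) :
    (∑ A ∈ Fm Ind N l, (cntF (Fm Ind N l) K B T A : ℝ) / (2 * (K:ℝ) ^ 2) ^ T =
      (Fm Ind N l).card * (1 / (Fm Ind N l).card : ℝ)) ∧
    ∑ A ∈ Fm Ind N l, ((cntF (Fm Ind N l) K B T A : ℝ) / (2 * (K:ℝ) ^ 2) ^ T -
      1 / ((Fm Ind N l).card : ℝ)) ^ 2 ≤ (1 - 1 / (K:ℝ) ^ 2) ^ T := by
  classical
  set F := Fm Ind N l with hF
  have hFs : ∀ A ∈ F, A ⊆ range N ∧ A.card = l := Fm_spec N l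
  have hn : (0:ℝ) < F.card := by exact_mod_cast Finset.card_pos.mpr ⟨B, hB⟩
  have hKr : (1:ℝ) ≤ K := by exact_mod_cast hK0
  have hK2 : (0:ℝ) < 2 * (K:ℝ) ^ 2 := by positivity
  induction T with
  | zero =>
    simp only [cntF, pow_zero, div_one]
    push_cast
    have h1 : ∑ A ∈ F, (if A = B then (1:ℝ) else 0) = 1 := by
      rw [Finset.sum_ite_eq' F B, if_pos hB]
    constructor
    · rw [h1]; field_simp
    · have h2 : ∑ A ∈ F, ((if A = B then (1:ℝ) else 0) - 1 / (F.card:ℝ)) ^ 2 =
          ∑ A ∈ F, ((if A = B then (1:ℝ) else 0) - 2 * (1 / (F.card:ℝ)) * (if A = B then (1:ℝ) else 0) +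
            (1 / (F.card:ℝ)) ^ 2) := by
        apply Finset.sum_congr rfl
        intro A _
        split_ifs <;> ring
      rw [h2, Finset.sum_add_distrib, Finset.sum_sub_distrib, ← Finset.mul_sum, h1,
        Finset.sum_const, nsmul_eq_mul]
      have h3 : (F.card:ℝ) * (1 / (F.card:ℝ)) ^ 2 = 1 / (F.card:ℝ) := by field_simp
      rw [h3]
      have : (0:ℝ) < 1 / (F.card:ℝ) := by positivity
      linarith
  | succ T ih =>
    obtain ⟨ih1, ih2⟩ := ih
    have hd := decay h N l K hK0 (fun A hA => deg_le hFs hK hA)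
      (fun A => (cntF F K B T A : ℝ) / (2 * (K:ℝ) ^ 2) ^ T)
      (fun A => (cntF F K B (T + 1) A : ℝ) / (2 * (K:ℝ) ^ 2) ^ (T + 1))
      (fun A => by positivity) (1 / (F.card : ℝ)) ih1
      (by
        intro A hA
        have hA' : A ∈ F := hA
        rw [cnt_stepR hFs hK hA', add_div, pow_succ, ← hF, Finset.mul_sum, Finset.sum_div]
        congr 1
        · field_simp
          rw [pow_succ]
          ring
        · apply Finset.sum_congr rfl
          intro C _
          split_ifs
          · field_simp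
            rw [pow_succ]
            ring
          · simp)
    refine ⟨hd.1, hd.2.trans ?_⟩
    have h1 : (1:ℝ) / (K:ℝ) ^ 2 ≤ 1 := by
      rw [div_le_one (by positivity)]
      nlinarith
    calc (1 - 1 / (K:ℝ) ^ 2) * ∑ A ∈ Fm Ind N l, ((cntF F K B T A : ℝ) / (2 * (K:ℝ) ^ 2) ^ T -
          1 / (F.card : ℝ)) ^ 2 ≤ (1 - 1 / (K:ℝ) ^ 2) * (1 - 1 / (K:ℝ) ^ 2) ^ T :=
          mul_le_mul_of_nonneg_left ih2 (by linarith)
      _ = (1 - 1 / (K:ℝ) ^ 2) ^ (T + 1) := by rw [pow_succ]; ring

end Mix

open Finset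

open Mix in
theorem mixing {Ind : Finset ℕ → Prop} (h : IndSys Ind) (N l K s T : ℕ) (hK : N ≤ K) (hK0 : 1 ≤ K)
    (hT : 2 * K ^ 2 * (s + N) ≤ T) (A B : Finset ℕ) (hA : A ∈ Fm Ind N l) (hB : B ∈ Fm Ind N l) :
    (2 ^ s - 1) * (Fm Ind N l).card * cntF (Fm Ind N l) K B T A ≤ 2 ^ s * (2 * K ^ 2) ^ T := by
  obtain ⟨-, hv⟩ := variance h N l K hK hK0 B hB T
  set F := Fm Ind N l with hF
  have hn : (0:ℝ) < F.card := by exact_mod_cast Finset.card_pos.mpr ⟨B, hB⟩
  have hn2 : (F.card : ℝ) ≤ 2 ^ N := by
    have h1 : F.card ≤ (range N).powerset.card := by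
      rw [hF]
      apply Finset.card_le_card
      intro C hC
      exact Finset.mem_powerset.mpr (mem_Fm.mp hC).1
    rw [Finset.card_powerset, Finset.card_range] at h1
    exact_mod_cast h1
  have hKr : (1:ℝ) ≤ K := by exact_mod_cast hK0
  have hK2 : (1:ℝ) ≤ (K:ℝ) ^ 2 := by nlinarith
  set q : ℝ := 1 - 1 / (K:ℝ) ^ 2 with hq
  have hq0 : 0 ≤ q := by
    have : (1:ℝ) / (K:ℝ) ^ 2 ≤ 1 := by
      rw [div_le_one (by positivity)]
      exact hK2
    rw [hq]; linarith
  have hq1 : q ≤ 1 := by
    have : (0:ℝ) ≤ 1 / (K:ℝ) ^ 2 := by positivity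
    rw [hq]; linarith
  have hqK : q ^ (K ^ 2) ≤ 1 / 2 := by
    have h1 : (1 - (1:ℝ) / ((K ^ 2 : ℕ) : ℝ)) ^ (K ^ 2) ≤ Real.exp (-1) :=
      Real.one_sub_div_pow_le_exp_neg (by exact_mod_cast (by nlinarith : 1 ≤ K ^ 2))
    have h2 : q ^ (K ^ 2) ≤ Real.exp (-1) := by
      rw [hq]
      have e1 : ((K ^ 2 : ℕ) : ℝ) = (K:ℝ) ^ 2 := by push_cast; ring
      rw [e1] at h1
      exact h1
    have h3 : Real.exp (-1) ≤ 1 / 2 := by
      rw [Real.exp_neg]
      have h4 : (2:ℝ) ≤ Real.exp 1 := by
        have := Real.add_one_le_exp (1:ℝ)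
        linarith
      rw [one_div]
      exact inv_anti₀ (by norm_num) h4
    linarith
  have hqT : q ^ T ≤ ((1 / 2) ^ (s + N)) ^ 2 := by
    calc q ^ T ≤ q ^ (2 * K ^ 2 * (s + N)) := pow_le_pow_of_le_one hq0 hq1 hT
      _ = (q ^ (K ^ 2)) ^ (2 * (s + N)) := by rw [← pow_mul]; ring_nf
      _ ≤ (1 / 2) ^ (2 * (s + N)) := pow_le_pow_left₀ (by positivity) hqK _
      _ = ((1 / 2) ^ (s + N)) ^ 2 := by rw [← pow_mul]; ring_nf
  set c : ℝ := (cntF F K B T A : ℝ) / (2 * (K:ℝ) ^ 2) ^ T with hc
  have h1 : (c - 1 / (F.card:ℝ)) ^ 2 ≤ ((1 / 2) ^ (s + N)) ^ 2 := by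
    refine le_trans ?_ (hv.trans hqT)
    exact Finset.single_le_sum (f := fun A => ((cntF F K B T A : ℝ) / (2 * (K:ℝ) ^ 2) ^ T -
      1 / (F.card : ℝ)) ^ 2) (fun _ _ => sq_nonneg _) hA
  have h2 : c - 1 / (F.card:ℝ) ≤ (1 / 2) ^ (s + N) :=
    le_of_sq_le_sq' h1 (by positivity)
  have h3 : c * F.card ≤ 1 + (1 / 2) ^ s := by
    have h4 : c ≤ 1 / (F.card:ℝ) + (1 / 2) ^ (s + N) := by linarith
    calc c * F.card ≤ (1 / (F.card:ℝ) + (1 / 2) ^ (s + N)) * F.card :=
          mul_le_mul_of_nonneg_right h4 hn.le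
      _ = 1 + (1 / 2) ^ (s + N) * F.card := by field_simp
      _ ≤ 1 + (1 / 2) ^ (s + N) * 2 ^ N := by
          have := mul_le_mul_of_nonneg_left hn2 (by positivity : (0:ℝ) ≤ (1 / 2) ^ (s + N))
          linarith
      _ = 1 + (1 / 2) ^ s := by
          rw [pow_add, mul_assoc, ← mul_pow]
          norm_num
  have h4 : ((2:ℝ) ^ s - 1) * (c * F.card) ≤ 2 ^ s := by
    have h5 : (1:ℝ) ≤ 2 ^ s := one_le_pow₀ (by norm_num)
    have h6 : ((2:ℝ) ^ s - 1) * (c * F.card) ≤ ((2:ℝ) ^ s - 1) * (1 + (1 / 2) ^ s) :=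
      mul_le_mul_of_nonneg_left h3 (by linarith)
    have h7 : (2:ℝ) ^ s * (1 / 2) ^ s = 1 := by
      rw [← mul_pow]; norm_num
    have h8 : (0:ℝ) ≤ (1 / 2) ^ s := by positivity
    nlinarith
  have h5 : (cntF F K B T A : ℝ) = c * (2 * (K:ℝ) ^ 2) ^ T := by
    rw [hc]
    field_simp
  have h6 : (((2 ^ s - 1 : ℕ) : ℝ)) = 2 ^ s - 1 := by
    rw [Nat.cast_sub Nat.one_le_two_pow]
    push_cast
    ring
  have h7 : (((2 ^ s - 1) * F.card * cntF F K B T A : ℕ) : ℝ) ≤ ((2 ^ s * (2 * K ^ 2) ^ T : ℕ) : ℝ) := by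
    push_cast
    rw [Nat.cast_sub Nat.one_le_two_pow]
    push_cast
    rw [h5]
    have h8 : (0:ℝ) ≤ (2 * (K:ℝ) ^ 2) ^ T := by positivity
    calc ((2:ℝ) ^ s - 1) * F.card * (c * (2 * (K:ℝ) ^ 2) ^ T)
        = (((2:ℝ) ^ s - 1) * (c * F.card)) * (2 * (K:ℝ) ^ 2) ^ T := by ring
      _ ≤ 2 ^ s * (2 * (K:ℝ) ^ 2) ^ T := mul_le_mul_of_nonneg_right h4 h8
  exact_mod_cast h7
  where
  le_of_sq_le_sq' {a b : ℝ} (h : a ^ 2 ≤ b ^ 2) (hb : 0 ≤ b) : a ≤ b := by
    nlinarith [sq_nonneg (a - b), sq_nonneg (a + b), abs_le_of_sq_le_sq h hb, le_abs_self a]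

open Mix in
theorem cnt_total {Ind : Finset ℕ → Prop} (N l K T : ℕ) (A : Finset ℕ) (hA : A ∈ Fm Ind N l) :
    ∑ B ∈ Fm Ind N l, cntF (Fm Ind N l) K B T A = (2 * K ^ 2) ^ T := by
  induction T generalizing A with
  | zero =>
    simp only [cntF, pow_zero]
    rw [Finset.sum_ite_eq, if_pos hA]
  | succ T ih =>
    simp only [cntF]
    rw [Finset.sum_comm]
    have h1 : ∀ b : Bool, ∑ B ∈ Fm Ind N l, ∑ i ∈ range K, ∑ j ∈ range K,
        cntF (Fm Ind N l) K B T (mvF (Fm Ind N l) b i j A) = K * (K * (2 * K ^ 2) ^ T) := by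
      intro b
      rw [Finset.sum_comm]
      have h2 : ∀ i ∈ range K, ∑ B ∈ Fm Ind N l, ∑ j ∈ range K,
          cntF (Fm Ind N l) K B T (mvF (Fm Ind N l) b i j A) = K * (2 * K ^ 2) ^ T := by
        intro i _
        rw [Finset.sum_comm]
        rw [Finset.sum_congr rfl (fun j _ => ih _ (mvF_mem hA b i j)), Finset.sum_const,
          Finset.card_range, smul_eq_mul]
      rw [Finset.sum_congr rfl h2, Finset.sum_const, Finset.card_range, smul_eq_mul]
    rw [Finset.sum_congr rfl (fun b _ => h1 b), Fintype.sum_bool]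
    ring

end Pool.Agent.N175.ST
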