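import Pool.Agent.H591R2.CoinRun
import Pool.Agent.H591R2.RawOut

/-!
# Output distribution of coin-tossing machines
-/

set_option autoImplicit false

namespace Pool.Agent.N175.ST

open Turing Function Pool.Agent.NPC Pool.Agent.H591R2 CoinMachine

/-- With the sequence `w` of coin tosses, the machine started at the configuration `c` halts after
exactly `w.length` steps, with output `y` (all other stacks being empty). -/
def HaltsC (M : CoinMachine) (c : M.Conf) (w y : List Bool) : Prop :=
  letI := M.decK
  ∃ v, M.run c w = some ⟨none, v, update (fun _ => []) M.out y⟩

open Classical in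
/-- The probability that the machine, started at the configuration `c`, halts with output `y`. -/
noncomputable def prC (M : CoinMachine) (c : M.Conf) (y : List Bool) : ENNReal :=
  ∑' w : List Bool, if HaltsC M c w y then (2⁻¹ : ENNReal) ^ w.length else 0

/-- average of a real function over `k` coins -/
noncomputable def avgR (k : ℕ) (g : List Bool → ℝ) : ℝ :=
  (∑ r : Fin k → Bool, g (List.ofFn r)) / 2 ^ k

/-- average over `k` coins, with values in `[0, ∞]` -/
noncomputable def avgE (k : ℕ) (g : List Bool → ENNReal) : ENNReal :=
  (∑ r : Fin k → Bool, g (List.ofFn r)) / 2 ^ k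

end Pool.Agent.N175.ST
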