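import Pool.Agent.N175.ST.Pick
import Pool.Agent.N175.ST.Mix
import Pool.Agent.N175.ST.Prob

/-!
# The output law of the sampling loop
-/

set_option autoImplicit false

namespace Pool.Agent.N175.ST

open Finset Pool.Agent.NPC Pool.Agent.H591R2 CoinMachine

/-- the machine `M` runs the loop -/
structure LoopSpec (M : CoinMachine) (pC : Polynomial ℕ) (cf : Sta → M.Conf) : Prop where
  time : ∀ (s : Sta) (N : ℕ), eT N (cf s) ≤ pC.eval (nc s + sz s) +
    avgR (nc s) (fun r => Sum.elim (fun _ => 0) (fun s' => eT N (cf s')) (stp r s))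
  law : ∀ (s : Sta) (y : List Bool), prC M (cf s) y = avgE (nc s) (fun r =>
    Sum.elim (fun y' => if y' = y then 1 else 0) (fun s' => prC M (cf s') y) (stp r s))
  le_one : ∀ (c : M.Conf) (y : List Bool), prC M c y ≤ 1

theorem avgR_val (k : ℕ) (G : ℕ → ℝ) :
    avgR k (fun r => G (valB r)) = (∑ R ∈ range (2 ^ k), G R) / 2 ^ k := by
  unfold avgR
  rw [sum_coins k G]

/-- real output probabilities -/
noncomputable def prR (M : CoinMachine) (c : M.Conf) (y : List Bool) : ℝ := (prC M c y).toReal

theorem LoopSpec.lawR {M : CoinMachine} {pC : Polynomial ℕ} {cf : Sta → M.Conf}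
    (h : LoopSpec M pC cf) (s : Sta) (y : List Bool) :
    prR M (cf s) y = avgR (nc s) (fun r =>
      Sum.elim (fun y' => if y' = y then 1 else 0) (fun s' => prR M (cf s') y) (stp r s)) := by
  unfold prR
  rw [h.law s y]
  unfold avgE avgR
  rw [ENNReal.toReal_div, ENNReal.toReal_sum]
  · congr 1
    · refine Finset.sum_congr rfl fun r _ => ?_
      rcases hst : stp (List.ofFn r) s with y' | s'
      · simp only [hst, Sum.elim_inl]; split_ifs <;> simp
      · simp only [hst, Sum.elim_inr]
  · intro r _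
    rcases hst : stp (List.ofFn r) s with y' | s'
    · simp only [hst, Sum.elim_inl]; split_ifs <;> simp
    · simp only [hst, Sum.elim_inr]
      exact ne_top_of_le_ne_top ENNReal.one_ne_top (h.le_one _ _)

theorem sum_filter_range {E : Type*} [AddCommMonoid E] (p : ℕ → Bool) (g : ℕ → E) (n : ℕ) :
    (((List.range n).filter p).map g).sum = ∑ i ∈ (range n).filter (fun i => p i = true), g i := by
  induction n with
  | zero => simp
  | succ n ih =>
    rw [List.range_succ, List.filter_append, List.map_append, List.sum_append, ih,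
      Finset.range_add_one, Finset.filter_insert]
    cases h : p n
    · simp [h]
    · simp only [List.filter_cons, h, if_true, List.filter_nil, List.map_cons, List.map_nil,
        List.sum_cons, List.sum_nil, add_zero]
      rw [Finset.sum_insert (by simp), add_comm]

/-- the masks of the bases -/
noncomputable def MB (V : List (List ℤ)) (r : ℕ) : Finset ℕ := by
  classical
  exact (range (2 ^ V.length)).filter (fun B => SS B ∈ FB V r)

theorem mem_MB {V : List (List ℤ)} {r B : ℕ} : B ∈ MB V r ↔ SS B ∈ FB V r := by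
  classical
  unfold MB
  rw [Finset.mem_filter, Finset.mem_range, ← SS_sub_iff]
  constructor
  · exact fun h => h.2
  · intro h
    exact ⟨(mem_Fm.1 h).1, h⟩

theorem MB_lt {V : List (List ℤ)} {r B : ℕ} (h : B ∈ MB V r) : B < 2 ^ V.length :=
  SS_sub_iff.1 (mem_Fm.1 (mem_MB.1 h)).1

theorem sum_MB {E : Type*} [AddCommMonoid E] (V : List (List ℤ)) (r : ℕ) (g : Finset ℕ → E) :
    ∑ B ∈ MB V r, g (SS B) = ∑ A ∈ FB V r, g A := by
  refine Finset.sum_bij' (fun B _ => SS B) (fun A _ => ∑ i ∈ A, 2 ^ i) ?_ ?_ ?_ ?_ ?_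
  · intro B hB; exact mem_MB.1 hB
  · intro A hA; rw [mem_MB, SS_sum]; exact hA
  · intro B _; exact sum_SS B
  · intro A _; exact SS_sum A
  · intro B _; rfl

theorem card_MB (V : List (List ℤ)) (r : ℕ) : (MB V r).card = (FB V r).card := by
  have := sum_MB V r (fun _ => (1 : ℕ))
  simpa using this

theorem BL_sum {E : Type*} [AddCommMonoid E] {V : List (List ℤ)} (hV : Uni V) (r : ℕ)
    (g : ℕ → E) :
    ((BL V r (List.range (2 ^ V.length))).map g).sum = ∑ B ∈ MB V r, g B := by
  unfold BL
  rw [sum_filter_range]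
  refine Finset.sum_congr ?_ fun _ _ => rfl
  ext B
  rw [Finset.mem_filter, Finset.mem_range, mem_MB]
  constructor
  · rintro ⟨h1, h2⟩
    exact (isB_iff hV r h1).1 h2
  · intro h
    have h1 := SS_sub_iff.1 (mem_Fm.1 h).1
    exact ⟨h1, (isB_iff hV r h1).2 h⟩

theorem BL_length {V : List (List ℤ)} (hV : Uni V) (r : ℕ) :
    (BL V r (List.range (2 ^ V.length))).length = (MB V r).card := by
  have := BL_sum hV r (fun _ => (1 : ℕ))
  simpa using this

theorem mvF_mem {F : Finset (Finset ℕ)} {b : Bool} {i j : ℕ} {A : Finset ℕ} (hA : A ∈ F) :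
    mvF F b i j A ∈ F := by
  unfold mvF
  split_ifs with h
  · exact h.2.2.2
  · exact hA

theorem chain_mem {V : List (List ℤ)} (hV : Uni V) (r : ℕ) : ∀ (T R A : ℕ), A ∈ MB V r →
    chainN V r T R A ∈ MB V r := by
  intro T
  induction T with
  | zero => intro R A hA; exact hA
  | succ T ih =>
    intro R A hA
    unfold chainN
    rw [Function.iterate_succ_apply]
    refine ih _ _ ?_
    unfold mvq
    rw [mem_MB, (mvN_spec hV r _ _ _ (MB_lt hA)).2]
    exact mvF_mem (mem_MB.1 hA)

/-! ### the numbers -/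

section numbers

variable {V : List (List ℤ)} (hV : Uni V) (r : ℕ) (s : ℕ) {B₀ : ℕ} (hB₀ : B₀ ∈ MB V r)

/-- number of coins of the chain -/
def cc (V : List (List ℤ)) (s : ℕ) : ℕ := TT V s * (2 * kk V + 1)

/-- the number of random numbers leading to `B` -/
noncomputable def aB (V : List (List ℤ)) (r s B₀ B : ℕ) : ℕ :=
  cntF (FB V r) (2 ^ kk V) (SS B) (TT V s) (SS B₀)

theorem MM_pow (V : List (List ℤ)) (s : ℕ) : MM V ^ TT V s = 2 ^ cc V s := by
  unfold cc MM
  rw [← pow_mul]
  congr 1
  rw [mul_comm]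

theorem MM_eq (V : List (List ℤ)) : 2 * (2 ^ kk V) ^ 2 = MM V := by
  unfold MM
  rw [← pow_mul, ← pow_succ']
  congr 1
  ring

theorem lt_two_pow_kk (V : List (List ℤ)) : V.length < 2 ^ kk V := by
  unfold kk
  rw [Nat.size_eq_bits_len]
  exact Nat.lt_size_self _

include hB₀ in
theorem aB_le {B : ℕ} (hB : B ∈ MB V r) :
    (2 ^ s - 1) * ((MB V r).card * aB V r s B₀ B) ≤ 2 ^ (s + cc V s) := by
  have h := mixing (indV_sys V) V.length r (2 ^ kk V) s (TT V s) (lt_two_pow_kk V).le
    Nat.one_le_two_pow (by rw [MM_eq]; exact le_rfl) (SS B₀) (SS B) (mem_MB.1 hB₀) (mem_MB.1 hB)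
  rw [MM_eq, MM_pow, ← pow_add] at h
  rw [card_MB, ← mul_assoc]
  exact h

include hB₀ in
theorem aB_sum : ∑ B ∈ MB V r, aB V r s B₀ B = 2 ^ cc V s := by
  unfold aB
  rw [sum_MB V r (fun A => cntF (FB V r) (2 ^ kk V) A (TT V s) (SS B₀)),
    cnt_total (Ind := IndV V) V.length r (2 ^ kk V) (TT V s) (SS B₀) (mem_MB.1 hB₀), MM_eq, MM_pow]

/-- the weight of `B` -/
noncomputable def wB (V : List (List ℤ)) (r s B₀ n B : ℕ) : ℕ :=
  2 ^ (s + cc V s) - (2 ^ s - 1) * (n * aB V r s B₀ B)

include hB₀ in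
theorem wB_add {B : ℕ} (hB : B ∈ MB V r) :
    wB V r s B₀ (MB V r).card B + (2 ^ s - 1) * ((MB V r).card * aB V r s B₀ B) =
      2 ^ (s + cc V s) := by
  unfold wB
  exact Nat.sub_add_cancel (aB_le r s hB₀ hB)

include hB₀ in
theorem wB_sum : ∑ B ∈ MB V r, wB V r s B₀ (MB V r).card B = (MB V r).card * 2 ^ cc V s := by
  have h1 : ∑ B ∈ MB V r, (wB V r s B₀ (MB V r).card B +
      (2 ^ s - 1) * ((MB V r).card * aB V r s B₀ B)) = (MB V r).card * 2 ^ (s + cc V s) := by
    rw [Finset.sum_congr rfl (fun B hB => wB_add r s hB₀ hB), Finset.sum_const, smul_eq_mul]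
  rw [Finset.sum_add_distrib, ← Finset.mul_sum, ← Finset.mul_sum, aB_sum r s hB₀] at h1
  have h2 : (MB V r).card * 2 ^ (s + cc V s) = (MB V r).card * 2 ^ cc V s +
      (2 ^ s - 1) * ((MB V r).card * 2 ^ cc V s) := by
    have h3 : 1 ≤ 2 ^ s := Nat.one_le_two_pow
    obtain ⟨t, ht⟩ : ∃ t, 2 ^ s = t + 1 := ⟨2 ^ s - 1, by omega⟩
    rw [pow_add, ht]
    simp only [Nat.add_sub_cancel]
    ring
  omega

include hV in
theorem WL_eq : WL V r (List.range (2 ^ V.length)) s (TT V s) B₀ =
    (BL V r (List.range (2 ^ V.length))).map (fun B => (B,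
      2 ^ (s + cc V s) - (2 ^ s - 1) * ((MB V r).card *
        (tabN V r (List.range (2 ^ V.length)) B (TT V s)).getD B₀ 0))) := by
  unfold WL wtN
  rw [BL_length hV]
  rfl

include hV hB₀ in
theorem WL_map {E : Type*} [AddCommMonoid E] (g : ℕ → ℕ → E) :
    ((WL V r (List.range (2 ^ V.length)) s (TT V s) B₀).map (fun p => g p.1 p.2)).sum =
      ∑ B ∈ MB V r, g B (wB V r s B₀ (MB V r).card B) := by
  rw [WL_eq hV, List.map_map]
  have h := BL_sum hV r (fun B => g B (2 ^ (s + cc V s) - (2 ^ s - 1) * ((MB V r).card *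
        (tabN V r (List.range (2 ^ V.length)) B (TT V s)).getD B₀ 0)))
  have e : ((fun p : ℕ × ℕ => g p.1 p.2) ∘ fun B => (B, 2 ^ (s + cc V s) - (2 ^ s - 1) *
      ((MB V r).card * (tabN V r (List.range (2 ^ V.length)) B (TT V s)).getD B₀ 0))) =
      (fun B => g B (2 ^ (s + cc V s) - (2 ^ s - 1) * ((MB V r).card *
        (tabN V r (List.range (2 ^ V.length)) B (TT V s)).getD B₀ 0))) := rfl
  rw [e, h]
  refine Finset.sum_congr rfl fun B _ => ?_
  rw [tabN_eq hV r B (TT V s) B₀ (MB_lt hB₀)]
  rfl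

end numbers

/-! ### the stages -/

section stages

variable {M : CoinMachine} {pC : Polynomial ℕ} {cf : Sta → M.Conf} (hM : LoopSpec M pC cf)
  (L : List (List ℕ)) (s : List Unit) (y : List Bool)

/-- is `y` the output for the mask `B`? -/
noncomputable def oo (L : List (List ℕ)) (y : List Bool) (B : ℕ) : ℝ :=
  if bits (outF L B) = y then 1 else 0

include hM in
/-- the last stage -/
theorem stage2 (hV : Uni (VV L)) (hB₀ : B0 (VV L) ∈ MB (VV L) (rk (VV L))) (pad : List Unit)
    (hp : 2 ^ (VV L).length ≤ pad.length) :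
    ((MB (VV L) (rk (VV L))).card * 2 ^ cc (VV L) s.length : ℕ) * prR M (cf (2, L, s, pad)) y =
      ∑ B ∈ MB (VV L) (rk (VV L)), (wB (VV L) (rk (VV L)) s.length (B0 (VV L))
        (MB (VV L) (rk (VV L))).card B : ℝ) * oo L y B := by
  set V := VV L with hVdef
  set r := rk V
  set n := (MB V r).card with hn
  set c := cc V s.length with hc
  set P := prR M (cf (2, L, s, pad)) y with hP
  have hAM : AMl V.length pad = List.range (2 ^ V.length) := by
    unfold AMl
    obtain ⟨d, hd⟩ : ∃ d, pad.length = 2 ^ V.length + d := ⟨pad.length - 2 ^ V.length, by omega⟩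
    rw [hd]
    have key : ∀ (a d : ℕ), (List.range (a + d)).filter (fun i => decide (i < a)) =
        List.range a := by
      intro a d
      induction d with
      | zero => 
        rw [add_zero, List.filter_eq_self]
        intro i hi
        simpa using hi
      | succ d ih =>
        rw [← add_assoc, List.range_succ, List.filter_append, ih]
        simp
    exact key _ _
  have hncσ : nc (2, L, s, pad) = V.length + c := rfl
  have hlaw := hM.lawR (2, L, s, pad) y
  rw [← hP, hncσ] at hlaw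
  -- the function of the number
  set WLs := WL V r (List.range (2 ^ V.length)) s.length (TT V s.length) (B0 V) with hWLs
  have hG : (fun rr : List Bool => Sum.elim (fun y' => if y' = y then (1 : ℝ) else 0)
      (fun s' => prR M (cf s') y) (stp rr (2, L, s, pad))) =
      (fun rr : List Bool => (fun R : ℕ => (fun o : Option ℕ => o.elim P (fun B => oo L y B))
        (pick WLs R)) (valB rr)) := by
    funext rr
    have h1 : stp rr (2, L, s, pad) = stp2 L s pad (valB rr) := rfl
    rw [h1]
    unfold stp2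
    rw [← hVdef, hAM]
    change Sum.elim _ _ ((pick WLs (valB rr)).elim (Sum.inr (2, L, s, pad))
      (fun B => Sum.inl (bits (outF L B)))) = (pick WLs (valB rr)).elim P (fun B => oo L y B)
    cases pick WLs (valB rr) with
    | none => rfl
    | some B => rfl
  rw [hG, avgR_val (V.length + c) (fun R : ℕ => (fun o : Option ℕ => o.elim P
    (fun B => oo L y B)) (pick WLs R))] at hlaw
  have hsum : (WLs.map Prod.snd).sum = n * 2 ^ c := by
    have h1 := WL_map hV r s.length hB₀ (fun _ w => w)
    rw [← wB_sum r s.length hB₀]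
    exact h1
  have hle : (WLs.map Prod.snd).sum ≤ 2 ^ (V.length + c) := by
    rw [hsum, pow_add]
    refine Nat.mul_le_mul_right _ ?_
    have h1 : MB V r ⊆ range (2 ^ V.length) := by
      intro B hB
      exact Finset.mem_range.2 (MB_lt hB)
    simpa using Finset.card_le_card h1
  rw [sum_pick (fun o : Option ℕ => o.elim P (fun B => oo L y B)) WLs _ hle] at hlaw
  have hmap : (WLs.map (fun p => p.2 • (fun o : Option ℕ => o.elim P (fun B => oo L y B))
      (some p.1))).sum = ∑ B ∈ MB V r, (wB V r s.length (B0 V) n B : ℝ) * oo L y B := by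
    have h1 := WL_map hV r s.length hB₀ (fun B w => w • oo L y B)
    simp only [nsmul_eq_mul] at h1
    simp only [Option.elim_some, nsmul_eq_mul]
    exact h1
  rw [hmap, hsum] at hlaw
  simp only [Option.elim_none, nsmul_eq_mul] at hlaw
  rw [hsum] at hle
  rw [Nat.cast_sub hle] at hlaw
  have h2 : (0 : ℝ) < 2 ^ (V.length + c) := by positivity
  rw [eq_div_iff h2.ne'] at hlaw
  push_cast at hlaw ⊢
  linarith

include hM in
/-- the padding stage -/
theorem stage1 (hV : Uni (VV L)) (hB₀ : B0 (VV L) ∈ MB (VV L) (rk (VV L))) :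
    ∀ (t : ℕ) (pad : List Unit), pad ≠ [] → 2 ^ (VV L).length - pad.length ≤ t →
    ((MB (VV L) (rk (VV L))).card * 2 ^ cc (VV L) s.length : ℕ) * prR M (cf (1, L, s, pad)) y =
      ∑ B ∈ MB (VV L) (rk (VV L)), (wB (VV L) (rk (VV L)) s.length (B0 (VV L))
        (MB (VV L) (rk (VV L))).card B : ℝ) * oo L y B := by
  have hone : ∀ pad : List Unit, prR M (cf (1, L, s, pad)) y =
      if pad.length < 2 ^ (VV L).length then prR M (cf (1, L, s, pad ++ pad)) y
      else prR M (cf (2, L, s, pad)) y := by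
    intro pad
    rw [hM.lawR (1, L, s, pad) y]
    have h0 : nc (1, L, s, pad) = 0 := rfl
    rw [h0]
    unfold avgR
    simp only [Finset.univ_unique, Finset.sum_singleton, pow_zero, div_one]
    have h1 : ∀ rr, stp rr (1, L, s, pad) = stp1 L s pad := fun _ => rfl
    rw [h1]
    unfold stp1
    split_ifs <;> rfl
  intro t
  induction t with
  | zero =>
    intro pad _ ht
    rw [hone, if_neg (by omega)]
    exact stage2 hM L s y hV hB₀ pad (by omega)
  | succ t ih =>
    intro pad hp ht
    rw [hone]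
    split_ifs with h
    · refine ih (pad ++ pad) (by simp [hp]) ?_
      have : 0 < pad.length := List.length_pos_of_ne_nil hp
      rw [List.length_append]
      omega
    · exact stage2 hM L s y hV hB₀ pad (by omega)

theorem sum_split2 {E : Type*} [AddCommMonoid E] (N M : ℕ) (h : ℕ → ℕ → E) :
    ∑ R ∈ range (N * M), h (R % N) (R / N) = ∑ a ∈ range N, ∑ b ∈ range M, h a b := by
  rw [Finset.sum_comm]
  rcases Nat.eq_zero_or_pos N with rfl | hN
  · simp
  induction M with
  | zero => simp
  | succ M ih =>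
    rw [Nat.mul_succ, Finset.sum_range_add, ih, Finset.sum_range_succ]
    congr 1
    apply Finset.sum_congr rfl
    intro a ha
    rw [Finset.mem_range] at ha
    rw [Nat.mul_add_mod, Nat.mod_eq_of_lt ha, Nat.mul_add_div hN, Nat.div_eq_of_lt ha, add_zero]

include hM in
/-- the output law -/
theorem stage0 (hV : Uni (VV L)) (hB₀ : B0 (VV L) ∈ MB (VV L) (rk (VV L))) :
    ((MB (VV L) (rk (VV L))).card : ℝ) * prR M (cf (0, L, s, [])) y =
      ∑ B ∈ MB (VV L) (rk (VV L)), oo L y B := by
  have h1 := stage1 hM L s y hV hB₀ _ [()] (by simp) le_rfl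
  set V := VV L with hVdef
  set r := rk V
  set n := (MB V r).card with hn
  set c := cc V s.length with hc
  set P0 := prR M (cf (0, L, s, [])) y with hP0
  set P1 := prR M (cf (1, L, s, [()])) y with hP1
  have hncσ : nc (0, L, s, []) = s.length + c := rfl
  have hlaw := hM.lawR (0, L, s, []) y
  rw [← hP0, hncσ] at hlaw
  have hG : (fun rr : List Bool => Sum.elim (fun y' => if y' = y then (1 : ℝ) else 0)
      (fun s' => prR M (cf s') y) (stp rr (0, L, s, []))) =
      (fun rr : List Bool => (fun R : ℕ => (fun a b : ℕ => if a = 0 then P1 else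
        oo L y (chainN V r (TT V s.length) b (B0 V))) (R % 2 ^ s.length) (R / 2 ^ s.length))
        (valB rr)) := by
    funext rr
    have h1 : stp rr (0, L, s, []) = stp0 L s (valB rr) := rfl
    rw [h1]
    unfold stp0
    rw [← hVdef]
    simp only
    split_ifs <;> rfl
  rw [hG, avgR_val (s.length + c) (fun R : ℕ => (fun a b : ℕ => if a = 0 then P1 else
        oo L y (chainN V r (TT V s.length) b (B0 V))) (R % 2 ^ s.length) (R / 2 ^ s.length)),
    pow_add 2 s.length c, sum_split2 (2 ^ s.length) (2 ^ c) (fun a b : ℕ => if a = 0 then P1 else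
        oo L y (chainN V r (TT V s.length) b (B0 V)))] at hlaw
  -- the sum over the chain
  have hchain : ∑ b ∈ range (2 ^ c), oo L y (chainN V r (TT V s.length) b (B0 V)) =
      ∑ B ∈ MB V r, (aB V r s.length (B0 V) B : ℝ) * oo L y B := by
    have e1 : ∀ b ∈ range (2 ^ c), oo L y (chainN V r (TT V s.length) b (B0 V)) =
        ∑ B ∈ MB V r, (if chainN V r (TT V s.length) b (B0 V) = B then (1 : ℝ) else 0) *
          oo L y B := by
      intro b _
      rw [Finset.sum_eq_single (chainN V r (TT V s.length) b (B0 V))]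
      · simp
      · intro B _ hB
        rw [if_neg (fun h => hB h.symm), zero_mul]
      · intro h
        exact absurd (chain_mem hV r _ _ _ hB₀) h
    rw [Finset.sum_congr rfl e1, Finset.sum_comm]
    refine Finset.sum_congr rfl fun B hB => ?_
    rw [← Finset.sum_mul]
    congr 1
    have h2 := count_chain hV r B (TT V s.length) (B0 V) (MB_lt hB₀)
    rw [MM_pow, ← hc] at h2
    unfold aB
    rw [← h2]
    push_cast
    rfl
  have hsum : ∑ a ∈ range (2 ^ s.length), ∑ b ∈ range (2 ^ c), (if a = 0 then P1 else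
      oo L y (chainN V r (TT V s.length) b (B0 V))) =
      2 ^ c * P1 + ((2 ^ s.length - 1 : ℕ) : ℝ) *
        ∑ B ∈ MB V r, (aB V r s.length (B0 V) B : ℝ) * oo L y B := by
    rw [← hchain]
    obtain ⟨t, ht⟩ : ∃ t, 2 ^ s.length = t + 1 :=
      ⟨2 ^ s.length - 1, by have : 1 ≤ 2 ^ s.length := Nat.one_le_two_pow; omega⟩
    rw [ht, Finset.sum_range_succ', add_comm]
    simp only [Nat.add_sub_cancel, if_true, Nat.succ_ne_zero, if_false, Finset.sum_const,
      Finset.card_range, nsmul_eq_mul]
    push_cast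
    ring
  rw [hsum] at hlaw
  have hpos : (0 : ℝ) < 2 ^ s.length * 2 ^ c := by positivity
  rw [pow_add (2 : ℝ) s.length c, eq_div_iff hpos.ne'] at hlaw
  -- weights
  have hw : ∑ B ∈ MB V r, (wB V r s.length (B0 V) n B : ℝ) * oo L y B +
      ((2 ^ s.length - 1 : ℕ) : ℝ) * (n * ∑ B ∈ MB V r, (aB V r s.length (B0 V) B : ℝ) *
        oo L y B) = 2 ^ (s.length + c) * ∑ B ∈ MB V r, oo L y B := by
    rw [Finset.mul_sum, Finset.mul_sum, Finset.mul_sum, ← Finset.sum_add_distrib]
    refine Finset.sum_congr rfl fun B hB => ?_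
    have h3 := wB_add r s.length hB₀ hB
    rw [← hn, ← hc] at h3
    have h4 : (wB V r s.length (B0 V) n B : ℝ) + ((2 ^ s.length - 1 : ℕ) : ℝ) *
        (n * (aB V r s.length (B0 V) B : ℝ)) = 2 ^ (s.length + c) := by
      exact_mod_cast h3
    rw [← h4]
    ring
  rw [← h1] at hw
  rw [pow_add] at hw
  push_cast at hw
  have h5 : (2 ^ s.length * 2 ^ c : ℝ) * (n * P0) = 2 ^ s.length * 2 ^ c * ∑ B ∈ MB V r,
      oo L y B := by
    rw [← hw]
    have h6 : (n : ℝ) * (P0 * (2 ^ s.length * 2 ^ c)) = n * (2 ^ c * P1 +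
      ((2 ^ s.length - 1 : ℕ) : ℝ) * ∑ B ∈ MB V r, (aB V r s.length (B0 V) B : ℝ) *
        oo L y B) := by rw [hlaw]
    push_cast at h6
    linarith
  exact mul_left_cancel₀ hpos.ne' h5

end stages

end Pool.Agent.N175.ST
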