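import Pool.Agent.N175.ST.Cplx
import Pool.Agent.N175.ST.Law

/-!
# The bases found by the algorithm are the spanning trees
-/

set_option autoImplicit false

namespace Pool.Agent.N175.ST

open Finset Pool.Agent.NPC

/-! ### lists -/

theorem del_aux : ∀ (F : List ℕ) (i k : ℕ),
    ((F.zipIdx k).filter (fun p => decide (p.2 ≠ i + k))).map Prod.fst = F.eraseIdx i := by
  intro F
  induction F with
  | nil => intro i k; simp
  | cons a F ih =>
    intro i k
    rw [List.zipIdx_cons, List.filter_cons]
    cases i with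
    | zero =>
      simp only [zero_add, ne_eq, not_true_eq_false, decide_false, Bool.false_eq_true, if_false,
        List.eraseIdx_cons_zero]
      have h : ∀ p ∈ F.zipIdx (k + 1), decide (p.2 ≠ k) = true := by
        intro p hp
        have := List.le_snd_of_mem_zipIdx hp
        simp only [ne_eq, decide_eq_true_eq]
        omega
      rw [List.filter_eq_self.2 h]
      simp
    | succ i =>
      have hne : (k ≠ i + 1 + k) := by omega
      simp only [hne, ne_eq, not_false_eq_true, decide_true, if_true, List.map_cons,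
        List.eraseIdx_cons_succ]
      rw [← ih i (k + 1)]
      congr 4
      funext p
      have : i + 1 + k = i + (k + 1) := by omega
      rw [this]

theorem del_eq (F : List ℕ) (i : ℕ) : del F i = F.eraseIdx i := by
  unfold del
  have := del_aux F i 0
  simpa using this

theorem incA_eq (F G : List ℕ) : (incA F G : ℚ) = bdCol F G := by
  unfold incA bdCol
  have h : ∀ n : ℕ, ((((List.range n).map (fun i => bif decide (del F i = G) then
      (bif decide (i % 2 = 0) then (1 : ℤ) else -1) else 0)).sum : ℤ) : ℚ) =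
      ∑ i ∈ range n, if F.eraseIdx i = G then (-1 : ℚ) ^ i else 0 := by
    intro n
    induction n with
    | zero => simp
    | succ n ih =>
      rw [List.range_succ, List.map_append, List.sum_append, Finset.sum_range_succ, ← ih]
      rw [List.map_singleton, List.sum_singleton, Int.cast_add]
      congr 1
      rw [del_eq]
      by_cases h1 : F.eraseIdx n = G
      · by_cases h2 : n % 2 = 0
        · have h3 : Even n := Nat.even_iff.2 h2
          simp [h1, h2, h3.neg_one_pow]
        · have h3 : Odd n := Nat.odd_iff.2 (by omega)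
          simp [h1, h2, h3.neg_one_pow]
      · simp [h1]
  exact h _

section

variable {L : List (List ℕ)} (hL : IsComplex L) (hd : 1 ≤ dimC L)

theorem tl_eq_foldr (L : List (List ℕ)) : tl L = (L.map List.length).foldr max 0 := by
  unfold tl
  rw [List.foldr_map]

include hd in
theorem tl_eq : tl L = dimC L + 1 := by
  have := tl_eq_foldr L
  unfold dimC at *
  omega

theorem length_le_tl {F : List ℕ} (h : F ∈ L) : F.length ≤ tl L := by
  unfold tl
  induction L with
  | nil => simp at h
  | cons G L ih =>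
    rw [List.foldr_cons]
    rcases List.mem_cons.1 h with rfl | h
    · exact le_max_left _ _
    · exact (ih h).trans (le_max_right _ _)

theorem mem_DD {F : List ℕ} : F ∈ DD L ↔ F ∈ L ∧ F.length = tl L := by
  unfold DD
  rw [List.mem_filter, decide_eq_true_eq]

theorem mem_EE {F : List ℕ} : F ∈ EE L ↔ F ∈ L ∧ F.length + 1 = tl L := by
  unfold EE
  rw [List.mem_filter, decide_eq_true_eq]

include hL in
theorem DD_nodup : (DD L).Nodup := hL.nodup.filter _

theorem VV_length : (VV L).length = (DD L).length := by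
  unfold VV
  rw [List.length_map]

theorem VV_uni : Uni (VV L) := by
  refine ⟨(EE L).length, ?_⟩
  intro v hv
  unfold VV at hv
  rw [List.mem_map] at hv
  obtain ⟨F, _, rfl⟩ := hv
  rw [List.length_map]

/-- the face with index `i` -/
def fc (L : List (List ℕ)) (i : ℕ) : List ℕ := (DD L).getD i []

theorem fc_mem {i : ℕ} (hi : i < (VV L).length) : fc L i ∈ DD L := by
  rw [VV_length] at hi
  unfold fc
  rw [List.getD_eq_getElem _ _ hi]
  exact List.getElem_mem hi

include hL in
theorem fc_inj {i j : ℕ} (hi : i < (VV L).length) (hj : j < (VV L).length)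
    (h : fc L i = fc L j) : i = j := by
  rw [VV_length] at hi hj
  unfold fc at h
  rw [List.getD_eq_getElem _ _ hi, List.getD_eq_getElem _ _ hj] at h
  exact (DD_nodup hL).getElem_inj_iff.1 h

theorem exists_fc {F : List ℕ} (h : F ∈ DD L) : ∃ i < (VV L).length, fc L i = F := by
  obtain ⟨i, hi, rfl⟩ := List.getElem_of_mem h
  refine ⟨i, by rw [VV_length]; exact hi, ?_⟩
  unfold fc
  rw [List.getD_eq_getElem _ _ hi]

/-- restriction to the faces of the next dimension -/
def Psi (L : List (List ℕ)) : (List ℕ → ℚ) →ₗ[ℚ] (ℕ → ℚ) where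
  toFun f := fun j => if j < (EE L).length then f ((EE L).getD j []) else 0
  map_add' f g := by
    funext j
    simp only [Pi.add_apply]
    split_ifs <;> simp
  map_smul' c f := by
    funext j
    simp only [Pi.smul_apply, RingHom.id_apply]
    split_ifs <;> simp

theorem Psi_fc {i : ℕ} (hi : i < (VV L).length) : Psi L (bdCol (fc L i)) = vecQ (VV L) i := by
  funext j
  have hi' := hi
  rw [VV_length] at hi'
  change (if j < (EE L).length then bdCol (fc L i) ((EE L).getD j []) else 0) =
    ((((VV L).getD i []).getD j 0 : ℤ) : ℚ)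
  have h1 : (VV L).getD i [] = (EE L).map (fun G => incA (fc L i) G) := by
    unfold VV fc
    rw [List.getD_eq_getElem _ _ hi', List.getD_eq_getElem _ _ (by rwa [List.length_map]),
      List.getElem_map]
  rw [h1]
  by_cases hj : j < (EE L).length
  · rw [if_pos hj, List.getD_eq_getElem _ _ (show j < ((EE L).map (fun G =>
      incA (fc L i) G)).length by rw [List.length_map]; exact hj),
      List.getElem_map, incA_eq, List.getD_eq_getElem _ _ hj]
  · rw [if_neg hj, List.getD_eq_default _ _ (by rw [List.length_map]; omega)]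
    simp

/-- functions supported on the faces of the next dimension -/
def WW (L : List (List ℕ)) : Submodule ℚ (List ℕ → ℚ) where
  carrier := {f | ∀ G, G ∉ EE L → f G = 0}
  add_mem' := by
    intro f g hf hg G hG
    rw [Pi.add_apply, hf G hG, hg G hG, add_zero]
  zero_mem' := by intro G _; rfl
  smul_mem' := by
    intro c f hf G hG
    rw [Pi.smul_apply, hf G hG, smul_zero]

include hL hd in
theorem bdCol_mem {F : List ℕ} (hF : F ∈ DD L) : bdCol F ∈ WW L := by
  intro G hG
  unfold bdCol
  refine Finset.sum_eq_zero fun i hi => ?_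
  rw [Finset.mem_range] at hi
  rw [if_neg]
  intro h
  apply hG
  rw [mem_DD] at hF
  have htl := tl_eq (L := L) hd
  have hlen : G.length + 1 = tl L := by
    rw [← h, List.length_eraseIdx_of_lt hi]
    omega
  rw [mem_EE]
  refine ⟨hL.closed F hF.1 G ?_ ?_, hlen⟩
  · intro h0
    rw [h0] at hlen
    simp at hlen
    omega
  · rw [← h]
    exact List.eraseIdx_sublist _ _

theorem Psi_inj {f : List ℕ → ℚ} (hf : f ∈ WW L) (h : Psi L f = 0) : f = 0 := by
  funext G
  by_cases hG : G ∈ EE L
  · obtain ⟨j, hj, rfl⟩ := List.getElem_of_mem hG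
    have := congrFun h j
    change (if j < (EE L).length then f ((EE L).getD j []) else 0) = 0 at this
    rw [if_pos hj, List.getD_eq_getElem _ _ hj] at this
    exact this
  · exact hf G hG

theorem fc_image_subset {A : Finset ℕ} (hA : A ⊆ range (VV L).length) :
    (fc L) '' (A : Set ℕ) ⊆ {F | F ∈ DD L} := by
  rintro _ ⟨i, hi, rfl⟩
  exact fc_mem (Finset.mem_range.1 (hA hi))

include hL hd in
theorem span_le_WW {A : Finset ℕ} (hA : A ⊆ range (VV L).length) :
    Submodule.span ℚ ((fun i => bdCol (fc L i)) '' (A : Set ℕ)) ≤ WW L := by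
  refine Submodule.span_le.2 ?_
  rintro _ ⟨i, hi, rfl⟩
  exact bdCol_mem hL hd (fc_mem (Finset.mem_range.1 (hA hi)))

theorem vec_image {A : Finset ℕ} (hA : A ⊆ range (VV L).length) :
    vecQ (VV L) '' (A : Set ℕ) = Psi L '' ((fun i => bdCol (fc L i)) '' (A : Set ℕ)) := by
  rw [Set.image_image]
  refine Set.image_congr fun i hi => ?_
  exact (Psi_fc (Finset.mem_range.1 (hA hi))).symm

include hL hd in
theorem indep_iff {A : Finset ℕ} (hA : A ⊆ range (VV L).length) :
    IndV (VV L) A ↔ LinearIndepOn ℚ (fun i => bdCol (fc L i)) (A : Set ℕ) := by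
  have h1 : IndV (VV L) A ↔ LinearIndependent ℚ (fun i : (A : Set ℕ) =>
      Psi L (bdCol (fc L i))) := by
    unfold IndV
    have e : (fun i : (A : Set ℕ) => Psi L (bdCol (fc L i))) =
        (fun i : A => vecQ (VV L) i) := by
      funext i
      exact Psi_fc (Finset.mem_range.1 (hA i.2))
    rw [e]
  rw [h1]
  unfold LinearIndepOn
  constructor
  · intro h
    exact LinearIndependent.of_comp (Psi L) h
  · intro h
    refine h.map (f := Psi L) ?_
    rw [Submodule.disjoint_def]
    intro x hx hk
    have h2 : Set.range (fun i : (A : Set ℕ) => bdCol (fc L i)) =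
        (fun i => bdCol (fc L i)) '' (A : Set ℕ) := by
      ext x; simp
    rw [h2] at hx
    exact Psi_inj (span_le_WW hL hd hA hx) hk

include hL hd in
theorem span_iff {A : Finset ℕ} (hA : A ⊆ range (VV L).length) :
    Submodule.span ℚ (vecQ (VV L) '' (A : Set ℕ)) =
      Submodule.span ℚ (vecQ (VV L) '' (range (VV L).length : Set ℕ)) ↔
    Submodule.span ℚ ((fun i => bdCol (fc L i)) '' (A : Set ℕ)) =
      Submodule.span ℚ ((fun i => bdCol (fc L i)) '' (range (VV L).length : Set ℕ)) := by
  rw [vec_image hA, vec_image (Finset.Subset.refl _), ← Submodule.map_span, ← Submodule.map_span]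
  constructor
  · intro h
    apply le_antisymm
    · exact Submodule.span_mono (Set.image_mono (by exact_mod_cast hA))
    · intro x hx
      have h1 : Psi L x ∈ Submodule.map (Psi L)
          (Submodule.span ℚ ((fun i => bdCol (fc L i)) '' (range (VV L).length : Set ℕ))) :=
        Submodule.mem_map_of_mem hx
      rw [← h, Submodule.mem_map] at h1
      obtain ⟨x', hx', he⟩ := h1
      have h2 : x - x' ∈ WW L := Submodule.sub_mem _
        (span_le_WW hL hd (Finset.Subset.refl _) hx) (span_le_WW hL hd hA hx')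
      have h3 : Psi L (x - x') = 0 := by rw [map_sub, he, sub_self]
      have h4 := Psi_inj h2 h3
      have h5 : x = x' := by
        have := sub_eq_zero.1 h4
        exact this
      rw [h5]
      exact hx'
  · intro h
    rw [h]

/-! ### masks and trees -/

/-- the faces of the spanning tree with mask `B` -/
def tre (L : List (List ℕ)) (B : ℕ) : Finset (List ℕ) := (outF L B).toFinset

theorem mem_tre {B : ℕ} (hB : B < 2 ^ (VV L).length) {F : List ℕ} :
    F ∈ tre L B ↔ F ∈ L ∧ (F.length < tl L ∨ ∃ i ∈ SS B, fc L i = F) := by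
  unfold tre outF
  rw [List.mem_toFinset, List.mem_filter]
  simp only [Bool.or_eq_true, decide_eq_true_eq, List.mem_map]
  have h1 : ∀ i, i ∈ idx (DD L).length B ↔ i ∈ SS B := by
    intro i
    rw [← idx_toFinset (m := (DD L).length) (by rw [← VV_length]; exact hB), List.mem_toFinset]
  constructor
  · rintro ⟨h2, h3 | ⟨i, hi, h3⟩⟩
    · exact ⟨h2, Or.inl h3⟩
    · exact ⟨h2, Or.inr ⟨i, (h1 i).1 hi, h3⟩⟩
  · rintro ⟨h2, h3 | ⟨i, hi, h3⟩⟩
    · exact ⟨h2, Or.inl h3⟩
    · exact ⟨h2, Or.inr ⟨i, (h1 i).2 hi, h3⟩⟩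

theorem tre_filter {B : ℕ} : L.filter (fun F => decide (F ∈ tre L B)) = outF L B := by
  have h : ∀ F ∈ L, decide (F ∈ tre L B) = (decide (F.length < tl L) ||
    decide (F ∈ (idx (DD L).length B).map (fun i => (DD L).getD i []))) := by
    intro F hF
    unfold tre outF
    simp [hF]
  rw [List.filter_congr h]
  rfl

include hd in
theorem top_tre {B : ℕ} (hB : B < 2 ^ (VV L).length) :
    {F : List ℕ | F ∈ tre L B ∧ F.length = dimC L + 1} = (fc L) '' (SS B : Set ℕ) := by
  have htl := tl_eq (L := L) hd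
  ext F
  simp only [Set.mem_ofPred_eq, Set.mem_image, Finset.mem_coe]
  rw [mem_tre hB]
  constructor
  · rintro ⟨⟨_, h2 | h2⟩, h3⟩
    · omega
    · exact h2
  · rintro ⟨i, hi, rfl⟩
    have h1 := fc_mem (L := L) (Finset.mem_range.1 (SS_sub_iff.2 hB hi))
    rw [mem_DD] at h1
    exact ⟨⟨h1.1, Or.inr ⟨i, hi, rfl⟩⟩, by omega⟩

include hd in
theorem top_all : {F : List ℕ | F ∈ L ∧ F.length = dimC L + 1} =
    (fc L) '' (range (VV L).length : Set ℕ) := by
  have htl := tl_eq (L := L) hd
  ext F
  simp only [Set.mem_ofPred_eq, Set.mem_image, Finset.mem_coe, Finset.mem_range]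
  constructor
  · rintro ⟨h1, h2⟩
    exact exists_fc (mem_DD.2 ⟨h1, by omega⟩)
  · rintro ⟨i, hi, rfl⟩
    have h1 := fc_mem (L := L) hi
    rw [mem_DD] at h1
    exact ⟨h1.1, by omega⟩

/-! ### the greedy basis -/

theorem gb_spec : (gb (VV L)).Pairwise (· < ·) ∧ (∀ i ∈ gb (VV L), i < (VV L).length) ∧
    IndV (VV L) (gb (VV L)).toFinset ∧
    ∀ A : Finset ℕ, A ⊆ range (VV L).length → IndV (VV L) A → A.card ≤ (gb (VV L)).length :=
  greedy_spec (indV_sys (VV L)) (test := indT (VV L)) (VV L).length (fun l hl hlt =>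
    indT_iff (VV_uni (L := L)) l (hl.imp (fun h => h.ne)) hlt)

theorem SS_B0 : SS (B0 (VV L)) = (gb (VV L)).toFinset := by
  have h := gb_spec (L := L)
  have hnd : (gb (VV L)).Nodup := h.1.imp (fun h => h.ne)
  have h1 : B0 (VV L) = ∑ i ∈ (gb (VV L)).toFinset, 2 ^ i := by
    unfold B0 maskL
    rw [List.sum_toFinset _ hnd]
    congr 1
    refine List.map_congr_left fun i hi => ?_
    exact pw_eq (h.2.1 i hi)
  rw [h1, SS_sum]

theorem B0_mem : B0 (VV L) ∈ MB (VV L) (rk (VV L)) := by
  have h := gb_spec (L := L)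
  have hnd : (gb (VV L)).Nodup := h.1.imp (fun h => h.ne)
  rw [mem_MB, SS_B0, mem_Fm]
  refine ⟨?_, h.2.2.1, ?_⟩
  · intro i hi
    exact Finset.mem_range.2 (h.2.1 i (List.mem_toFinset.1 hi))
  · rw [List.toFinset_card_of_nodup hnd]
    rfl

include hL hd in
theorem tre_isTree_iff {B : ℕ} (hB : B < 2 ^ (VV L).length) :
    IsTree L (tre L B) ↔ B ∈ MB (VV L) (rk (VV L)) := by
  have htl := tl_eq (L := L) hd
  have hsub := SS_sub_iff.2 hB
  have hg := gb_spec (L := L)
  have hnd : (gb (VV L)).Nodup := hg.1.imp (fun h => h.ne)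
  have hcard : (gb (VV L)).toFinset.card = (gb (VV L)).length :=
    List.toFinset_card_of_nodup hnd
  have hbas := basis_iff (VV L) (VV L).length (gb (VV L)).toFinset (SS B)
    (fun i hi => Finset.mem_range.2 (hg.2.1 i (List.mem_toFinset.1 hi))) hg.2.2.1
    (fun C hC hCi => by rw [hcard]; exact hg.2.2.2 C hC hCi) hsub
  have hinj : Set.InjOn (fc L) (SS B : Set ℕ) := by
    intro i hi j hj h
    exact fc_inj hL (Finset.mem_range.1 (hsub hi)) (Finset.mem_range.1 (hsub hj)) h
  have hind : LinearIndepOn ℚ bdCol ((fc L) '' (SS B : Set ℕ)) ↔ IndV (VV L) (SS B) := by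
    rw [indep_iff hL hd hsub]
    exact ⟨fun h => h.comp_of_image hinj, fun h => h.image_of_comp (fc L) bdCol⟩
  have hspan : Submodule.span ℚ (bdCol '' ((fc L) '' (SS B : Set ℕ))) =
      Submodule.span ℚ (bdCol '' ((fc L) '' (range (VV L).length : Set ℕ))) ↔
      Submodule.span ℚ (vecQ (VV L) '' (SS B : Set ℕ)) =
      Submodule.span ℚ (vecQ (VV L) '' (range (VV L).length : Set ℕ)) := by
    rw [span_iff hL hd hsub, Set.image_image, Set.image_image]
  rw [mem_MB, mem_Fm]
  have hrk : rk (VV L) = (gb (VV L)).toFinset.card := hcard.symm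
  rw [hrk]
  constructor
  · intro h
    have h1 := h.indep
    have h2 := h.span
    rw [top_tre hd hB] at h1 h2
    rw [top_all hd] at h2
    exact ⟨hsub, hbas.1 ⟨hind.1 h1, hspan.1 h2⟩⟩
  · rintro ⟨_, h2⟩
    obtain ⟨h3, h4⟩ := hbas.2 h2
    refine ⟨?_, ?_, ?_, ?_⟩
    · intro F hF
      exact ((mem_tre hB).1 hF).1
    · intro F hF hlen
      exact (mem_tre hB).2 ⟨hF, Or.inl (by omega)⟩
    · rw [top_tre hd hB]
      exact hind.2 h3
    · rw [top_tre hd hB, top_all hd]
      exact hspan.2 h4

theorem tre_inj (hL : IsComplex L) (hd : 1 ≤ dimC L) {B B' : ℕ} (hB : B < 2 ^ (VV L).length)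
    (hB' : B' < 2 ^ (VV L).length) (h : tre L B = tre L B') : B = B' := by
  have key : ∀ {B B' : ℕ}, B < 2 ^ (VV L).length → B' < 2 ^ (VV L).length →
      tre L B = tre L B' → SS B ⊆ SS B' := by
    intro B B' hB hB' h i hi
    have hi' := Finset.mem_range.1 (SS_sub_iff.2 hB hi)
    have h1 := mem_DD.1 (fc_mem (L := L) hi')
    have h2 : fc L i ∈ tre L B := (mem_tre hB).2 ⟨h1.1, Or.inr ⟨i, hi, rfl⟩⟩
    rw [h] at h2
    rcases ((mem_tre hB').1 h2).2 with h3 | ⟨j, hj, h3⟩
    · omega
    · have h4 := fc_inj hL (Finset.mem_range.1 (SS_sub_iff.2 hB' hj)) hi' h3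
      rw [← h4]
      exact hj
  exact SS_inj (Finset.Subset.antisymm (key hB hB' h) (key hB' hB h.symm))

theorem exists_tre (hL : IsComplex L) (hd : 1 ≤ dimC L) {Y : Finset (List ℕ)}
    (hY : IsTree L Y) : ∃ B < 2 ^ (VV L).length, tre L B = Y := by
  classical
  have htl := tl_eq (L := L) hd
  set A : Finset ℕ := (range (VV L).length).filter (fun i => fc L i ∈ Y) with hA
  have hB : ∑ i ∈ A, 2 ^ i < 2 ^ (VV L).length := by
    rw [← SS_sub_iff, SS_sum]
    exact Finset.filter_subset _ _
  refine ⟨_, hB, ?_⟩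
  ext F
  rw [mem_tre hB, SS_sum]
  constructor
  · rintro ⟨h1, h2 | ⟨i, hi, rfl⟩⟩
    · exact hY.skel F h1 (by omega)
    · exact (Finset.mem_filter.1 hi).2
  · intro hF
    have h1 := hY.sub F hF
    refine ⟨h1, ?_⟩
    rcases Nat.lt_or_ge F.length (tl L) with h2 | h2
    · exact Or.inl h2
    · right
      have h3 := length_le_tl h1
      obtain ⟨i, hi, rfl⟩ := exists_fc (mem_DD.2 ⟨h1, by omega⟩)
      exact ⟨i, Finset.mem_filter.2 ⟨Finset.mem_range.2 hi, hF⟩, rfl⟩

theorem mem_trees {Y : Finset (List ℕ)} : Y ∈ trees L ↔ IsTree L Y := by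
  classical
  unfold trees
  rw [Finset.mem_filter, Finset.mem_powerset]
  constructor
  · exact fun h => h.2
  · intro h
    exact ⟨fun F hF => List.mem_toFinset.2 (h.sub F hF), h⟩

theorem sum_trees {E : Type*} [AddCommMonoid E] (hL : IsComplex L) (hd : 1 ≤ dimC L)
    (g : Finset (List ℕ) → E) :
    ∑ B ∈ MB (VV L) (rk (VV L)), g (tre L B) = ∑ Y ∈ trees L, g Y := by
  refine Finset.sum_bij (fun B _ => tre L B) ?_ ?_ ?_ ?_
  · intro B hB
    exact mem_trees.2 ((tre_isTree_iff hL hd (MB_lt hB)).2 hB)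
  · intro B hB B' hB' h
    exact tre_inj hL hd (MB_lt hB) (MB_lt hB') h
  · intro Y hY
    obtain ⟨B, hB, rfl⟩ := exists_tre hL hd (mem_trees.1 hY)
    exact ⟨B, (tre_isTree_iff hL hd hB).1 (mem_trees.1 hY), rfl⟩
  · intro B _
    rfl

end

end Pool.Agent.N175.ST
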