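import Mathlib

/-!
# Finite simplicial complexes and their spanning trees
-/

set_option autoImplicit false

namespace Pool.Agent.N175.ST

open Finset

/-- `L` is the list of all faces of a finite simplicial complex. The vertices are natural numbers;
a face is a nonempty set of vertices, given by the increasing list of its vertices; every nonempty
subset of a face is a face; every face occurs exactly once in the list. -/
structure IsComplex (L : List (List ℕ)) : Prop where
  nodup : L.Nodup
  face : ∀ F ∈ L, F ≠ [] ∧ F.Pairwise (· < ·)
  closed : ∀ F ∈ L, ∀ G : List ℕ, G ≠ [] → G.Sublist F → G ∈ L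

/-- The dimension of the complex: the largest number of vertices of a face, minus one. -/
def dimC (L : List (List ℕ)) : ℕ := (L.map List.length).foldr max 0 - 1

/-- The column of the boundary map `∂` which belongs to the face `F`, as a rational function on
faces: the face obtained from `F = [v₀, v₁, ...]` by deleting `v_i` gets the coefficient `(-1)^i`,
all other faces get `0`. -/
def bdCol (F : List ℕ) : List ℕ → ℚ := fun G =>
  ∑ i ∈ range F.length, if F.eraseIdx i = G then (-1) ^ i else 0

/-- `Y` is (the set of faces of) a spanning tree of the complex `L` of dimension `d`: it consists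
of faces of `L`, contains all faces of dimension less than `d`, and the columns of `∂_d` indexed
by the `d`-dimensional faces of `Y` form a basis of the column space of `∂_d`. -/
structure IsTree (L : List (List ℕ)) (Y : Finset (List ℕ)) : Prop where
  sub : ∀ F ∈ Y, F ∈ L
  skel : ∀ F ∈ L, F.length ≤ dimC L → F ∈ Y
  indep : LinearIndepOn ℚ bdCol {F : List ℕ | F ∈ Y ∧ F.length = dimC L + 1}
  span : Submodule.span ℚ (bdCol '' {F : List ℕ | F ∈ Y ∧ F.length = dimC L + 1}) =
    Submodule.span ℚ (bdCol '' {F : List ℕ | F ∈ L ∧ F.length = dimC L + 1})

open Classical in
/-- The set of the spanning trees of the complex `L`. -/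
noncomputable def trees (L : List (List ℕ)) : Finset (Finset (List ℕ)) :=
  L.toFinset.powerset.filter (fun Y => IsTree L Y)

end Pool.Agent.N175.ST
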