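import Pool.Agent.N175.ST.Vec

/-!
# Linear algebra of the column matroid of a list of integer vectors
-/

set_option autoImplicit false

namespace Pool.Agent.N175.ST

open Finset Pool.Agent.H670R2

theorem indV_iff (V : List (List ℤ)) (A : Finset ℕ) :
    IndV V A ↔ LinearIndepOn ℚ (vecQ V) (A : Set ℕ) := Iff.rfl

/-- the span of the vectors with index in `A` -/
abbrev spV (V : List (List ℤ)) (A : Finset ℕ) : Submodule ℚ (ℕ → ℚ) :=
  Submodule.span ℚ (vecQ V '' (A : Set ℕ))

instance spV_fin (V : List (List ℤ)) (A : Finset ℕ) : Module.Finite ℚ (spV V A) :=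
  FiniteDimensional.span_of_finite ℚ (A.finite_toSet.image _)

theorem finrank_spV {V : List (List ℤ)} {A : Finset ℕ} (h : IndV V A) :
    Module.finrank ℚ (spV V A) = A.card := by
  have h1 := finrank_span_eq_card h
  rw [Fintype.card_coe] at h1
  rw [← h1]
  have h2 : vecQ V '' (A : Set ℕ) = Set.range (fun i : A => vecQ V i) := by
    ext x
    simp
  rw [spV, h2]

theorem indV_insert {V : List (List ℤ)} {A : Finset ℕ} (h : IndV V A) {e : ℕ}
    (he : vecQ V e ∉ spV V A) : IndV V (insert e A) := by
  rw [indV_iff, Finset.coe_insert]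
  exact LinearIndepOn.insert h he

theorem indV_sys (V : List (List ℤ)) : IndSys (IndV V) := by
  refine ⟨?_, ?_, ?_⟩
  · rw [indV_iff, Finset.coe_empty]
    exact linearIndepOn_empty ℚ _
  · intro A B hAB hB
    rw [indV_iff] at hB ⊢
    exact hB.mono (by exact_mod_cast hAB)
  · intro A B hA hB hlt
    by_contra hcon
    push Not at hcon
    have h1 : spV V B ≤ spV V A := by
      refine Submodule.span_le.2 ?_
      rintro x ⟨e, he, rfl⟩
      by_cases heA : e ∈ A
      · exact Submodule.subset_span ⟨e, heA, rfl⟩
      · by_contra hx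
        exact hcon e he heA (indV_insert hA hx)
    have h2 := Submodule.finrank_mono h1
    rw [finrank_spV hA, finrank_spV hB] at h2
    omega

theorem greedy_spec {Ind : Finset ℕ → Prop} (h : IndSys Ind) {test : List ℕ → Bool} (m : ℕ)
    (ht : ∀ l : List ℕ, l.Pairwise (· < ·) → (∀ i ∈ l, i < m) → (test l = true ↔ Ind l.toFinset)) :
    (greedy test m).Pairwise (· < ·) ∧ (∀ i ∈ greedy test m, i < m) ∧
      Ind (greedy test m).toFinset ∧
      ∀ A : Finset ℕ, A ⊆ range m → Ind A → A.card ≤ (greedy test m).length := by
  have key : ∀ k : ℕ, k ≤ m → (greedy test k).Pairwise (· < ·) ∧ (∀ i ∈ greedy test k, i < k) ∧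
      Ind (greedy test k).toFinset ∧
      ∀ e, e < k → e ∉ greedy test k → ¬ Ind (insert e (greedy test k).toFinset) := by
    intro k
    induction k with
    | zero =>
        intro _
        refine ⟨by simp [greedy], by simp [greedy], by simpa [greedy] using h.empty, ?_⟩
        intro e he
        omega
    | succ k ih =>
        intro hk
        obtain ⟨h1, h2, h3, h4⟩ := ih (by omega)
        have hg : greedy test (k + 1) = if test (greedy test k ++ [k]) then
            greedy test k ++ [k] else greedy test k := by
          unfold greedy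
          rw [List.range_succ, List.foldl_append]
          rfl
        have hp : (greedy test k ++ [k]).Pairwise (· < ·) := by
          rw [List.pairwise_append]
          refine ⟨h1, by simp, ?_⟩
          intro a ha b hb
          rw [List.mem_singleton] at hb
          rw [hb]
          exact h2 a ha
        have hl : ∀ i ∈ greedy test k ++ [k], i < k + 1 := by
          intro i hi
          rcases List.mem_append.1 hi with hi | hi
          · have := h2 i hi
            omega
          · rw [List.mem_singleton] at hi
            omega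
        have hiff := ht _ hp (fun i hi => lt_of_lt_of_le (hl i hi) hk)
        have hins : (greedy test k ++ [k]).toFinset = insert k (greedy test k).toFinset := by
          ext x
          simp
        rw [hins] at hiff
        rw [hg]
        by_cases hc : test (greedy test k ++ [k]) = true
        · rw [if_pos hc]
          refine ⟨hp, hl, ?_, ?_⟩
          · rw [hins]
            exact hiff.1 hc
          · intro e he hne hI
            rw [hins] at hI
            have hek : e ≠ k := by
              rintro rfl
              exact hne (by simp)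
            have heg : e ∉ greedy test k := fun hx => hne (List.mem_append_left _ hx)
            refine h4 e (by omega) heg (h.mono ?_ hI)
            exact Finset.insert_subset_insert _ (Finset.subset_insert _ _)
        · rw [if_neg hc]
          refine ⟨h1, fun i hi => lt_trans (h2 i hi) (Nat.lt_succ_self k), h3, ?_⟩
          intro e he hne hI
          rcases Nat.lt_or_ge e k with hek | hek
          · exact h4 e hek hne hI
          · have : e = k := by omega
            subst this
            exact hc (hiff.2 hI)
  obtain ⟨h1, h2, h3, h4⟩ := key m le_rfl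
  refine ⟨h1, h2, h3, ?_⟩
  intro A hA hI
  by_contra hlt
  have hnd : (greedy test m).Nodup := h1.imp (fun hab => ne_of_lt hab)
  have hcard : (greedy test m).toFinset.card = (greedy test m).length :=
    List.toFinset_card_of_nodup hnd
  obtain ⟨e, he, hne, hi⟩ := h.aug h3 hI (by omega)
  exact h4 e (Finset.mem_range.1 (hA he)) (fun hx => hne (List.mem_toFinset.2 hx)) hi

theorem basis_iff (V : List (List ℤ)) (m : ℕ) (B A : Finset ℕ) (hB : B ⊆ range m)
    (hBi : IndV V B) (hmax : ∀ C : Finset ℕ, C ⊆ range m → IndV V C → C.card ≤ B.card)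
    (hA : A ⊆ range m) :
    (IndV V A ∧ Submodule.span ℚ (vecQ V '' (A : Set ℕ)) =
      Submodule.span ℚ (vecQ V '' (range m : Set ℕ))) ↔ (IndV V A ∧ A.card = B.card) := by
  have hspan : spV V B = spV V (range m) := by
    refine le_antisymm (Submodule.span_mono (Set.image_mono (by exact_mod_cast hB))) ?_
    refine Submodule.span_le.2 ?_
    rintro x ⟨e, he, rfl⟩
    by_cases heB : e ∈ B
    · exact Submodule.subset_span ⟨e, heB, rfl⟩
    · by_contra hx
      have h1 := indV_insert hBi hx
      have h2 := hmax (insert e B) (Finset.insert_subset (by simpa using he) hB) h1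
      rw [Finset.card_insert_of_notMem heB] at h2
      omega
  have hrank : Module.finrank ℚ (spV V (range m)) = B.card := by
    rw [← hspan, finrank_spV hBi]
  constructor
  · rintro ⟨hAi, hs⟩
    refine ⟨hAi, ?_⟩
    have h1 := finrank_spV hAi
    have h2 : spV V A = spV V (range m) := hs
    rw [h2, hrank] at h1
    exact h1.symm
  · rintro ⟨hAi, hc⟩
    refine ⟨hAi, ?_⟩
    have hle : spV V A ≤ spV V (range m) :=
      Submodule.span_mono (Set.image_mono (by exact_mod_cast hA))
    exact Submodule.eq_of_le_of_finrank_eq hle (by rw [hrank, finrank_spV hAi, hc])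

theorem vecQ_zero {V : List (List ℤ)} {e : ℕ} (hV : ∀ v ∈ V, v.length = e) (i k : ℕ)
    (hk : e ≤ k) : vecQ V i k = 0 := by
  unfold vecQ
  have h1 : (V.getD i []).length ≤ e := by
    rcases Nat.lt_or_ge i V.length with hi | hi
    · rw [List.getD_eq_getElem _ _ hi]
      exact (hV _ (List.getElem_mem hi)).le
    · rw [List.getD_eq_default _ _ hi]
      simp
  rw [List.getD_eq_default _ _ (h1.trans hk)]
  simp

theorem dotL_getD {V : List (List ℤ)} {e : ℕ} (hV : ∀ v ∈ V, v.length = e) {i j : ℕ}
    (hi : i < V.length) :
    ((dotL (V.getD i []) (V.getD j []) : ℤ) : ℚ) = ∑ k ∈ range e, vecQ V i k * vecQ V j k := by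
  have h1 : (V.getD i []).length = e := by
    rw [List.getD_eq_getElem _ _ hi]
    exact hV _ (List.getElem_mem hi)
  rw [dotL_eq_sum, h1]
  push_cast
  rfl

/-- the criterion of Gram -/
theorem gram_iff {n e : ℕ} (f : Fin n → ℕ → ℚ) (hf : ∀ i k, e ≤ k → f i k = 0)
    (G : Matrix (Fin n) (Fin n) ℚ) (hG : ∀ i j, G i j = ∑ k ∈ range e, f i k * f j k) :
    G.det ≠ 0 ↔ LinearIndependent ℚ f := by
  have hmul : ∀ (v : Fin n → ℚ) (i : Fin n), (G.mulVec v) i =
      ∑ k ∈ range e, f i k * ∑ j, v j * f j k := by
    intro v i
    simp only [Matrix.mulVec, dotProduct, hG, Finset.sum_mul, Finset.mul_sum]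
    rw [Finset.sum_comm]
    refine Finset.sum_congr rfl fun k _ => Finset.sum_congr rfl fun j _ => ?_
    ring
  rw [Fintype.linearIndependent_iff]
  constructor
  · intro hdet v hv
    by_contra hne
    push Not at hne
    obtain ⟨i, hi⟩ := hne
    refine hdet (Matrix.exists_mulVec_eq_zero_iff.1 ⟨v, fun h => hi (by rw [h]; rfl), ?_⟩)
    ext i
    rw [hmul]
    refine Finset.sum_eq_zero fun k _ => ?_
    have h1 := congrFun hv k
    simp only [Finset.sum_apply, Pi.smul_apply, smul_eq_mul, Pi.zero_apply] at h1
    rw [h1, mul_zero]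
  · intro hli hdet
    obtain ⟨v, hv0, hv⟩ := Matrix.exists_mulVec_eq_zero_iff.2 hdet
    refine hv0 (funext (hli v ?_))
    have h1 : ∑ k ∈ range e, (∑ j, v j * f j k) ^ 2 = 0 := by
      have h2 : ∑ i, v i * (G.mulVec v) i = ∑ k ∈ range e, (∑ j, v j * f j k) ^ 2 := by
        simp only [hmul, Finset.mul_sum]
        rw [Finset.sum_comm]
        refine Finset.sum_congr rfl fun k _ => ?_
        rw [sq, Finset.sum_mul]
        refine Finset.sum_congr rfl fun i _ => ?_
        rw [Finset.mul_sum]
        refine Finset.sum_congr rfl fun j _ => ?_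
        ring
      rw [← h2, hv]
      simp
    have h3 : ∀ k, ∑ j, v j * f j k = 0 := by
      intro k
      rcases Nat.lt_or_ge k e with hk | hk
      · have h4 := (Finset.sum_eq_zero_iff_of_nonneg (fun k _ => sq_nonneg _)).1 h1 k
          (Finset.mem_range.2 hk)
        exact pow_eq_zero_iff (two_ne_zero) |>.1 h4
      · exact Finset.sum_eq_zero fun j _ => by rw [hf j k hk, mul_zero]
    ext k
    simp only [Finset.sum_apply, Pi.smul_apply, smul_eq_mul, Pi.zero_apply]
    exact h3 k

theorem gdet_ne_zero_iff (V : List (List ℤ)) (e : ℕ) (hV : ∀ v ∈ V, v.length = e) (l : List ℕ)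
    (hl : l.Nodup) (hlt : ∀ i ∈ l, i < V.length) :
    gdet (l.map (fun i => V.getD i [])) ≠ 0 ↔ IndV V l.toFinset := by
  set L := l.map (fun i => V.getD i []) with hL
  have hlen : L.length = l.length := by simp [hL]
  have hget : ∀ i : Fin L.length, L.get i = V.getD (l.get (i.cast hlen)) [] := by
    intro i
    simp [hL]
  rw [gdet_eq, Ne, Int.natAbs_eq_zero]
  have h1 : (gramM L).det = 0 ↔ ((gramM L).map (Int.cast : ℤ → ℚ)).det = 0 := by
    have h2 : ((gramM L).map (Int.cast : ℤ → ℚ)).det = (((gramM L).det : ℤ) : ℚ) := by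
      have := (Int.castRingHom ℚ).map_det (gramM L)
      rw [show ((gramM L).map (Int.cast : ℤ → ℚ)) = (Int.castRingHom ℚ).mapMatrix (gramM L) from rfl,
        ← this]
      rfl
    rw [h2, Int.cast_eq_zero]
  rw [h1, ← Ne, gram_iff (e := e) (fun i : Fin L.length => vecQ V (l.get (i.cast hlen)))
    (fun i k hk => vecQ_zero hV _ k hk)]
  · unfold IndV
    let E1 : Fin L.length ≃ Fin l.length := finCongr hlen
    let E2 : Fin l.length ≃ {x // x ∈ l} := List.Nodup.getEquiv l hl
    let E3 : {x // x ∈ l} ≃ {x // x ∈ l.toFinset} :=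
      Equiv.subtypeEquivRight (fun x => (List.mem_toFinset).symm)
    exact linearIndependent_equiv' ((E1.trans E2).trans E3) rfl
  · intro i j
    rw [Matrix.map_apply, gramM, Matrix.of_apply, hget, hget]
    exact dotL_getD hV (hlt _ (List.get_mem _ _))

end Pool.Agent.N175.ST
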