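import Pool.Agent.N175.ST.Prob
import Pool.Agent.H591R2.Assemble

/-!
# A loop which tosses coins and applies a polynomial-time transition function
-/

set_option autoImplicit false

namespace Pool.Agent.N175.ST

open Turing Function Pool.Agent.NPC Pool.Agent.H591R2 CoinMachine

/-! ### Sums over bit strings -/

/-- splitting off the first bit -/
theorem tsum_list (f : List Bool → ENNReal) :
    ∑' w : List Bool, f w = f [] + ((∑' w : List Bool, f (false :: w)) +
      ∑' w : List Bool, f (true :: w)) := by
  let e : Unit ⊕ (List Bool ⊕ List Bool) ≃ List Bool :=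
    { toFun := fun x => match x with
        | Sum.inl _ => []
        | Sum.inr (Sum.inl w) => false :: w
        | Sum.inr (Sum.inr w) => true :: w
      invFun := fun w => match w with
        | [] => Sum.inl ()
        | false :: w => Sum.inr (Sum.inl w)
        | true :: w => Sum.inr (Sum.inr w)
      left_inv := by rintro (_ | _ | _) <;> rfl
      right_inv := by rintro (_ | ⟨_ | _, _⟩) <;> rfl }
  rw [← e.tsum_eq, Summable.tsum_sum ENNReal.summable ENNReal.summable,
    Summable.tsum_sum ENNReal.summable ENNReal.summable]
  congr 1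
  exact (tsum_fintype (L := SummationFilter.unconditional Unit) _).trans (by simp [e])

/-! ### Probabilities -/

section

variable {M : CoinMachine}

theorem haltsC_nil {c : M.Conf} {y : List Bool} (hc : c.l ≠ none) : ¬ HaltsC M c [] y := by
  rintro ⟨v, h⟩
  rw [run_nil, Option.some.injEq] at h
  exact hc (by rw [h])

theorem haltsC_cons {c d : M.Conf} {b : Bool} {w y : List Bool} (h : M.step b c = some d) :
    HaltsC M c (b :: w) y ↔ HaltsC M d w y := by
  unfold HaltsC
  rw [run_cons, h]
  rfl

theorem haltsC_cons_none {c : M.Conf} {b : Bool} {w y : List Bool} (h : c.l = none) :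
    ¬ HaltsC M c (b :: w) y := by
  rintro ⟨v, h1⟩
  rw [run_cons, step_none b h] at h1
  simp at h1

theorem step_ne_none {c d : M.Conf} {b : Bool} (h : M.step b c = some d) : c.l ≠ none := by
  intro hc
  rw [step_none b hc] at h
  simp at h

/-- a coin toss -/
theorem prC_coin {c : M.Conf} {d : Bool → M.Conf} (h : ∀ b, M.step b c = some (d b))
    (y : List Bool) : prC M c y = (prC M (d false) y + prC M (d true) y) / 2 := by
  classical
  unfold prC
  rw [tsum_list, if_neg (haltsC_nil (step_ne_none (h false))), zero_add]
  have key : ∀ b : Bool, (∑' w : List Bool, if HaltsC M c (b :: w) y then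
      (2⁻¹ : ENNReal) ^ (b :: w).length else 0) =
      (∑' w : List Bool, if HaltsC M (d b) w y then (2⁻¹ : ENNReal) ^ w.length else 0) * 2⁻¹ := by
    intro b
    rw [← ENNReal.tsum_mul_right]
    apply tsum_congr
    intro w
    rw [haltsC_cons (h b)]
    split_ifs
    · rw [List.length_cons, pow_succ]
    · rw [zero_mul]
  rw [key, key, ← add_mul, ENNReal.div_eq_inv_mul, mul_comm]

/-- a deterministic step -/
theorem prC_step {c d : M.Conf} (h : ∀ b, M.step b c = some d) (y : List Bool) :
    prC M c y = prC M d y := by
  rw [prC_coin (d := fun _ => d) h, ← mul_two, ENNReal.mul_div_cancel_right (by norm_num)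
    (by norm_num)]

/-- a deterministic segment -/
theorem prC_seg (t : ℕ) : ∀ {c d : M.Conf}, (∀ w : List Bool, w.length = t → M.run c w = some d) →
    ∀ y : List Bool, prC M c y = prC M d y := by
  induction t with
  | zero =>
    intro c d h y
    have := h [] rfl
    rw [run_nil, Option.some.injEq] at this
    rw [this]
  | succ t ih =>
    intro c d h y
    have hc : c.l ≠ none := by
      intro hc
      have h1 := h (false :: List.replicate t false) (by simp)
      rw [run_cons, step_none _ hc] at h1
      simp at h1
    obtain ⟨c0, h0⟩ := step_some (M := M) false hc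
    obtain ⟨c1, h1⟩ := step_some (M := M) true hc
    have i0 : prC M c0 y = prC M d y := ih (fun w hw => by
      have := h (false :: w) (by simp [hw])
      rw [run_cons, h0] at this
      exact this) y
    have i1 : prC M c1 y = prC M d y := ih (fun w hw => by
      have := h (true :: w) (by simp [hw])
      rw [run_cons, h1] at this
      exact this) y
    have := prC_coin (c := c) (d := fun b => if b then c1 else c0) (by
      intro b; cases b
      · simpa using h0
      · simpa using h1) y
    simp only [Bool.false_eq_true, if_false, if_true] at this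
    rw [this, i0, i1, ← mul_two, ENNReal.mul_div_cancel_right (by norm_num) (by norm_num)]

/-- a halted configuration -/
theorem prC_halt {v : M.State} {y' : List Bool} (y : List Bool) :
    prC M (letI := M.decK; ⟨none, v, update (fun _ => []) M.out y'⟩) y =
      if y' = y then 1 else 0 := by
  classical
  unfold prC
  rw [tsum_list]
  have h0 : ∀ b : Bool, (∑' w : List Bool, if HaltsC M
      (letI := M.decK; ⟨none, v, update (fun _ => []) M.out y'⟩) (b :: w) y then
      (2⁻¹ : ENNReal) ^ (b :: w).length else 0) = 0 := by
    intro b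
    rw [ENNReal.tsum_eq_zero]
    intro w
    rw [if_neg (haltsC_cons_none rfl)]
  rw [h0, h0, add_zero, add_zero]
  have h1 : HaltsC M (letI := M.decK; ⟨none, v, update (fun _ => []) M.out y'⟩) [] y ↔ y' = y := by
    let _ := M.decK
    constructor
    · rintro ⟨v', h⟩
      rw [run_nil, Option.some.injEq] at h
      have h2 := congrArg (fun c : M.Conf => c.stk M.out) h
      simpa using h2
    · rintro rfl
      exact ⟨v, rfl⟩
  by_cases h : y' = y
  · rw [if_pos (h1.2 h), if_pos h]; simp
  · rw [if_neg (fun h' => h (h1.1 h')), if_neg h]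

/-- truncated sums -/
theorem trunc_le_one (y : List Bool) (N : ℕ) : ∀ c : M.Conf,
    open Classical in
    (∑' w : List Bool, if w.length < N then
      (if HaltsC M c w y then (2⁻¹ : ENNReal) ^ w.length else 0) else 0) ≤ 1 := by
  classical
  induction N with
  | zero => intro c; simp
  | succ N ih =>
    intro c
    rw [tsum_list]
    by_cases hc : c.l = none
    · have h0 : ∀ b : Bool, (∑' w : List Bool, if (b :: w).length < N + 1 then
          (if HaltsC M c (b :: w) y then (2⁻¹ : ENNReal) ^ (b :: w).length else 0) else 0) = 0 := by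
        intro b
        rw [ENNReal.tsum_eq_zero]
        intro w
        rw [if_neg (c := HaltsC M c (b :: w) y) (haltsC_cons_none hc), ite_self]
      rw [h0, h0, add_zero, add_zero]
      split_ifs <;> simp
    · rw [if_neg (c := HaltsC M c [] y) (haltsC_nil hc), ite_self, zero_add]
      have key : ∀ b : Bool, (∑' w : List Bool, if (b :: w).length < N + 1 then
          (if HaltsC M c (b :: w) y then (2⁻¹ : ENNReal) ^ (b :: w).length else 0) else 0) ≤ 2⁻¹ := by
        intro b
        obtain ⟨d, hd⟩ := step_some (M := M) b hc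
        have h1 := ih d
        calc (∑' w : List Bool, if (b :: w).length < N + 1 then
          (if HaltsC M c (b :: w) y then (2⁻¹ : ENNReal) ^ (b :: w).length else 0) else 0)
            = (∑' w : List Bool, if w.length < N then
                (if HaltsC M d w y then (2⁻¹ : ENNReal) ^ w.length else 0) else 0) * 2⁻¹ := by
              rw [← ENNReal.tsum_mul_right]
              apply tsum_congr
              intro w
              simp only [haltsC_cons hd, List.length_cons, Nat.add_lt_add_iff_right]
              split_ifs
              · rw [pow_succ]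
              · rw [zero_mul]
              · rw [zero_mul]
          _ ≤ 1 * 2⁻¹ := mul_le_mul_left h1 _
          _ = 2⁻¹ := one_mul _
      calc _ ≤ (2⁻¹ : ENNReal) + 2⁻¹ := add_le_add (key false) (key true)
        _ = 1 := ENNReal.inv_two_add_inv_two

theorem prC_le_one (c : M.Conf) (y : List Bool) : prC M c y ≤ 1 := by
  classical
  unfold prC
  rw [ENNReal.tsum_eq_iSup_sum]
  apply iSup_le
  intro S
  obtain ⟨N, hN⟩ : ∃ N : ℕ, ∀ w ∈ S, w.length < N :=
    ⟨S.sup List.length + 1, fun w hw => Nat.lt_succ_of_le (Finset.le_sup (f := List.length) hw)⟩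
  calc ∑ w ∈ S, (if HaltsC M c w y then (2⁻¹ : ENNReal) ^ w.length else 0)
      = ∑ w ∈ S, (if w.length < N then
          (if HaltsC M c w y then (2⁻¹ : ENNReal) ^ w.length else 0) else 0) := by
        apply Finset.sum_congr rfl
        intro w hw
        rw [if_pos (c := w.length < N) (hN w hw)]
    _ ≤ _ := ENNReal.sum_le_tsum S
    _ ≤ 1 := by
      have := trunc_le_one (M := M) y N c
      convert this

end

/-! ### Averages -/

theorem sum_ofFn_succ {R : Type} [AddCommMonoid R] (j : ℕ) (g : List Bool → R) :
    ∑ r : Fin (j + 1) → Bool, g (List.ofFn r) =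
      (∑ r : Fin j → Bool, g (false :: List.ofFn r)) + ∑ r : Fin j → Bool, g (true :: List.ofFn r) := by
  rw [← (Fin.consEquiv (fun _ : Fin (j + 1) => Bool)).sum_comp, Fintype.sum_prod_type,
    Fintype.sum_bool, add_comm]
  congr 1 <;> exact Finset.sum_congr rfl fun r _ => congrArg g (List.ofFn_cons _ _)

theorem avgR_succ (j : ℕ) (g : List Bool → ℝ) :
    avgR (j + 1) g = (avgR j (fun r => g (false :: r)) + avgR j (fun r => g (true :: r))) / 2 := by
  unfold avgR
  rw [sum_ofFn_succ, pow_succ]
  field_simp

theorem avgE_succ (j : ℕ) (g : List Bool → ENNReal) :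
    avgE (j + 1) g = (avgE j (fun r => g (false :: r)) + avgE j (fun r => g (true :: r))) / 2 := by
  unfold avgE
  rw [sum_ofFn_succ, pow_succ, ← ENNReal.add_div, ENNReal.div_eq_inv_mul, ENNReal.div_eq_inv_mul,
    ENNReal.div_eq_inv_mul, ENNReal.mul_inv (Or.inr (by norm_num)) (Or.inl (by norm_num))]
  ring

theorem avg_eq_avgR (j : ℕ) (h : List Bool → ℝ) : ∀ acc : List Bool,
    avg j (fun l => h l.reverse) acc = avgR j (fun r => h (acc.reverse ++ r)) := by
  induction j with
  | zero => intro acc; simp [avg, avgR]
  | succ j ih =>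
    intro acc
    unfold avg
    rw [ih, ih, avgR_succ]
    simp

theorem avgR_const_add (j : ℕ) (a : ℝ) (h : List Bool → ℝ) :
    avgR j (fun r => a + h r) = a + avgR j h := by
  unfold avgR
  rw [Finset.sum_add_distrib, Finset.sum_const, Finset.card_univ, add_div]
  congr 1
  simp

theorem poly_bits {σ : Type} [TEnc σ] : Poly (fun s : σ => bits s) := by
  obtain ⟨c, p, h⟩ := PC.rawIn
  exact ⟨c, p, fun s => h (bits s)⟩

/-! ### The machine -/

section

variable {N₀ : ℕ} {cA cC : Cmd (Fin (N₀ + 2))}

/-- the second control loop -/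
theorem prC_two (y : List Bool) : ∀ v u : List Bool,
    prC (lvMachine cA cC) (cfg cA cC 2 u v) y =
      prC (lvMachine cA cC) (mkc cA cC (some (Sum.inr (Sum.inl cC.entry))) none
        (st2 (v.reverse.flatMap (fun b => [true, b]) ++ u) [])) y := by
  intro v
  induction v with
  | nil => intro u; simpa using prC_step (fun b => step_two_nil cA cC b u) y
  | cons a v ih =>
    intro u
    rw [prC_step (fun b => step_two_cons cA cC b a u v) y, ih]
    simp

/-- the tossing loop -/
theorem prC_toss (x' y : List Bool) : ∀ (j : ℕ) (acc : List Bool),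
    prC (lvMachine cA cC) (cfg cA cC 1 (head j x') acc) y =
      avgE j (fun r => prC (lvMachine cA cC) (cfg cA cC 1 (false :: x') (r.reverse ++ acc)) y) := by
  intro j
  induction j with
  | zero => intro acc; simp [head, avgE]
  | succ j ih =>
    intro acc
    have e : head (j + 1) x' = true :: head j x' := rfl
    rw [e, prC_coin (fun b => step_one_true cA cC b (head j x') acc) y, ih, ih, avgE_succ]
    simp

/-- one round, up to the control label `3` -/
theorem prC_round {r x' o : List Bool} {t : ℕ} (h : Run cC (inp (pairBits r x')) (inp o) t) :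
    ∃ v', (∀ N, eT N (cfg cA cC 1 (false :: x') r.reverse) ≤ r.length + 2 + t +
        eT N (mkc cA cC (some (ctl cA cC 3)) v' (st2 o []))) ∧
      ∀ y, prC (lvMachine cA cC) (cfg cA cC 1 (false :: x') r.reverse) y =
        prC (lvMachine cA cC) (mkc cA cC (some (ctl cA cC 3)) v' (st2 o [])) y := by
  rw [inp_eq, inp_eq] at h
  obtain ⟨v', hseg⟩ := code_seg h (lvProg cA cC) (fun l => Sum.inr (Sum.inl l)) (ctl cA cC 3)
    (fun _ _ => rfl) none
  refine ⟨v', fun N => ?_, fun y => ?_⟩
  · have h1 := eT_step N (fun b => step_one_false cA cC b x' r.reverse)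
    have h2 := eT_two (cA := cA) (cC := cC) N r.reverse (false :: x')
    rw [List.reverse_reverse, pairBits_eq, List.length_reverse] at h2
    have h3 := eT_seg N t (seg_run cA cC hseg)
    linarith
  · rw [prC_step (fun b => step_one_false cA cC b x' r.reverse) y, prC_two, List.reverse_reverse,
      pairBits_eq]
    exact prC_seg t (seg_run cA cC hseg) y

end

section

variable {σ : Type} [TEnc σ] [TDec σ] {nc : σ → ℕ} {stp : List Bool → σ → List Bool ⊕ σ}

/-- the outcome of one round as a bit string -/
def outS (nc : σ → ℕ) (o : List Bool ⊕ σ) : List Bool :=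
  Sum.elim (fun y => true :: y) (fun s' => false :: head (nc s') (bits s')) o

/-- one round as a function of bit strings -/
def fL (nc : σ → ℕ) (stp : List Bool → σ → List Bool ⊕ σ) (y : List Bool) : List Bool :=
  (unbits σ (unpair y).2).elim [] (fun s => outS nc (stp (unpair y).1 s))

/-- preparation as a function of bit strings -/
def fI {ι : Type} [TEnc ι] [TDec ι] (nc : σ → ℕ) (init : ι → σ) (x : List Bool) : List Bool :=
  (unbits ι x).elim [] (fun a => head (nc (init a)) (bits (init a)))

omit [TDec σ] in
theorem outS_poly (hn : UPoly nc) {α : Type} [TEnc α] {o : α → List Bool ⊕ σ} (ho : Poly o) :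
    Poly (fun a => outS nc (o a)) := by
  unfold outS
  refine NPC.Poly.sumElim (g := fun _ y => true :: y)
    (h := fun _ s' => false :: head (nc s') (bits s')) ho ?_ ?_
  · exact Poly.cons (NPC.Poly.const true) (Poly.snd Poly.id)
  · refine Poly.cons (NPC.Poly.const false) ?_
    have h1 : Poly (fun s : σ => head (nc s) (bits s)) := R591.head_poly hn poly_bits
    exact h1.comp (Poly.snd Poly.id)

theorem fL_poly (hn : UPoly nc) (hs : Poly (fun p : List Bool × σ => stp p.1 p.2)) :
    Poly (fL nc stp) := by
  unfold fL
  refine NPC.Poly.optElim (h := fun (y : List Bool) s => outS nc (stp (unpair y).1 s))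
    (poly_unbits.comp (Poly.snd poly_unpair)) (NPC.Poly.const []) ?_
  exact outS_poly hn (hs.comp (Poly.pair (Poly.fst (poly_unpair.comp (Poly.fst Poly.id)))
    (Poly.snd Poly.id)))

omit [TDec σ] in
theorem fI_poly {ι : Type} [TEnc ι] [TDec ι] {init : ι → σ} (hn : UPoly nc) (hi : Poly init) :
    Poly (fI nc init) := by
  unfold fI
  refine NPC.Poly.optElim (h := fun (_ : List Bool) a => head (nc (init a)) (bits (init a)))
    poly_unbits (NPC.Poly.const []) ?_
  have h1 : Poly (fun s : σ => head (nc s) (bits s)) := R591.head_poly hn poly_bits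
  exact h1.comp (hi.comp (Poly.snd Poly.id))

theorem pairBits_length (r x : List Bool) : (pairBits r x).length = 2 * r.length + 1 + x.length := by
  unfold pairBits
  simp only [List.length_append, List.length_flatMap, List.length_cons, List.length_nil,
    List.map_const', List.sum_replicate, smul_eq_mul]
  ring

/-- A loop which tosses coins and applies a polynomial-time transition function, as a coin-tossing
machine: running time and output probabilities. The polynomial `pC` does not depend on the
initialisation. -/
theorem coin_loop (hn : UPoly nc) (hs : Poly (fun p : List Bool × σ => stp p.1 p.2)) :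
    ∃ pC : Polynomial ℕ, ∀ {ι : Type} [TEnc ι] [TDec ι] {init : ι → σ}, Poly init →
      ∃ (M : CoinMachine) (pA : Polynomial ℕ) (cf : σ → M.Conf),
        (∀ (x : ι) (N : ℕ), eT N (M.start (bits x)) ≤ pA.eval (sz x) + eT N (cf (init x))) ∧
        (∀ (x : ι) (y : List Bool), prC M (M.start (bits x)) y = prC M (cf (init x)) y) ∧
        (∀ (s : σ) (N : ℕ), eT N (cf s) ≤ pC.eval (nc s + sz s) +
          avgR (nc s) (fun r => Sum.elim (fun _ => 0) (fun s' => eT N (cf s')) (stp r s))) ∧
        (∀ (s : σ) (y : List Bool), prC M (cf s) y = avgE (nc s) (fun r =>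
          Sum.elim (fun y' => if y' = y then 1 else 0) (fun s' => prC M (cf s') y) (stp r s))) ∧
        (∀ (c : M.Conf) (y : List Bool), prC M c y ≤ 1) := by
  obtain ⟨cmC, pC, hC⟩ := R591.raw (fL_poly (stp := stp) hn hs)
  refine ⟨Polynomial.C 2 * Polynomial.X + 3 + pC.comp (Polynomial.C 2 * Polynomial.X + 1), ?_⟩
  intro ι _ _ init hi
  obtain ⟨cmA, pA, hA⟩ := R591.raw (fI_poly (nc := nc) hn hi)
  set N₀ := max cmA.bd cmC.bd with hN₀
  set cA : Cmd (Fin (N₀ + 2)) := cmA.map (Fin.ofNat (N₀ + 1 + 1)) with hcA
  set cC : Cmd (Fin (N₀ + 2)) := cmC.map (Fin.ofNat (N₀ + 1 + 1)) with hcC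
  have hinp : ∀ x : List Bool, (fun i : Fin (N₀ + 1 + 1) => (inp x : ℕ → List Bool) i) =
      (inp x : Fin (N₀ + 2) → List Bool) := by
    intro x
    funext i
    by_cases hi : i = 0
    · subst hi; simp [NPC.inp]
    · have : (i : ℕ) ≠ 0 := fun h => hi (Fin.ext h)
      simp [NPC.inp, hi, this]
  -- the two programs
  have hrunA : ∀ x : ι, ∃ t ≤ pA.eval (sz x), Run cA (inp (bits x))
      (inp (head (nc (init x)) (bits (init x)))) t := by
    intro x
    obtain ⟨t, ht, hr⟩ := hA (bits x)
    have h1 := hr.restrict (n := N₀ + 1) (by omega)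
    rw [hinp, hinp] at h1
    refine ⟨t, by rwa [bits_length] at ht, ?_⟩
    have h2 : fI nc init (bits x) = head (nc (init x)) (bits (init x)) := by
      unfold fI
      rw [unbits_bits]
      rfl
    rw [← h2]
    exact h1
  have hrunC : ∀ (s : σ) (r : List Bool), r.length = nc s →
      ∃ t ≤ pC.eval (2 * nc s + 1 + sz s), Run cC (inp (pairBits r (bits s)))
        (inp (outS nc (stp r s))) t := by
    intro s r hr
    obtain ⟨t, ht, hr'⟩ := hC (pairBits r (bits s))
    have h1 := hr'.restrict (n := N₀ + 1) (by omega)
    rw [hinp, hinp] at h1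
    rw [pairBits_length, bits_length, hr] at ht
    refine ⟨t, ht, ?_⟩
    have h2 : fL nc stp (pairBits r (bits s)) = outS nc (stp r s) := by
      unfold fL
      rw [unpair_pairBits, unbits_bits]
      rfl
    rw [← h2]
    exact h1
  refine ⟨lvMachine cA cC, pA + 1, fun s => cfg cA cC 1 (head (nc s) (bits s)) [],
    fun x N => ?_, fun x y => ?_, fun s N => ?_, fun s y => ?_, fun c y => prC_le_one c y⟩
  · obtain ⟨t, ht, hr⟩ := hrunA x
    obtain ⟨v', hseg⟩ := code_seg hr (lvProg cA cC) Sum.inl (ctl cA cC 0) (fun _ _ => rfl) none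
    have h1 := eT_seg N t (seg_run cA cC hseg)
    rw [inp_eq (head _ _)] at h1
    have h2 := eT_step N (fun b => step_zero cA cC b v' (head (nc (init x)) (bits (init x))))
    rw [start_eq]
    have h3 : (t : ℝ) ≤ (pA.eval (sz x) : ℕ) := by exact_mod_cast ht
    have h4 : (((pA + 1).eval (sz x) : ℕ) : ℝ) = (pA.eval (sz x) : ℕ) + 1 := by simp
    rw [h4]
    linarith
  · obtain ⟨t, ht, hr⟩ := hrunA x
    obtain ⟨v', hseg⟩ := code_seg hr (lvProg cA cC) Sum.inl (ctl cA cC 0) (fun _ _ => rfl) none
    rw [start_eq, prC_seg t (seg_run cA cC hseg) y, inp_eq (head _ _)]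
    exact prC_step (fun b => step_zero cA cC b v' (head (nc (init x)) (bits (init x)))) y
  · have h1 := eT_toss (cA := cA) (cC := cC) (x' := bits s) N (nc s) []
    set τ := pC.eval (2 * nc s + 1 + sz s) with hτ
    set H : List Bool → ℝ := fun r => Sum.elim (fun _ => (0 : ℝ))
      (fun s' => eT N (cfg cA cC 1 (head (nc s') (bits s')) [])) (stp r s) with hH
    have h2 : avg (nc s) (fun l => eT N (cfg cA cC 1 (false :: bits s) l)) [] ≤
        avg (nc s) (fun l => (fun r => ((nc s : ℝ) + 3 + τ) + H r) l.reverse) [] := by
      apply avg_mono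
      intro l hl
      have hl' : l.reverse.length = nc s := by simpa using hl
      obtain ⟨t, ht, hr⟩ := hrunC s l.reverse hl'
      obtain ⟨v', h3, -⟩ := prC_round (cA := cA) hr
      have h4 := h3 N
      rw [List.reverse_reverse, hl'] at h4
      have ht' : (t : ℝ) ≤ τ := by exact_mod_cast ht
      simp only [hH]
      cases hst : stp l.reverse s with
      | inl y' =>
        rw [hst] at h4
        have h5 := eT_step N (fun b => step_three_true cA cC b v' y')
        rw [eT_halt N (c := mkc cA cC none none (st2 y' [])) rfl] at h5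
        have e : outS nc (Sum.inl y' : List Bool ⊕ σ) = true :: y' := rfl
        rw [e] at h4
        simp only [Sum.elim_inl]
        linarith
      | inr s' =>
        rw [hst] at h4
        have h5 := eT_step N (fun b => step_three_false cA cC b v' (head (nc s') (bits s')))
        have e : outS nc (Sum.inr s' : List Bool ⊕ σ) = false :: head (nc s') (bits s') := rfl
        rw [e] at h4
        simp only [Sum.elim_inr]
        linarith
    have h2' := avg_eq_avgR (nc s) (fun r => ((nc s : ℝ) + 3 + τ) + H r) []
    simp only [List.reverse_nil, List.nil_append] at h2'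
    rw [avgR_const_add] at h2'
    rw [h2'] at h2
    have h5 : (2 * nc s + 3 + τ : ℕ) ≤
        (Polynomial.C 2 * Polynomial.X + 3 + pC.comp (Polynomial.C 2 * Polynomial.X + 1)).eval
          (nc s + sz s) := by
      simp only [Polynomial.eval_add, Polynomial.eval_mul, Polynomial.eval_C, Polynomial.eval_X,
        Polynomial.eval_one, Polynomial.eval_comp, Polynomial.eval_ofNat]
      have := eval_mono pC (m := 2 * nc s + 1 + sz s) (n := 2 * (nc s + sz s) + 1) (by omega)
      omega
    have h6 : ((2 * nc s + 3 + τ : ℕ) : ℝ) ≤ ((Polynomial.C 2 * Polynomial.X + 3 +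
        pC.comp (Polynomial.C 2 * Polynomial.X + 1)).eval (nc s + sz s) : ℕ) := by
      exact_mod_cast h5
    push_cast at h6
    have h7 : avgR (nc s) H = avgR (nc s) (fun r => Sum.elim (fun _ => (0 : ℝ))
      (fun s' => eT N (cfg cA cC 1 (head (nc s') (bits s')) [])) (stp r s)) := rfl
    rw [← h7]
    linarith
  · change prC (lvMachine cA cC) (cfg cA cC 1 (head (nc s) (bits s)) []) y = _
    rw [prC_toss]
    unfold avgE
    congr 1
    apply Finset.sum_congr rfl
    intro r _
    simp only [List.append_nil]
    obtain ⟨t, ht, hr⟩ := hrunC s (List.ofFn r) (by simp)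
    obtain ⟨v', -, h3⟩ := prC_round (cA := cA) hr
    rw [h3 y]
    cases hst : stp (List.ofFn r) s with
    | inl y' =>
      have e : outS nc (Sum.inl y' : List Bool ⊕ σ) = true :: y' := rfl
      rw [e, prC_step (fun b => step_three_true cA cC b v' y') y, Sum.elim_inl, st2_nil]
      exact prC_halt (M := lvMachine cA cC) y
    | inr s' =>
      have e : outS nc (Sum.inr s' : List Bool ⊕ σ) = false :: head (nc s') (bits s') := rfl
      rw [e, prC_step (fun b => step_three_false cA cC b v' (head (nc s') (bits s'))) y,
        Sum.elim_inr]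

end

end Pool.Agent.N175.ST
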