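import Pool.Agent.N175.ST.Cplx
import Pool.Agent.H591R2.Defs
import Pool.Agent.NPC.Defs

/-!
# Definitions for the statement on exact sampling of spanning trees

The coin-tossing machines `CoinMachine`, their outcomes `HaltsWith` and their expected running time
`expectedTime` are those of `Pool.Agent.H591R2.Defs`; the standard code `bits` of structured data
by bit strings is that of `Pool.Agent.NPC.Defs`. Complexes and spanning trees are in
`Pool.Agent.N175.ST.Cplx`.
-/

set_option autoImplicit false

namespace Pool.Agent.N175.ST

open Finset Pool.Agent.NPC Pool.Agent.H591R2

open Classical in
/-- The probability that the coin-tossing machine `M`, on input `x`, halts with output `y`: the sum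
of `2^{-|w|}` over all sequences `w` of coin tosses with which `M` halts after exactly `|w|` steps
(one toss for each step) with output `y`. -/
noncomputable def outProb (M : CoinMachine) (x y : List Bool) : ENNReal :=
  ∑' w : List Bool, if M.HaltsWith x w y then (2⁻¹ : ENNReal) ^ w.length else 0

/-- The code of a set `Y` of faces of `L`: the list of the faces in `Y`, in the order of `L`. -/
noncomputable def treeCode (L : List (List ℕ)) (Y : Finset (List ℕ)) : List Bool :=
  bits (L.filter (fun F => decide (F ∈ Y)))

end Pool.Agent.N175.ST
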