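import Pool.Agent.N175.ST.Law
import Pool.Agent.N175.ST.APoly

/-!
# The expected running time of the sampling loop
-/

set_option autoImplicit false

namespace Pool.Agent.N175.ST

open Finset Pool.Agent.NPC Pool.Agent.H591R2 CoinMachine

theorem eval_mul_le (p : Polynomial ℕ) (a b : ℕ) (ha : 1 ≤ a) :
    p.eval (a * b) ≤ a ^ p.natDegree * p.eval b := by
  rw [Polynomial.eval_eq_sum_range, Polynomial.eval_eq_sum_range, Finset.mul_sum]
  refine Finset.sum_le_sum fun i hi => ?_
  rw [mul_pow]
  have h1 : a ^ i ≤ a ^ p.natDegree := Nat.pow_le_pow_right ha (by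
    rw [Finset.mem_range] at hi; omega)
  calc p.coeff i * (a ^ i * b ^ i) = a ^ i * (p.coeff i * b ^ i) := by ring
    _ ≤ a ^ p.natDegree * (p.coeff i * b ^ i) := Nat.mul_le_mul_right _ h1

theorem sz_units (l : List Unit) : sz l ≤ 2 * l.length + 1 := by
  have := sz_le_length_mul l 1 (by
    intro a _
    exact le_of_eq rfl)
  omega

section

variable {M : CoinMachine} {pC : Polynomial ℕ} {cf : Sta → M.Conf} (hM : LoopSpec M pC cf)
  (L : List (List ℕ)) (s : List Unit) (N : ℕ)

/-- bound for the size of the states of the last two stages -/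
def XX (L : List (List ℕ)) (s : ℕ) : ℕ :=
  (VV L).length + cc (VV L) s + sz L + 2 * s + 4 * 2 ^ (VV L).length + 20

theorem sz_state (t : ℕ) (ht : t ≤ 2) (pad : List Unit)
    (hp : pad.length ≤ 2 * 2 ^ (VV L).length) :
    (VV L).length + cc (VV L) s.length + sz ((t, L, s, pad) : Sta) ≤ XX L s.length := by
  have h1 : sz ((t, L, s, pad) : Sta) = sz t + (sz L + (sz s + sz pad + 1) + 1) + 1 := by
    simp only [sz_pair]
  have h2 := sz_units s
  have h3 := sz_units pad
  have h4 : sz t ≤ 9 := by
    have := sz_nat_le t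
    have h5 : t.size ≤ 2 := Nat.size_le.2 (by omega)
    omega
  unfold XX
  omega

include hM in
theorem time2 (hV : Uni (VV L)) (hB₀ : B0 (VV L) ∈ MB (VV L) (rk (VV L))) (pad : List Unit)
    (hp : 2 ^ (VV L).length ≤ pad.length) (hp' : pad.length ≤ 2 * 2 ^ (VV L).length) :
    eT N (cf (2, L, s, pad)) ≤ 2 ^ (VV L).length * pC.eval (XX L s.length) := by
  set V := VV L with hVdef
  set r := rk V
  set n := (MB V r).card with hn
  set c := cc V s.length with hc
  set P := eT N (cf (2, L, s, pad)) with hP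
  have hAM : AMl V.length pad = List.range (2 ^ V.length) := by
    unfold AMl
    obtain ⟨d, hd⟩ : ∃ d, pad.length = 2 ^ V.length + d := ⟨pad.length - 2 ^ V.length, by omega⟩
    rw [hd]
    have key : ∀ (a d : ℕ), (List.range (a + d)).filter (fun i => decide (i < a)) =
        List.range a := by
      intro a d
      induction d with
      | zero => 
        rw [add_zero, List.filter_eq_self]
        intro i hi
        simpa using hi
      | succ d ih =>
        rw [← add_assoc, List.range_succ, List.filter_append, ih]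
        simp
    exact key _ _
  have hncσ : nc (2, L, s, pad) = V.length + c := rfl
  have hlaw := hM.time (2, L, s, pad) N
  rw [← hP, hncσ] at hlaw
  set WLs := WL V r (List.range (2 ^ V.length)) s.length (TT V s.length) (B0 V) with hWLs
  have hG : (fun rr : List Bool => Sum.elim (fun _ => (0 : ℝ))
      (fun s' => eT N (cf s')) (stp rr (2, L, s, pad))) =
      (fun rr : List Bool => (fun R : ℕ => (fun o : Option ℕ => o.elim P (fun _ => (0 : ℝ)))
        (pick WLs R)) (valB rr)) := by
    funext rr
    have h1 : stp rr (2, L, s, pad) = stp2 L s pad (valB rr) := rfl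
    rw [h1]
    unfold stp2
    rw [← hVdef, hAM]
    change Sum.elim _ _ ((pick WLs (valB rr)).elim (Sum.inr (2, L, s, pad))
      (fun B => Sum.inl (bits (outF L B)))) = (pick WLs (valB rr)).elim P (fun B => 0)
    cases pick WLs (valB rr) with
    | none => rfl
    | some B => rfl
  rw [hG, avgR_val (V.length + c) (fun R : ℕ => (fun o : Option ℕ => o.elim P
    (fun _ => (0 : ℝ))) (pick WLs R))] at hlaw
  have hsum : (WLs.map Prod.snd).sum = n * 2 ^ c := by
    have h1 := WL_map hV r s.length hB₀ (fun _ w => w)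
    rw [← wB_sum r s.length hB₀]
    exact h1
  have hle : (WLs.map Prod.snd).sum ≤ 2 ^ (V.length + c) := by
    rw [hsum, pow_add]
    refine Nat.mul_le_mul_right _ ?_
    have h1 : MB V r ⊆ range (2 ^ V.length) := by
      intro B hB
      exact Finset.mem_range.2 (MB_lt hB)
    simpa using Finset.card_le_card h1
  rw [sum_pick (fun o : Option ℕ => o.elim P (fun _ => (0 : ℝ))) WLs _ hle] at hlaw
  have hmap : (WLs.map (fun p => p.2 • (fun o : Option ℕ => o.elim P (fun _ => (0 : ℝ)))
      (some p.1))).sum = 0 := by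
    have h1 := WL_map hV r s.length hB₀ (fun _ w => w • (0 : ℝ))
    simp only [smul_zero, Finset.sum_const_zero] at h1
    simp only [Option.elim_some, smul_zero]
    exact h1
  rw [hmap, hsum, zero_add] at hlaw
  simp only [Option.elim_none, nsmul_eq_mul] at hlaw
  rw [hsum] at hle
  rw [Nat.cast_sub hle] at hlaw
  have h2 : (0 : ℝ) < 2 ^ (V.length + c) := by positivity
  have hsz : pC.eval (V.length + c + sz ((2, L, s, pad) : Sta)) ≤ pC.eval (XX L s.length) :=
    eval_mono pC (sz_state L s 2 le_rfl pad hp')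
  have hsz' : ((pC.eval (V.length + c + sz ((2, L, s, pad) : Sta)) : ℕ) : ℝ) ≤
      pC.eval (XX L s.length) := by exact_mod_cast hsz
  have h3 : (((2 ^ (V.length + c) : ℕ) : ℝ) - ((n * 2 ^ c : ℕ) : ℝ)) * P / 2 ^ (V.length + c) =
      P - (n * 2 ^ c : ℕ) * P / 2 ^ (V.length + c) := by
    push_cast
    field_simp
  rw [h3] at hlaw
  have h4 : ((n * 2 ^ c : ℕ) : ℝ) * P / 2 ^ (V.length + c) ≤ pC.eval (XX L s.length) := by
    push_cast at hlaw ⊢
    linarith
  rw [div_le_iff₀ h2] at h4
  have hn1 : 1 ≤ n := Finset.card_pos.2 ⟨_, hB₀⟩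
  have hP0 : 0 ≤ P := eT_nonneg _ _
  have h5 : (2 : ℝ) ^ c * P ≤ 2 ^ c * (2 ^ V.length * pC.eval (XX L s.length)) := by
    calc (2 : ℝ) ^ c * P ≤ ((n * 2 ^ c : ℕ) : ℝ) * P := by
          refine mul_le_mul_of_nonneg_right ?_ hP0
          have : 1 * 2 ^ c ≤ n * 2 ^ c := Nat.mul_le_mul_right _ hn1
          have h6 : ((1 * 2 ^ c : ℕ) : ℝ) ≤ ((n * 2 ^ c : ℕ) : ℝ) := by exact_mod_cast this
          push_cast at h6 ⊢
          linarith
      _ ≤ _ := h4
      _ = _ := by rw [pow_add]; ring
  exact le_of_mul_le_mul_left h5 (by positivity)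

include hM in
theorem time1 (hV : Uni (VV L)) (hB₀ : B0 (VV L) ∈ MB (VV L) (rk (VV L))) :
    ∀ (t : ℕ) (pad : List Unit), 2 ^ (VV L).length ≤ pad.length * 2 ^ t →
    pad.length ≤ 2 * 2 ^ (VV L).length →
    eT N (cf (1, L, s, pad)) ≤ (t + 1 + 2 ^ (VV L).length) * pC.eval (XX L s.length) := by
  have hone : ∀ pad : List Unit, pad.length ≤ 2 * 2 ^ (VV L).length →
      eT N (cf (1, L, s, pad)) ≤ pC.eval (XX L s.length) +
      if pad.length < 2 ^ (VV L).length then eT N (cf (1, L, s, pad ++ pad))
      else eT N (cf (2, L, s, pad)) := by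
    intro pad hp
    have h := hM.time (1, L, s, pad) N
    have h0 : nc (1, L, s, pad) = 0 := rfl
    rw [h0] at h
    unfold avgR at h
    simp only [Finset.univ_unique, Finset.sum_singleton, pow_zero, div_one] at h
    have h1 : ∀ rr, stp rr (1, L, s, pad) = stp1 L s pad := fun _ => rfl
    rw [h1] at h
    have hsz : pC.eval (0 + sz ((1, L, s, pad) : Sta)) ≤ pC.eval (XX L s.length) := by
      refine eval_mono pC ?_
      have := sz_state L s 1 (by norm_num) pad hp
      omega
    have hsz' : ((pC.eval (0 + sz ((1, L, s, pad) : Sta)) : ℕ) : ℝ) ≤ pC.eval (XX L s.length) := by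
      exact_mod_cast hsz
    have h2 : Sum.elim (fun _ => (0 : ℝ)) (fun s' => eT N (cf s')) (stp1 L s pad) =
        if pad.length < 2 ^ (VV L).length then eT N (cf (1, L, s, pad ++ pad))
        else eT N (cf (2, L, s, pad)) := by
      unfold stp1
      split_ifs <;> rfl
    rw [h2] at h
    linarith
  have hC : (0 : ℝ) ≤ pC.eval (XX L s.length) := by positivity
  intro t
  induction t with
  | zero =>
    intro pad hp hp'
    have h := hone pad hp'
    rw [if_neg (by simpa using hp)] at h
    have h2 := time2 hM L s N hV hB₀ pad (by simpa using hp) hp'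
    push_cast
    nlinarith
  | succ t ih =>
    intro pad hp hp'
    have h := hone pad hp'
    split_ifs at h with h1
    · have h2 := ih (pad ++ pad) (by rw [List.length_append]; rw [pow_succ] at hp; nlinarith)
        (by rw [List.length_append]; omega)
      push_cast at h2 ⊢
      nlinarith
    · have h2 := time2 hM L s N hV hB₀ pad (by omega) hp'
      push_cast
      have h3 : (0 : ℝ) ≤ t * pC.eval (XX L s.length) := by positivity
      nlinarith

include hM in
theorem time0 (hV : Uni (VV L)) (hB₀ : B0 (VV L) ∈ MB (VV L) (rk (VV L))) :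
    eT N (cf (0, L, s, [])) ≤
      pC.eval (s.length + cc (VV L) s.length + sz ((0, L, s, []) : Sta)) +
      (((VV L).length + 1 + 2 ^ (VV L).length) * pC.eval (XX L s.length)) / 2 ^ s.length := by
  have h1 := time1 hM L s N hV hB₀ (VV L).length [()] (by simp) (by
    have : 1 ≤ 2 ^ (VV L).length := Nat.one_le_two_pow
    simp only [List.length_singleton]
    omega)
  set V := VV L with hVdef
  set r := rk V
  set c := cc V s.length with hc
  set P1 := eT N (cf (1, L, s, [()])) with hP1
  have hncσ : nc (0, L, s, []) = s.length + c := rfl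
  have hlaw := hM.time (0, L, s, []) N
  rw [hncσ] at hlaw
  have hG : (fun rr : List Bool => Sum.elim (fun _ => (0 : ℝ))
      (fun s' => eT N (cf s')) (stp rr (0, L, s, []))) =
      (fun rr : List Bool => (fun R : ℕ => (fun a _ : ℕ => if a = 0 then P1 else
        0) (R % 2 ^ s.length) (R / 2 ^ s.length)) (valB rr)) := by
    funext rr
    have h1 : stp rr (0, L, s, []) = stp0 L s (valB rr) := rfl
    rw [h1]
    unfold stp0
    simp only
    split_ifs <;> rfl
  rw [hG, avgR_val (s.length + c) (fun R : ℕ => (fun a _ : ℕ => if a = 0 then P1 else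
        0) (R % 2 ^ s.length) (R / 2 ^ s.length)),
    pow_add 2 s.length c, sum_split2 (2 ^ s.length) (2 ^ c) (fun a _ : ℕ => if a = 0 then P1 else
        0)] at hlaw
  have hsum : ∑ a ∈ range (2 ^ s.length), ∑ _b ∈ range (2 ^ c), (if a = 0 then P1 else
      0) = 2 ^ c * P1 := by
    obtain ⟨t, ht⟩ : ∃ t, 2 ^ s.length = t + 1 :=
      ⟨2 ^ s.length - 1, by have : 1 ≤ 2 ^ s.length := Nat.one_le_two_pow; omega⟩
    rw [ht, Finset.sum_range_succ', add_comm]
    simp
  rw [hsum, pow_add (2 : ℝ) s.length c] at hlaw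
  have h3 : (2 : ℝ) ^ c * P1 / (2 ^ s.length * 2 ^ c) = P1 / 2 ^ s.length := by
    field_simp
  rw [h3] at hlaw
  have h4 : P1 / 2 ^ s.length ≤ ((V.length + 1 + 2 ^ V.length) * pC.eval (XX L s.length)) /
      2 ^ s.length := div_le_div_of_nonneg_right h1 (by positivity)
  linarith

end

/-- the padding of the initial state -/
def ini (q : ℕ) (L : List (List ℕ)) : Sta := (0, L, List.replicate ((q + 1) * (VV L).length) (), [])

open Polynomial in
/-- The expected running time is polynomial. -/
theorem time_poly (pC : Polynomial ℕ) : ∃ p : Polynomial ℕ, ∀ {M : CoinMachine} {cf : Sta → M.Conf},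
    LoopSpec M pC cf → ∀ (L : List (List ℕ)), Uni (VV L) → B0 (VV L) ∈ MB (VV L) (rk (VV L)) →
      ∀ N : ℕ, eT N (cf (ini pC.natDegree L)) ≤ p.eval (sz L) := by
  set q := pC.natDegree with hq
  set cP : Polynomial ℕ := C 2 * (C 2 * X + 1) * (C 2 * X + 1) * ((C (q + 2)) * X) * (C 2 * X + 1)
    with hcP
  set YP : Polynomial ℕ := X + cP + X + C (2 * (q + 1)) * X + C 24 with hYP
  refine ⟨pC.comp (C (q + 1) * X + YP) + (X + C 2) * pC.comp YP, ?_⟩
  intro M cf hM L hV hB₀ N
  set s : List Unit := List.replicate ((q + 1) * (VV L).length) () with hs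
  have hslen : s.length = (q + 1) * (VV L).length := by simp [hs]
  have h := time0 hM L s N hV hB₀
  have hini : ini q L = (0, L, s, []) := rfl
  rw [hini]
  set m := (VV L).length with hm
  set x := sz L with hx
  have hmx : m ≤ x := by
    have h1 : m ≤ L.length := by
      rw [hm]
      unfold VV DD
      rw [List.length_map]
      exact List.length_filter_le _ _
    have := length_lt_sz L
    omega
  have hkk : kk (VV L) ≤ x := by
    unfold kk
    rw [Nat.size_eq_bits_len]
    exact (Poly.size_le_self _).trans hmx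
  have hMM : MM (VV L) ≤ 2 * (2 * x + 1) * (2 * x + 1) := by
    refine (N175ST.MM_le (VV L)).trans ?_
    have h1 : 2 * (VV L).length + 1 ≤ 2 * x + 1 := by omega
    exact Nat.mul_le_mul (Nat.mul_le_mul le_rfl h1) h1
  have hS : s.length ≤ (q + 1) * x := by
    rw [hslen]
    exact Nat.mul_le_mul_left _ hmx
  have hc : cc (VV L) s.length ≤ cP.eval x := by
    unfold cc TT
    simp only [hcP, eval_mul, eval_add, eval_C, eval_X, eval_one]
    refine Nat.mul_le_mul (Nat.mul_le_mul hMM ?_) (by omega)
    calc s.length + (VV L).length ≤ (q + 1) * x + x := Nat.add_le_add hS hmx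
      _ = (q + 2) * x := by ring
  have hY : m + cc (VV L) s.length + x + 2 * s.length + 24 ≤ YP.eval x := by
    simp only [hYP, eval_add, eval_mul, eval_C, eval_X]
    have : 2 * s.length ≤ 2 * (q + 1) * x := by
      calc 2 * s.length ≤ 2 * ((q + 1) * x) := Nat.mul_le_mul_left _ hS
        _ = _ := by ring
    omega
  have hXX : XX L s.length ≤ 2 ^ m * YP.eval x := by
    calc XX L s.length = m + cc (VV L) s.length + x + 2 * s.length + 20 + 4 * 2 ^ m := by
          unfold XX
          rw [← hm, ← hx]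
          ring
      _ ≤ 2 ^ m * (m + cc (VV L) s.length + x + 2 * s.length + 20) + 4 * 2 ^ m :=
          Nat.add_le_add_right (Nat.le_mul_of_pos_left _ (by positivity)) _
      _ = 2 ^ m * (m + cc (VV L) s.length + x + 2 * s.length + 24) := by ring
      _ ≤ _ := Nat.mul_le_mul_left _ hY
  have hpXX : pC.eval (XX L s.length) ≤ 2 ^ (m * q) * pC.eval (YP.eval x) := by
    refine (eval_mono pC hXX).trans ((eval_mul_le pC (2 ^ m) _ Nat.one_le_two_pow).trans ?_)
    rw [← pow_mul]
  -- first term
  have h1 : pC.eval (s.length + cc (VV L) s.length + sz ((0, L, s, []) : Sta)) ≤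
      (pC.comp (C (q + 1) * X + YP)).eval x := by
    rw [eval_comp]
    refine eval_mono pC ?_
    have e1 : sz ((0, L, s, []) : Sta) = sz (0 : ℕ) + (sz L + (sz s + sz ([] : List Unit) + 1) + 1)
        + 1 := by simp only [sz_pair]
    have e2 := sz_units s
    have e3 : sz (0 : ℕ) ≤ 1 := by
      have := sz_nat_le 0
      simpa using this
    have e4 : sz ([] : List Unit) ≤ 1 := by
      have := sz_units []
      simpa using this
    have e5 : (C (q + 1) * X + YP).eval x = (q + 1) * x + YP.eval x := by simp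
    rw [e5]
    omega
  -- second term
  have h2 : ((m + 1 + 2 ^ m) * ((pC.eval (XX L s.length) : ℕ) : ℝ)) / 2 ^ s.length ≤
      (x + 2) * (pC.eval (YP.eval x) : ℕ) := by
    have e1 : ((m : ℝ) + 1 + 2 ^ m) ≤ (x + 2) * 2 ^ m := by
      have h3 : (1 : ℝ) ≤ 2 ^ m := one_le_pow₀ (by norm_num)
      have h4 : (m : ℝ) ≤ x := by exact_mod_cast hmx
      have h5 : (0 : ℝ) ≤ x := by positivity
      nlinarith
    have e2 : ((pC.eval (XX L s.length) : ℕ) : ℝ) ≤ 2 ^ (m * q) * (pC.eval (YP.eval x) : ℕ) := by
      exact_mod_cast hpXX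
    rw [div_le_iff₀ (by positivity)]
    calc (m + 1 + 2 ^ m) * ((pC.eval (XX L s.length) : ℕ) : ℝ) ≤
        ((x + 2) * 2 ^ m) * (2 ^ (m * q) * (pC.eval (YP.eval x) : ℕ)) :=
          mul_le_mul e1 e2 (by positivity) (by positivity)
      _ = (x + 2) * (pC.eval (YP.eval x) : ℕ) * 2 ^ (m + m * q) := by rw [pow_add]; ring
      _ = _ := by
          rw [hslen]
          congr 2
          ring
  have h3 : ((pC.eval (s.length + cc (VV L) s.length + sz ((0, L, s, []) : Sta)) : ℕ) : ℝ) ≤
      ((pC.comp (C (q + 1) * X + YP)).eval x : ℕ) := by exact_mod_cast h1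
  have h4 : (((pC.comp (C (q + 1) * X + YP) + (X + C 2) * pC.comp YP).eval x : ℕ) : ℝ) =
      ((pC.comp (C (q + 1) * X + YP)).eval x : ℕ) + (x + 2) * (pC.eval (YP.eval x) : ℕ) := by
    rw [eval_add, eval_mul, eval_add, eval_X, eval_C, eval_comp (p := pC) (q := YP)]
    push_cast
    ring
  rw [h4]
  linarith

end Pool.Agent.N175.ST
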