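import Pool.Agent.N175.ST.Corr
import Pool.Agent.N175.ST.Time
import Pool.Agent.N175.ST.Loop
import Pool.Agent.N175.ST.Stmt

/-!
# Exact uniform sampling of simplicial spanning trees in expected polynomial time
-/

set_option autoImplicit false

namespace Pool.Agent.N175.ST

open Finset Pool.Agent.NPC Pool.Agent.H591R2 CoinMachine

theorem outProb_eq (M : CoinMachine) (x y : List Bool) :
    outProb M x y = prC M (M.start x) y := rfl

theorem treeCode_inj {L : List (List ℕ)} {Y Y' : Finset (List ℕ)} (hY : ∀ F ∈ Y, F ∈ L)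
    (hY' : ∀ F ∈ Y', F ∈ L) (h : treeCode L Y = treeCode L Y') : Y = Y' := by
  have h1 := bits_injective h
  ext F
  have h2 : F ∈ L.filter (fun F => decide (F ∈ Y)) ↔ F ∈ L.filter (fun F => decide (F ∈ Y')) := by
    rw [h1]
  rw [List.mem_filter, List.mem_filter, decide_eq_true_iff, decide_eq_true_iff] at h2
  constructor
  · intro hF; exact (h2.1 ⟨hY F hF, hF⟩).2
  · intro hF; exact (h2.2 ⟨hY' F hF, hF⟩).2

theorem law_final {M : CoinMachine} {pC : Polynomial ℕ} {cf : Sta → M.Conf}
    (hM : LoopSpec M pC cf) {L : List (List ℕ)} (hL : IsComplex L) (hd : 1 ≤ dimC L)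
    (s : List Unit) (y : List Bool) :
    prC M (cf (0, L, s, [])) y =
      if ∃ Y ∈ trees L, y = treeCode L Y then (1 : ENNReal) / (trees L).card else 0 := by
  classical
  have h1 := stage0 hM L s y (VV_uni (L := L)) (B0_mem (L := L))
  have h2 : ∑ B ∈ MB (VV L) (rk (VV L)), oo L y B =
      ∑ Y ∈ trees L, if treeCode L Y = y then (1 : ℝ) else 0 := by
    rw [← sum_trees hL hd (fun Y => if treeCode L Y = y then (1 : ℝ) else 0)]
    refine Finset.sum_congr rfl fun B _ => ?_
    unfold oo treeCode
    rw [tre_filter]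
  have h3 : (MB (VV L) (rk (VV L))).card = (trees L).card := by
    have := sum_trees hL hd (fun _ => (1 : ℕ))
    simpa using this
  rw [h2, h3] at h1
  have hpos : 0 < (trees L).card := by
    rw [← h3]
    exact Finset.card_pos.2 ⟨_, B0_mem (L := L)⟩
  have hpos' : (0 : ℝ) < (trees L).card := by exact_mod_cast hpos
  have hne : prC M (cf (0, L, s, [])) y ≠ ⊤ :=
    ne_top_of_le_ne_top ENNReal.one_ne_top (hM.le_one _ _)
  split_ifs with h
  · obtain ⟨Y, hY, hy⟩ := h
    have h4 : ∑ Y' ∈ trees L, (if treeCode L Y' = y then (1 : ℝ) else 0) = 1 := by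
      rw [Finset.sum_eq_single Y]
      · rw [if_pos hy.symm]
      · intro Y' hY' hne'
        rw [if_neg]
        intro h5
        exact hne' (treeCode_inj (mem_trees.1 hY').sub (mem_trees.1 hY).sub (h5.trans hy))
      · intro h5; exact absurd hY h5
    rw [h4] at h1
    have h5 : prR M (cf (0, L, s, [])) y = 1 / (trees L).card := by
      rw [eq_div_iff hpos'.ne', mul_comm]
      exact h1
    unfold prR at h5
    rw [← ENNReal.ofReal_toReal hne, h5, ENNReal.ofReal_div_of_pos hpos', ENNReal.ofReal_one,
      ENNReal.ofReal_natCast]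
  · have h4 : ∑ Y' ∈ trees L, (if treeCode L Y' = y then (1 : ℝ) else 0) = 0 := by
      refine Finset.sum_eq_zero fun Y' hY' => ?_
      rw [if_neg]
      intro h5
      exact h ⟨Y', hY', h5.symm⟩
    rw [h4] at h1
    have h5 : prR M (cf (0, L, s, [])) y = 0 := by
      rcases mul_eq_zero.1 h1 with h6 | h6
      · exact absurd h6 hpos'.ne'
      · exact h6
    unfold prR at h5
    rw [ENNReal.toReal_eq_zero_iff] at h5
    exact h5.resolve_right hne

theorem ini_poly (q : ℕ) : Pool.Agent.NPC.Poly (ini q) := by
  have hV : Pool.Agent.NPC.Poly (fun L : List (List ℕ) => VV L) :=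
    N175ST.VV_poly Pool.Agent.NPC.Poly.id
  have h1 : UPoly (fun L : List (List ℕ) => (q + 1) * (VV L).length) :=
    UPoly.mul (UPoly.const (q + 1)) (UPoly.length hV)
  exact Pool.Agent.NPC.Poly.pair (Pool.Agent.NPC.Poly.const 0) (Pool.Agent.NPC.Poly.pair
    Pool.Agent.NPC.Poly.id (Pool.Agent.NPC.Poly.pair h1 (Pool.Agent.NPC.Poly.const [])))

theorem sz_le_of_names {L : List (List ℕ)} (hL : IsComplex L)
    (hv : ∀ F ∈ L, ∀ v ∈ F, v < L.length) :
    sz L ≤ L.length * (L.length * (4 * L.length + 2) + 2) + 1 := by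
  have h1 := sz_le_length_mul L (L.length * (4 * L.length + 2) + 1) (by
    intro F hF
    have h2 := sz_le_length_mul F (4 * L.length + 1) (by
      intro v hvF
      have h3 := sz_nat_le v
      have h4 := Poly.size_le_self v
      have h5 := hv F hF v hvF
      omega)
    have h6 : F.length ≤ L.length := by
      have h7 : F.Nodup := (hL.face F hF).2.imp (fun h => h.ne)
      have h8 : F.toFinset ⊆ range L.length := fun v hvF =>
        Finset.mem_range.2 (hv F hF v (List.mem_toFinset.1 hvF))
      have h9 := Finset.card_le_card h8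
      rw [List.toFinset_card_of_nodup h7, Finset.card_range] at h9
      exact h9
    refine h2.trans ?_
    have h7 := Nat.mul_le_mul_right (4 * L.length + 2) h6
    exact Nat.add_le_add_right h7 1)
  refine h1.trans ?_
  exact le_refl _

/-- There is a coin-tossing machine and a polynomial `p` such that, for every finite simplicial
complex of dimension at least one, given by the list of its faces, the machine outputs every
spanning tree with probability exactly one over the number of spanning trees, in expected time at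
most `p` of the length of the input, and at most `p` of the number of faces if the vertices are
named by numbers smaller than the number of faces. -/
theorem main : ∃ (M : CoinMachine) (p : Polynomial ℕ), ∀ L : List (List ℕ), IsComplex L →
    1 ≤ dimC L →
    (trees L).Nonempty ∧
    Set.InjOn (treeCode L) (trees L) ∧
    (∀ Y ∈ trees L, outProb M (bits L) (treeCode L Y) = 1 / (trees L).card) ∧
    (∀ y : List Bool, (∀ Y ∈ trees L, y ≠ treeCode L Y) → outProb M (bits L) y = 0) ∧
    M.expectedTime (bits L) ≤ (p.eval (bits L).length : ℕ) ∧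
    ((∀ F ∈ L, ∀ v ∈ F, v < L.length) → M.expectedTime (bits L) ≤ (p.eval L.length : ℕ)) := by
  classical
  obtain ⟨pC, hpC⟩ := coin_loop N175ST.nc_upoly N175ST.stp_poly
  obtain ⟨M, pA, cf, h1, h2, h3, h4, h5⟩ := hpC (ini_poly pC.natDegree)
  have hM : LoopSpec M pC cf := ⟨h3, h4, h5⟩
  obtain ⟨p0, hp0⟩ := time_poly pC
  set P : Polynomial ℕ := pA + p0 with hP
  set Z : Polynomial ℕ := Polynomial.X * (Polynomial.X * (Polynomial.C 4 * Polynomial.X +
    Polynomial.C 2) + Polynomial.C 2) + 1 with hZ
  refine ⟨M, P + P.comp Z, fun L hL hd => ?_⟩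
  have htime : M.expectedTime (bits L) ≤ (P.eval (sz L) : ℕ) := by
    refine expectedTime_le fun N => ?_
    refine (h1 L N).trans ?_
    have h6 := hp0 hM L (VV_uni (L := L)) (B0_mem (L := L)) N
    rw [hP, Polynomial.eval_add]
    push_cast
    linarith
  refine ⟨?_, ?_, ?_, ?_, ?_, ?_⟩
  · exact ⟨tre L (B0 (VV L)), mem_trees.2 ((tre_isTree_iff hL hd (MB_lt (B0_mem (L := L)))).2
      (B0_mem (L := L)))⟩
  · intro Y hY Y' hY' h
    exact treeCode_inj (mem_trees.1 (Finset.mem_coe.1 hY)).sub
      (mem_trees.1 (Finset.mem_coe.1 hY')).sub h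
  · intro Y hY
    rw [outProb_eq, h2 L]
    unfold ini
    rw [law_final hM hL hd, if_pos ⟨Y, hY, rfl⟩]
  · intro y hy
    rw [outProb_eq, h2 L]
    unfold ini
    rw [law_final hM hL hd, if_neg]
    rintro ⟨Y, hY, h⟩
    exact hy Y hY h
  · refine htime.trans ?_
    rw [bits_length, Polynomial.eval_add (p := P)]
    exact_mod_cast Nat.le_add_right _ _
  · intro hv
    refine htime.trans ?_
    have h6 := sz_le_of_names hL hv
    have h7 : Z.eval L.length = L.length * (L.length * (4 * L.length + 2) + 2) + 1 := by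
      simp [hZ]
    rw [← h7] at h6
    have h8 := eval_mono P h6
    rw [Polynomial.eval_add (p := P), Polynomial.eval_comp]
    exact_mod_cast h8.trans (Nat.le_add_left _ _)

end Pool.Agent.N175.ST
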