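import Pool.Agent.N175.ST.Alg
import Pool.Agent.N175.ST.Lin

/-!
# Masks and finite sets
-/

set_option autoImplicit false

namespace Pool.Agent.N175.ST

open Finset Pool.Agent.NPC Pool.Agent.H670R2

/-- the finite set with mask `B` -/
def SS (B : ℕ) : Finset ℕ := B.bitIndices.toFinset

theorem mem_SS {i B : ℕ} : i ∈ SS B ↔ B.testBit i = true := by
  unfold SS
  rw [List.mem_toFinset, Nat.mem_bitIndices]

theorem sum_SS (B : ℕ) : ∑ i ∈ SS B, 2 ^ i = B := sum_toFinset_bitIndices_two_pow B

theorem SS_sum (s : Finset ℕ) : SS (∑ i ∈ s, 2 ^ i) = s := toFinset_bitIndices_sum_two_pow s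

theorem SS_inj {A B : ℕ} (h : SS A = SS B) : A = B := by
  rw [← sum_SS A, ← sum_SS B, h]

theorem tb_eq (B i : ℕ) : tb B i = B.testBit i := by
  rw [Nat.testBit_eq_inth, tb, List.getD_eq_getElem?_getD, List.getI_eq_getElem?_getD]
  rfl

theorem SS_sub_iff {m B : ℕ} : SS B ⊆ range m ↔ B < 2 ^ m := by
  constructor
  · intro h
    apply Nat.lt_pow_two_of_testBit
    intro i hi
    by_contra hb
    have h1 : i ∈ SS B := mem_SS.2 (by simpa using hb)
    have := Finset.mem_range.1 (h h1)
    omega
  · intro h i hi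
    rw [Finset.mem_range]
    by_contra hlt
    push Not at hlt
    have h1 := mem_SS.1 hi
    rw [Nat.testBit_eq_false_of_lt (h.trans_le (Nat.pow_le_pow_right (by norm_num) hlt))] at h1
    simp at h1

theorem idx_toFinset {m B : ℕ} (h : B < 2 ^ m) : (idx m B).toFinset = SS B := by
  ext i
  rw [List.mem_toFinset, idx, List.mem_filter, List.mem_range, tb_eq, mem_SS]
  constructor
  · exact fun h => h.2
  · intro h1
    exact ⟨Finset.mem_range.1 (SS_sub_iff.2 h (mem_SS.2 h1)), h1⟩

theorem idx_nodup (m B : ℕ) : (idx m B).Nodup := List.nodup_range.filter _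

theorem idx_pairwise (m B : ℕ) : (idx m B).Pairwise (· < ·) :=
  List.pairwise_lt_range.filter _

theorem idx_lt {m B i : ℕ} (h : i ∈ idx m B) : i < m := by
  rw [idx, List.mem_filter, List.mem_range] at h
  exact h.1

theorem idx_length {m B : ℕ} (h : B < 2 ^ m) : (idx m B).length = (SS B).card := by
  rw [← idx_toFinset h, List.toFinset_card_of_nodup (idx_nodup m B)]

/-- all vectors have the same length -/
def Uni (V : List (List ℤ)) : Prop := ∃ e : ℕ, ∀ v ∈ V, v.length = e

theorem indT_iff {V : List (List ℤ)} (hV : Uni V) (l : List ℕ) (hl : l.Nodup)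
    (hlt : ∀ i ∈ l, i < V.length) : indT V l = true ↔ IndV V l.toFinset := by
  obtain ⟨e, he⟩ := hV
  unfold indT
  rw [decide_eq_true_iff]
  exact gdet_ne_zero_iff V e he l hl hlt

/-- the family of the bases -/
noncomputable abbrev FB (V : List (List ℤ)) (r : ℕ) : Finset (Finset ℕ) := Fm (IndV V) V.length r

theorem isB_iff {V : List (List ℤ)} (hV : Uni V) (r : ℕ) {B : ℕ} (h : B < 2 ^ V.length) :
    isB V r B = true ↔ SS B ∈ FB V r := by
  unfold isB
  rw [Bool.and_eq_true, decide_eq_true_iff, idx_length h,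
    indT_iff hV _ (idx_nodup _ _) (fun i hi => idx_lt hi), idx_toFinset h, mem_Fm, SS_sub_iff]
  tauto

theorem pw_eq {m i : ℕ} (h : i < m) : pw m i = 2 ^ i := by
  unfold pw
  rw [min_eq_left h.le]

theorem SS_swp {m i j B : ℕ} (hi : i < m) (hj : j < m) (h1 : i ∈ SS B) (h2 : j ∉ SS B) :
    SS (swp m i j B) = insert j ((SS B).erase i) := by
  have h3 : swp m i j B = ∑ t ∈ insert j ((SS B).erase i), 2 ^ t := by
    rw [Finset.sum_insert (by
      rw [Finset.mem_erase]
      exact fun h => h2 h.2)]
    have h4 := Finset.sum_erase_add (SS B) (fun t => 2 ^ t) h1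
    rw [sum_SS] at h4
    unfold swp
    rw [pw_eq hi, pw_eq hj]
    omega
  rw [h3, SS_sum]

theorem swp_lt {m i j B : ℕ} (hB : B < 2 ^ m) (hi : i < m) (hj : j < m) (h1 : i ∈ SS B)
    (h2 : j ∉ SS B) : swp m i j B < 2 ^ m := by
  rw [← SS_sub_iff, SS_swp hi hj h1 h2]
  have h3 := SS_sub_iff.2 hB
  intro t ht
  rw [Finset.mem_insert, Finset.mem_erase] at ht
  rcases ht with rfl | ht
  · exact Finset.mem_range.2 hj
  · exact h3 ht.2

theorem mvN_spec {V : List (List ℤ)} (hV : Uni V) (r : ℕ) (b : Bool) (i j : ℕ) {B : ℕ}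
    (hB : B < 2 ^ V.length) : mvN V r b i j B < 2 ^ V.length ∧
      SS (mvN V r b i j B) = mvF (FB V r) b i j (SS B) := by
  unfold mvN mvF
  by_cases hc : okmv V r b i j B = true
  · rw [hc, cond_true]
    unfold okmv at hc
    simp only [Bool.and_eq_true, decide_eq_true_eq, Bool.not_eq_true', tb_eq] at hc
    obtain ⟨hb, hi, hj, h1, h2, h3⟩ := hc
    have h1' : i ∈ SS B := mem_SS.2 h1
    have h2' : j ∉ SS B := by rw [mem_SS, h2]; simp
    have h4 := swp_lt hB hi hj h1' h2'
    have h5 := SS_swp hi hj h1' h2'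
    refine ⟨h4, ?_⟩
    rw [isB_iff hV r h4, h5] at h3
    rw [h5, if_pos ⟨hb, h1', h2', h3⟩]
  · have hc' : okmv V r b i j B = false := by simpa using hc
    rw [hc', cond_false]
    refine ⟨hB, ?_⟩
    rw [if_neg]
    rintro ⟨hb, h1, h2, h3⟩
    apply hc
    have hi : i < V.length := Finset.mem_range.1 (SS_sub_iff.2 hB h1)
    have hj : j < V.length := Finset.mem_range.1 ((mem_Fm.1 h3).1 (Finset.mem_insert_self _ _))
    unfold okmv
    simp only [Bool.and_eq_true, decide_eq_true_eq, Bool.not_eq_true', tb_eq]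
    refine ⟨hb, hi, hj, mem_SS.1 h1, ?_, ?_⟩
    · rw [mem_SS] at h2
      simpa using h2
    · rw [isB_iff hV r (swp_lt hB hi hj h1 h2), SS_swp hi hj h1 h2]
      exact h3

/-- sums over the moves -/
theorem sum_moves (V : List (List ℤ)) (g : Bool → ℕ → ℕ → ℕ) :
    ∑ q ∈ range (MM V), g (decide (q % 2 = 1)) (q / 2 % 2 ^ kk V) (q / 2 / 2 ^ kk V) =
      ∑ b : Bool, ∑ i ∈ range (2 ^ kk V), ∑ j ∈ range (2 ^ kk V), g b i j := by
  have hsplit : ∀ (N M : ℕ) (h : ℕ → ℕ → ℕ), ∑ R ∈ range (N * M), h (R % N) (R / N) =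
      ∑ a ∈ range N, ∑ b ∈ range M, h a b := by
    intro N M h
    rw [Finset.sum_comm]
    rcases Nat.eq_zero_or_pos N with rfl | hN
    · simp
    induction M with
    | zero => simp
    | succ M ih =>
      rw [Nat.mul_succ, Finset.sum_range_add, ih, Finset.sum_range_succ]
      congr 1
      apply Finset.sum_congr rfl
      intro a ha
      rw [Finset.mem_range] at ha
      rw [Nat.mul_add_mod, Nat.mod_eq_of_lt ha, Nat.mul_add_div hN, Nat.div_eq_of_lt ha, add_zero]
  have e : MM V = 2 * (2 ^ kk V * 2 ^ kk V) := by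
    unfold MM
    rw [pow_succ, two_mul, pow_add]; ring
  rw [e, hsplit 2 (2 ^ kk V * 2 ^ kk V) (fun a c => g (decide (a = 1)) (c % 2 ^ kk V)
    (c / 2 ^ kk V))]
  have h2 : ∀ a, ∑ c ∈ range (2 ^ kk V * 2 ^ kk V), g (decide (a = 1)) (c % 2 ^ kk V)
      (c / 2 ^ kk V) = ∑ i ∈ range (2 ^ kk V), ∑ j ∈ range (2 ^ kk V),
        g (decide (a = 1)) i j := fun a => hsplit _ _ (fun i j => g (decide (a = 1)) i j)
  simp only [h2]
  rw [Finset.sum_range_succ, Finset.sum_range_one, Fintype.sum_bool]
  simp only [Nat.zero_ne_one, decide_false, decide_true]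
  rw [add_comm]

/-- the table counts sequences of moves -/
theorem tabN_eq {V : List (List ℤ)} (hV : Uni V) (r B : ℕ) :
    ∀ (T A : ℕ), A < 2 ^ V.length →
      (tabN V r (List.range (2 ^ V.length)) B T).getD A 0 =
        cntF (FB V r) (2 ^ kk V) (SS B) T (SS A) := by
  intro T
  induction T with
  | zero =>
    intro A hA
    unfold tabN
    rw [Function.iterate_zero, id]
    rw [List.getD_eq_getElem?_getD, List.getElem?_map, List.getElem?_range hA]
    simp only [Option.map_some, Option.getD_some, cntF]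
    by_cases h : A = B
    · simp [h]
    · have : SS A ≠ SS B := fun h' => h (SS_inj h')
      simp [h, this]
  | succ T ih =>
    intro A hA
    unfold tabN
    rw [Function.iterate_succ_apply']
    change (tstep V r (List.range (2 ^ V.length)) (tabN V r (List.range (2 ^ V.length)) B T)).getD
      A 0 = _
    rw [tstep, List.getD_eq_getElem?_getD, List.getElem?_map, List.getElem?_range hA]
    simp only [Option.map_some, Option.getD_some, cntF]
    have h1 : ((List.range (MM V)).map (fun q =>
        (tabN V r (List.range (2 ^ V.length)) B T).getD (mvq V r q A) 0)).sum =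
        ∑ q ∈ range (MM V), (tabN V r (List.range (2 ^ V.length)) B T).getD (mvq V r q A) 0 := by
      rw [Finset.sum_range]
      rw [← List.sum_ofFn]
      congr 1
      apply List.ext_getElem <;> simp
    rw [h1]
    unfold mvq
    rw [sum_moves V (fun b i j => (tabN V r (List.range (2 ^ V.length)) B T).getD
      (mvN V r b i j A) 0)]
    refine Finset.sum_congr rfl fun b _ => Finset.sum_congr rfl fun i _ =>
      Finset.sum_congr rfl fun j _ => ?_
    have h2 := mvN_spec hV r b i j hA
    rw [ih _ h2.1, h2.2]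

theorem cstep_iter_lt {V : List (List ℤ)} (hV : Uni V) (r : ℕ) : ∀ (T R A : ℕ),
    A < 2 ^ V.length → chainN V r T R A < 2 ^ V.length := by
  intro T
  induction T with
  | zero => intro R A hA; exact hA
  | succ T ih =>
    intro R A hA
    unfold chainN
    rw [Function.iterate_succ_apply]
    exact ih _ _ (mvN_spec hV r _ _ _ hA).1

/-- counting the random numbers which lead from `A` to `B` -/
theorem count_chain {V : List (List ℤ)} (hV : Uni V) (r B : ℕ) :
    ∀ (T A : ℕ), A < 2 ^ V.length →
      ∑ R ∈ range (MM V ^ T), (if chainN V r T R A = B then 1 else 0) =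
        cntF (FB V r) (2 ^ kk V) (SS B) T (SS A) := by
  have hsplit : ∀ (N M : ℕ) (h : ℕ → ℕ → ℕ), ∑ R ∈ range (N * M), h (R % N) (R / N) =
      ∑ a ∈ range N, ∑ b ∈ range M, h a b := by
    intro N M h
    rw [Finset.sum_comm]
    rcases Nat.eq_zero_or_pos N with rfl | hN
    · simp
    induction M with
    | zero => simp
    | succ M ih =>
      rw [Nat.mul_succ, Finset.sum_range_add, ih, Finset.sum_range_succ]
      congr 1
      apply Finset.sum_congr rfl
      intro a ha
      rw [Finset.mem_range] at ha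
      rw [Nat.mul_add_mod, Nat.mod_eq_of_lt ha, Nat.mul_add_div hN, Nat.div_eq_of_lt ha, add_zero]
  intro T
  induction T with
  | zero =>
    intro A hA
    rw [pow_zero, Finset.sum_range_one]
    unfold chainN
    simp only [Function.iterate_zero, id, cntF]
    by_cases h : A = B
    · simp [h]
    · have : SS A ≠ SS B := fun h' => h (SS_inj h')
      simp [h, this]
  | succ T ih =>
    intro A hA
    have h1 : ∀ R, chainN V r (T + 1) R A = chainN V r T (R / MM V) (mvq V r (R % MM V) A) := by
      intro R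
      unfold chainN
      rw [Function.iterate_succ_apply]
      rfl
    simp only [h1]
    rw [pow_succ', hsplit (MM V) (MM V ^ T) (fun a c =>
      if chainN V r T c (mvq V r a A) = B then 1 else 0)]
    unfold mvq
    rw [sum_moves V (fun b i j => ∑ c ∈ range (MM V ^ T),
      if chainN V r T c (mvN V r b i j A) = B then 1 else 0)]
    simp only [cntF]
    refine Finset.sum_congr rfl fun b _ => Finset.sum_congr rfl fun i _ =>
      Finset.sum_congr rfl fun j _ => ?_
    have h2 := mvN_spec hV r b i j hA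
    rw [ih _ h2.1, h2.2]

end Pool.Agent.N175.ST
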