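import Pool.Agent.N175.ST.Mask

/-!
# Choice by weights
-/

set_option autoImplicit false

namespace Pool.Agent.N175.ST

open Finset Pool.Agent.NPC

theorem foldl_pick_some : ∀ (l : List (ℕ × ℕ)) (R B : ℕ),
    (l.foldl pickStep (R, some B)).2 = some B := by
  intro l
  induction l with
  | nil => intro R B; rfl
  | cons p l ih => intro R B; rw [List.foldl_cons]; exact ih R B

theorem pick_nil (R : ℕ) : pick [] R = none := rfl

theorem pick_cons (p : ℕ × ℕ) (l : List (ℕ × ℕ)) (R : ℕ) :
    pick (p :: l) R = if R < p.2 then some p.1 else pick l (R - p.2) := by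
  unfold pick
  rw [List.foldl_cons]
  by_cases h : R < p.2
  · have h1 : pickStep (R, none) p = (R, some p.1) := by simp [pickStep, h]
    rw [h1, if_pos h, foldl_pick_some]
  · have h1 : pickStep (R, none) p = (R - p.2, none) := by simp [pickStep, h]
    rw [h1, if_neg h]

/-- sums over all random numbers -/
theorem sum_pick {E : Type*} [AddCommMonoid E] (g : Option ℕ → E) : ∀ (l : List (ℕ × ℕ)) (W : ℕ),
    (l.map Prod.snd).sum ≤ W → ∑ R ∈ range W, g (pick l R) =
      (l.map (fun p => p.2 • g (some p.1))).sum + (W - (l.map Prod.snd).sum) • g none := by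
  intro l
  induction l with
  | nil =>
    intro W _
    simp [pick_nil]
  | cons p l ih =>
    intro W hW
    rw [List.map_cons, List.sum_cons] at hW
    obtain ⟨W', rfl⟩ : ∃ W', W = p.2 + W' := ⟨W - p.2, by omega⟩
    have h1 := ih W' (by omega)
    rw [Finset.sum_range_add]
    have h2 : ∀ R ∈ range p.2, g (pick (p :: l) R) = g (some p.1) := by
      intro R hR
      rw [Finset.mem_range] at hR
      rw [pick_cons, if_pos hR]
    have h3 : ∀ R ∈ range W', g (pick (p :: l) (p.2 + R)) = g (pick l R) := by
      intro R _
      rw [pick_cons, if_neg (by omega), Nat.add_sub_cancel_left]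
    rw [Finset.sum_congr rfl h2, Finset.sum_congr rfl h3, h1, Finset.sum_const,
      Finset.card_range, List.map_cons, List.sum_cons, List.map_cons, List.sum_cons, add_assoc]
    congr 3
    omega

/-! ### sums over coins -/

theorem valB_ofFn_bij (k : ℕ) : Function.Bijective
    (fun r : Fin k → Bool => (⟨valB (List.ofFn r), by
      have := valB_lt (List.ofFn r)
      rwa [List.length_ofFn] at this⟩ : Fin (2 ^ k))) := by
  rw [Fintype.bijective_iff_injective_and_card]
  refine ⟨?_, by simp⟩
  intro r r' h
  simp only [Fin.mk.injEq] at h
  have key : ∀ (l l' : List Bool), l.length = l'.length → valB l = valB l' → l = l' := by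
    intro l
    induction l with
    | nil =>
      intro l' hl _
      exact (List.length_eq_zero_iff.1 (by simpa using hl.symm)).symm
    | cons b l ih =>
      intro l' hl hv
      cases l' with
      | nil => simp at hl
      | cons b' l' =>
        simp only [List.length_cons, Nat.add_right_cancel_iff] at hl
        have e : ∀ (c : Bool) (t : List Bool), valB (c :: t) = (if c then 1 else 0) + 2 * valB t := by
          intro c t
          have := valB_append [c] t
          simp only [List.singleton_append, List.length_singleton, pow_one] at this
          rw [this]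
          cases c <;> simp [valB]
        rw [e, e] at hv
        cases b <;> cases b' <;> simp only [Bool.false_eq_true, if_false, if_true] at hv
        · rw [ih l' hl (by omega)]
        · omega
        · omega
        · rw [ih l' hl (by omega)]
  have h2 := key _ _ (by simp) h
  exact List.ofFn_injective h2

theorem sum_coins {E : Type*} [AddCommMonoid E] (k : ℕ) (g : ℕ → E) :
    ∑ r : Fin k → Bool, g (valB (List.ofFn r)) = ∑ R ∈ range (2 ^ k), g R := by
  rw [Finset.sum_range]
  exact (Equiv.ofBijective _ (valB_ofFn_bij k)).sum_comp (fun R : Fin (2 ^ k) => g R)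

end Pool.Agent.N175.ST
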