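import Pool.Agent.N175.ST.Abs
import Pool.Agent.H670R2.GramPoly

/-!
# The column matroid of a list of integer vectors
-/

set_option autoImplicit false

namespace Pool.Agent.N175.ST

open Finset

/-- the `i`-th vector of the list, as a rational vector (padded by zeros) -/
def vecQ (V : List (List ℤ)) (i : ℕ) : ℕ → ℚ := fun j => (((V.getD i []).getD j 0 : ℤ) : ℚ)

/-- the vectors of `V` with index in `A` are linearly independent over the rational numbers -/
def IndV (V : List (List ℤ)) (A : Finset ℕ) : Prop :=
  LinearIndependent ℚ (fun i : A => vecQ V i)

/-- the greedy independent set of indices, given a test for independence -/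
def greedy (test : List ℕ → Bool) (m : ℕ) : List ℕ :=
  (List.range m).foldl (fun acc i => if test (acc ++ [i]) then acc ++ [i] else acc) []

end Pool.Agent.N175.ST
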